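import Pool.Agent.Zk89.SteklovMain

/-!
# The Besov form of the inequality
-/

set_option autoImplicit false

namespace Pool.Agent.Zk89.Steklov

/-- **Besov form.** -/
theorem main_besov (m : ℕ) : ∃ c : ℝ, 0 < c ∧ ∀ b : ℤ → ℂ, Rapid b →
    (∀ n, b (-n) = (starRingEnd ℂ) (b n)) →
    Summable (fun i : ℕ => ((2 : ℝ) ^ (i + 1)) ^ (2 * (m + 2) + 1) *
      (∑ n ∈ Finset.Ico (2 ^ (i + 1) : ℕ) (2 ^ (i + 2)), ‖b (n : ℤ)‖ ^ 2) ^ (m + 2)) ∧
    c * ∑' i : ℕ, ((2 : ℝ) ^ (i + 1)) ^ (2 * (m + 2) + 1) *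
      (∑ n ∈ Finset.Ico (2 ^ (i + 1) : ℕ) (2 ^ (i + 2)), ‖b (n : ℤ)‖ ^ 2) ^ (m + 2)
      ≤ (ZK (2 * m + 3 + 1) b).re := by
  obtain ⟨C, hC0, hC⟩ := local_est
  set D : ℝ := √((4 / C) ^ (m + 2) / 5 ^ m) with hD
  have hD0 : 0 < D := by
    rw [hD]
    apply Real.sqrt_pos.mpr
    positivity
  have hD2 : D ^ 2 = (4 / C) ^ (m + 2) / 5 ^ m := Real.sq_sqrt (by positivity)
  refine ⟨D / (2 ^ (2 * m + 5) * (3 * 2 ^ (m + 2))), by positivity, ?_⟩
  intro b hb hc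
  set G : ℕ → ℝ := fun i => ((2 : ℝ) ^ (i + 1)) ^ (2 * (m + 2) + 1) *
      (∑ n ∈ Finset.Ico (2 ^ (i + 1) : ℕ) (2 ^ (i + 2)), ‖b (n : ℤ)‖ ^ 2) ^ (m + 2) with hG
  have hG0 : ∀ n, 0 ≤ G n := fun n => by simp only [hG]; positivity
  set t : ℕ → ℝ := fun i => √((4 * ∑ x ∈ Finset.Ico ((2 : ℤ) ^ i) (6 * 2 ^ i),
      ∑ p ∈ Finset.Ico ((2 : ℤ) ^ i) (6 * 2 ^ i), (x * p * Complex.normSq (KK b (x + p) p)))
        ^ (m + 2) / (5 * 2 ^ i) ^ m) with ht
  have hblock : ∀ i, G i ≤ 2 ^ (2 * m + 5) / D * t i := by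
    intro i
    set M : ℝ := 2 ^ i with hM
    have hM0 : 0 < M := by positivity
    have hMz : ((2 ^ i : ℤ) : ℝ) = M := by push_cast; rfl
    set X := ∑ n ∈ Finset.Ico (2 * (2 : ℤ) ^ i) (4 * 2 ^ i), Complex.normSq (b n) with hX
    have hX0 : 0 ≤ X := Finset.sum_nonneg fun _ _ => Complex.normSq_nonneg _
    set Y := ∑ x ∈ Finset.Ico ((2 : ℤ) ^ i) (6 * 2 ^ i),
      ∑ p ∈ Finset.Ico ((2 : ℤ) ^ i) (6 * 2 ^ i), ((x : ℝ) * p * Complex.normSq (KK b (x + p) p))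
      with hY
    have hXn : X = ∑ n ∈ Finset.Ico (2 ^ (i + 1) : ℕ) (2 ^ (i + 2)), Complex.normSq (b (n : ℤ)) := by
      rw [hX]
      have e : Finset.Ico (2 * (2 : ℤ) ^ i) (4 * 2 ^ i)
          = (Finset.Ico (2 ^ (i + 1) : ℕ) (2 ^ (i + 2))).image (Nat.cast : ℕ → ℤ) := by
        ext x
        rw [Finset.mem_Ico, Finset.mem_image]
        constructor
        · rintro ⟨h1, h2⟩
          have h0 : (0 : ℤ) < 2 ^ i := by positivity
          refine ⟨x.toNat, ?_, Int.toNat_of_nonneg (by linarith)⟩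
          rw [Finset.mem_Ico]
          zify
          rw [Int.toNat_of_nonneg (by linarith)]
          constructor
          · rw [pow_succ]; linarith
          · rw [pow_add]; linarith
        · rintro ⟨n, hn, rfl⟩
          rw [Finset.mem_Ico] at hn
          zify at hn
          rw [pow_succ, pow_add] at hn
          constructor <;> linarith [hn.1, hn.2]
      rw [e, Finset.sum_image (by intro a _ c _ h; exact_mod_cast h)]
    have hloc := hC b hb (2 ^ i) (one_le_pow₀ (by norm_num))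
    rw [hMz, ← hX] at hloc
    have hYle : M ^ 2 * ∑ x ∈ Finset.Ico ((2 : ℤ) ^ i) (6 * 2 ^ i),
        ∑ p ∈ Finset.Ico ((2 : ℤ) ^ i) (6 * 2 ^ i), Complex.normSq (KK b (x + p) p) ≤ Y := by
      rw [hY, Finset.mul_sum]
      apply Finset.sum_le_sum
      intro x hx
      rw [Finset.mul_sum]
      apply Finset.sum_le_sum
      intro p hp
      rw [Finset.mem_Ico] at hx hp
      apply mul_le_mul_of_nonneg_right _ (Complex.normSq_nonneg _)
      have h1 : M ≤ x := by rw [← hMz]; exact_mod_cast hx.1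
      have h2 : M ≤ p := by rw [← hMz]; exact_mod_cast hp.1
      rw [pow_two]
      exact mul_le_mul h1 h2 hM0.le (hM0.le.trans h1)
    have hY5 : M ^ 5 * X ^ 2 ≤ C * Y := by
      calc M ^ 5 * X ^ 2 = M ^ 2 * (M ^ 3 * X ^ 2) := by ring
        _ ≤ M ^ 2 * (C * ∑ x ∈ Finset.Ico ((2 : ℤ) ^ i) (6 * 2 ^ i),
            ∑ p ∈ Finset.Ico ((2 : ℤ) ^ i) (6 * 2 ^ i), Complex.normSq (KK b (x + p) p)) :=
            mul_le_mul_of_nonneg_left hloc (by positivity)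
        _ = C * (M ^ 2 * ∑ x ∈ Finset.Ico ((2 : ℤ) ^ i) (6 * 2 ^ i),
            ∑ p ∈ Finset.Ico ((2 : ℤ) ^ i) (6 * 2 ^ i), Complex.normSq (KK b (x + p) p)) := by
            ring
        _ ≤ C * Y := mul_le_mul_of_nonneg_left hYle hC0.le
    have ht1 : D * M ^ (2 * m + 5) * X ^ (m + 2) ≤ t i := by
      simp only [ht]
      apply Real.le_sqrt_of_sq_le
      rw [← hY, ← hM]
      have h6 : (4 / C) * (M ^ 5 * X ^ 2) ≤ 4 * Y := by
        rw [div_mul_eq_mul_div, div_le_iff₀ hC0]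
        linarith
      have h7 : ((4 / C) * (M ^ 5 * X ^ 2)) ^ (m + 2) ≤ (4 * Y) ^ (m + 2) :=
        pow_le_pow_left₀ (by positivity) h6 _
      rw [le_div_iff₀ (by positivity)]
      refine le_trans (le_of_eq ?_) h7
      rw [mul_pow, mul_pow, hD2]
      field_simp
      ring
    have hsum : G i = 2 ^ (2 * m + 5) * (M ^ (2 * m + 5) * X ^ (m + 2)) := by
      simp only [hG]
      rw [hXn]
      have e1 : ∀ n ∈ Finset.Ico (2 ^ (i + 1) : ℕ) (2 ^ (i + 2)),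
          ‖b (n : ℤ)‖ ^ 2 = Complex.normSq (b (n : ℤ)) := fun n _ =>
        (Complex.normSq_eq_norm_sq _).symm
      have e2 : (2 : ℝ) ^ (i + 1) = 2 ^ i * 2 := pow_succ _ _
      rw [Finset.sum_congr rfl e1, show 2 * (m + 2) + 1 = 2 * m + 5 by ring, hM, e2,
        mul_pow (2 ^ i : ℝ) 2 (2 * m + 5)]
      ring
    calc G i = 2 ^ (2 * m + 5) * (M ^ (2 * m + 5) * X ^ (m + 2)) := hsum
      _ = 2 ^ (2 * m + 5) / D * (D * M ^ (2 * m + 5) * X ^ (m + 2)) := by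
          field_simp
      _ ≤ _ := mul_le_mul_of_nonneg_left ht1 (by positivity)
  have hrange : ∀ I, ∑ n ∈ Finset.range I, G n
      ≤ (2 ^ (2 * m + 5) * (3 * 2 ^ (m + 2))) / D * (ZK (2 * m + 3 + 1) b).re := by
    intro I
    calc _ ≤ ∑ i ∈ Finset.range I, 2 ^ (2 * m + 5) / D * t i :=
          Finset.sum_le_sum fun i _ => hblock i
      _ = 2 ^ (2 * m + 5) / D * ∑ i ∈ Finset.range I, t i := by rw [Finset.mul_sum]
      _ ≤ 2 ^ (2 * m + 5) / D * (3 * 2 ^ (m + 2) * (ZK (2 * m + 3 + 1) b).re) :=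
          mul_le_mul_of_nonneg_left (limit_ineq hb hc m I) (by positivity)
      _ = _ := by ring
  have hsumm : Summable G := summable_of_sum_range_le hG0 hrange
  have htsum : ∑' n : ℕ, G n
      ≤ (2 ^ (2 * m + 5) * (3 * 2 ^ (m + 2))) / D * (ZK (2 * m + 3 + 1) b).re :=
    Real.tsum_le_of_sum_range_le hG0 hrange
  refine ⟨hsumm, ?_⟩
  have hP : (0 : ℝ) < 2 ^ (2 * m + 5) * (3 * 2 ^ (m + 2)) := by positivity
  calc D / (2 ^ (2 * m + 5) * (3 * 2 ^ (m + 2))) * ∑' n : ℕ, G n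
      ≤ D / (2 ^ (2 * m + 5) * (3 * 2 ^ (m + 2))) *
        ((2 ^ (2 * m + 5) * (3 * 2 ^ (m + 2))) / D * (ZK (2 * m + 3 + 1) b).re) :=
        mul_le_mul_of_nonneg_left htsum (by positivity)
    _ = (ZK (2 * m + 3 + 1) b).re := by
        field_simp

end Pool.Agent.Zk89.Steklov
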