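import Mathlib

/-!
# `∑ |(f*f)(s)|² ≥ (∑ |f(p)|²)²`
-/

set_option autoImplicit false

open LaurentPolynomial

namespace Pool.Agent.Zk89.Steklov

/-- the involution `f ↦ conj f(-·)` -/
noncomputable def st (f : LaurentPolynomial ℂ) : LaurentPolynomial ℂ :=
  invert (AddMonoidAlgebra.mapRingHom ℤ (starRingEnd ℂ) f)

theorem st_coeff (f : LaurentPolynomial ℂ) (n : ℤ) :
    (st f).coeff n = starRingEnd ℂ (f.coeff (-n)) := by
  rw [st, invert_apply, AddMonoidAlgebra.coeff_mapRingHom]

theorem st_mul (f g : LaurentPolynomial ℂ) : st (f * g) = st f * st g := by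
  simp [st, map_mul]

theorem st_st (f : LaurentPolynomial ℂ) : st (st f) = f := by
  ext n
  simp [st_coeff]

theorem mul_st_coeff_zero (g : LaurentPolynomial ℂ) :
    (g * st g).coeff 0 = ((∑ s ∈ g.coeff.support, Complex.normSq (g.coeff s) : ℝ) : ℂ) := by
  rw [AddMonoidAlgebra.coeff_mul_apply_left, Finsupp.sum, Complex.ofReal_sum]
  apply Finset.sum_congr rfl
  intro s _
  rw [st_coeff]
  simp only [add_zero, neg_neg]
  rw [Complex.mul_conj]

theorem auto_laurent (f : LaurentPolynomial ℂ) :
    (∑ s ∈ f.coeff.support, Complex.normSq (f.coeff s)) ^ 2 ≤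
      ∑ s ∈ (f * f).coeff.support, Complex.normSq ((f * f).coeff s) := by
  set h := f * st f with hh
  have h1 : (f * f) * st (f * f) = h * st h := by
    rw [st_mul, hh, st_mul, st_st]
    ring
  have h2 : (∑ s ∈ (f * f).coeff.support, Complex.normSq ((f * f).coeff s) : ℝ)
      = ∑ s ∈ h.coeff.support, Complex.normSq (h.coeff s) := by
    have e1 := mul_st_coeff_zero (f * f)
    rw [h1, mul_st_coeff_zero h] at e1
    exact_mod_cast e1.symm
  rw [h2]
  have h0 : h.coeff 0 = ((∑ s ∈ f.coeff.support, Complex.normSq (f.coeff s) : ℝ) : ℂ) :=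
    mul_st_coeff_zero f
  have h3 : (∑ s ∈ f.coeff.support, Complex.normSq (f.coeff s)) ^ 2
      = Complex.normSq (h.coeff 0) := by
    rw [h0, Complex.normSq_ofReal]
    ring
  rw [h3]
  by_cases hz : h.coeff 0 = 0
  · rw [hz, Complex.normSq_zero]
    exact Finset.sum_nonneg fun s _ => Complex.normSq_nonneg _
  · exact Finset.single_le_sum (f := fun s => Complex.normSq (h.coeff s))
      (fun s _ => Complex.normSq_nonneg _) (Finsupp.mem_support_iff.mpr hz)

/-- The inequality for functions with finite support. -/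
theorem auto_ineq (f : ℤ → ℂ) (B S : Finset ℤ) (hf : ∀ p, p ∉ B → f p = 0)
    (hS : ∀ s, s ∉ S → ∑ p ∈ B, f p * f (s - p) = 0) :
    (∑ p ∈ B, Complex.normSq (f p)) ^ 2 ≤
      ∑ s ∈ S, Complex.normSq (∑ p ∈ B, f p * f (s - p)) := by
  classical
  set F : LaurentPolynomial ℂ := AddMonoidAlgebra.ofCoeff
    (Finsupp.onFinset B f (fun p hp => by
      by_contra h
      exact hp (hf p h))) with hF
  have hcoeff : ∀ p, F.coeff p = f p := fun p => rfl
  have hsub : F.coeff.support ⊆ B := by
    intro p hp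
    by_contra h
    rw [Finsupp.mem_support_iff, hcoeff] at hp
    exact hp (hf p h)
  have hFF : ∀ s, (F * F).coeff s = ∑ p ∈ B, f p * f (s - p) := by
    intro s
    rw [AddMonoidAlgebra.coeff_mul_apply_left, Finsupp.sum]
    rw [Finset.sum_subset hsub]
    · apply Finset.sum_congr rfl
      intro p _
      rw [hcoeff, hcoeff]
      congr 2
      ring
    · intro p _ hp
      rw [Finsupp.notMem_support_iff.mp hp, zero_mul]
  have h := auto_laurent F
  have e1 : ∑ s ∈ F.coeff.support, Complex.normSq (F.coeff s) = ∑ p ∈ B, Complex.normSq (f p) := by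
    rw [Finset.sum_subset hsub]
    · exact Finset.sum_congr rfl fun p _ => by rw [hcoeff]
    · intro p _ hp
      rw [Finsupp.notMem_support_iff.mp hp, Complex.normSq_zero]
  have e2 : ∑ s ∈ (F * F).coeff.support, Complex.normSq ((F * F).coeff s)
      = ∑ s ∈ S, Complex.normSq (∑ p ∈ B, f p * f (s - p)) := by
    have hsub2 : (F * F).coeff.support ⊆ S := by
      intro s hs
      by_contra hns
      rw [Finsupp.mem_support_iff, hFF] at hs
      exact hs (hS s hns)
    rw [Finset.sum_subset hsub2]
    · exact Finset.sum_congr rfl fun p _ => by rw [hFF]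
    · intro p _ hp
      rw [Finsupp.notMem_support_iff.mp hp, Complex.normSq_zero]
  rw [e1, e2] at h
  exact h

end Pool.Agent.Zk89.Steklov
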