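import Mathlib

/-!
# A cut-off function with second-difference bounds
-/

set_option autoImplicit false

namespace Pool.Agent.Zk89.Steklov

theorem exists_bump : ∃ (φ : ℝ → ℝ) (C : ℝ), 0 < C ∧ (∀ x, 0 ≤ φ x ∧ φ x ≤ 1) ∧
    (∀ x, 1 ≤ x → x ≤ 2 → φ x = 1) ∧ (∀ x, x ≤ 1 / 2 → φ x = 0) ∧ (∀ x, 5 / 2 ≤ x → φ x = 0) ∧
    (∀ x y, |φ x - φ y| ≤ C * |x - y|) ∧
    (∀ x h, 0 ≤ h → |φ (x + h) - 2 * φ x + φ (x - h)| ≤ C * h ^ 2) := by
  let f : ContDiffBump (3 / 2 : ℝ) := ⟨1 / 2, 1, by norm_num, by norm_num⟩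
  have hc : HasCompactSupport f := f.hasCompactSupport
  have hd : ContDiff ℝ 2 f := f.contDiff
  obtain ⟨C₁, hC₁⟩ := ContDiff.lipschitzWith_of_hasCompactSupport (n := 2) hc hd (by norm_num)
  have hd' : ContDiff ℝ 1 (deriv f) := hd.deriv' 
  have hc' : HasCompactSupport (deriv f) := hc.deriv
  obtain ⟨C₂, hC₂⟩ := ContDiff.lipschitzWith_of_hasCompactSupport (n := 1) hc' hd' (by norm_num)
  have hdiff : Differentiable ℝ f := hd.differentiable (by norm_num)
  refine ⟨f, C₁ + 2 * C₂ + 1, by positivity, fun x => ⟨f.nonneg, f.le_one⟩, ?_, ?_, ?_, ?_, ?_⟩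
  · intro x h1 h2
    apply f.one_of_mem_closedBall
    rw [Real.closedBall_eq_Icc]
    constructor
    · show 3 / 2 - 1 / 2 ≤ x
      linarith
    · show x ≤ 3 / 2 + 1 / 2
      linarith
  · intro x h1
    apply f.zero_of_le_dist
    show 1 ≤ dist x (3 / 2)
    rw [Real.dist_eq, abs_of_nonpos (by linarith)]
    linarith
  · intro x h1
    apply f.zero_of_le_dist
    show 1 ≤ dist x (3 / 2)
    rw [Real.dist_eq, abs_of_nonneg (by linarith)]
    linarith
  · intro x y
    have := hC₁.dist_le_mul x y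
    rw [Real.dist_eq, Real.dist_eq] at this
    refine this.trans ?_
    apply mul_le_mul_of_nonneg_right _ (abs_nonneg _)
    have : (0 : ℝ) ≤ C₂ := C₂.2
    linarith
  · intro x h hh
    set g : ℝ → ℝ := fun t => f (x + t) - 2 * f x + f (x - t) with hg
    have hgd : ∀ t, HasDerivAt g (deriv f (x + t) - deriv f (x - t)) t := by
      intro t
      have h1 : HasDerivAt (fun t => f (x + t)) (deriv f (x + t)) t :=
        HasDerivAt.comp_const_add x t (hdiff (x + t)).hasDerivAt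
      have h2 : HasDerivAt (fun t => f (x - t)) (-deriv f (x - t)) t :=
        HasDerivAt.comp_const_sub x t (hdiff (x - t)).hasDerivAt
      have h3 := HasDerivAt.add (HasDerivAt.sub_const (2 * f x) h1) h2
      have e : deriv f (x + t) + -deriv f (x - t) = deriv f (x + t) - deriv f (x - t) := by ring
      rw [e] at h3
      exact h3
    have hb : ∀ t ∈ Set.Icc (0 : ℝ) h, ‖deriv f (x + t) - deriv f (x - t)‖ ≤ 2 * C₂ * h := by
      intro t ht
      have := hC₂.dist_le_mul (x + t) (x - t)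
      rw [dist_eq_norm, Real.dist_eq] at this
      refine this.trans ?_
      rw [show x + t - (x - t) = 2 * t by ring, abs_of_nonneg (by linarith [ht.1])]
      have h0 : (0 : ℝ) ≤ C₂ := C₂.2
      nlinarith [ht.1, ht.2]
    have key := Convex.norm_image_sub_le_of_norm_hasDerivWithin_le (f := g)
      (f' := fun t => deriv f (x + t) - deriv f (x - t)) (C := 2 * C₂ * h)
      (s := Set.Icc (0 : ℝ) h) (x := 0) (y := h)
      (fun t _ => (hgd t).hasDerivWithinAt) hb (convex_Icc 0 h)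
      (Set.left_mem_Icc.mpr hh) (Set.right_mem_Icc.mpr hh)
    have hg0 : g 0 = 0 := by simp [hg]; ring
    rw [hg0, sub_zero, sub_zero, Real.norm_eq_abs, Real.norm_eq_abs, abs_of_nonneg hh] at key
    have hC0 : (0 : ℝ) ≤ C₁ := C₁.2
    calc |f (x + h) - 2 * f x + f (x - h)| ≤ 2 * C₂ * h * h := key
      _ ≤ (C₁ + 2 * C₂ + 1) * h ^ 2 := by nlinarith [sq_nonneg h]

end Pool.Agent.Zk89.Steklov
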