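import Pool.Agent.Zk89.Bump
import Pool.Agent.Zk89.Autocorr

/-!
# The local estimate
-/

set_option autoImplicit false

namespace Pool.Agent.Zk89.Steklov

/-- rapidly decaying sequences -/
def Rapid (b : ℤ → ℂ) : Prop := ∀ R : ℕ, Summable (fun j : ℤ => (1 + |(j : ℝ)|) ^ R * ‖b j‖)

/-- `K_s(p) = ∑_j |j - p| b_j b_{s-j}` -/
noncomputable def KK (b : ℤ → ℂ) (s p : ℤ) : ℂ :=
  ∑' j : ℤ, ((|j - p| : ℤ) : ℂ) * (b j * b (s - j))

theorem Rapid.bdd {b : ℤ → ℂ} (hb : Rapid b) : ∃ C : ℝ, 0 ≤ C ∧ ∀ j, ‖b j‖ ≤ C := by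
  have h := hb 0
  simp only [pow_zero, one_mul] at h
  refine ⟨∑' j, ‖b j‖, tsum_nonneg fun j => norm_nonneg _, fun j => ?_⟩
  exact h.le_tsum j fun i _ => norm_nonneg _

theorem K_summable {b : ℤ → ℂ} (hb : Rapid b) (s p : ℤ) :
    Summable (fun j : ℤ => ((|j - p| : ℤ) : ℂ) * (b j * b (s - j))) := by
  obtain ⟨C, hC0, hC⟩ := hb.bdd
  have h1 := (hb 1).mul_left ((1 + |(p : ℝ)|) * C)
  refine Summable.of_norm_bounded h1 fun j => ?_
  rw [norm_mul, norm_mul, pow_one]
  have e1 : ‖((|j - p| : ℤ) : ℂ)‖ ≤ (1 + |(p : ℝ)|) * (1 + |(j : ℝ)|) := by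
    rw [Complex.norm_intCast]
    push_cast
    rw [abs_abs]
    have := abs_sub (j : ℝ) (p : ℝ)
    have h1 := abs_nonneg (j : ℝ)
    have h2 := abs_nonneg (p : ℝ)
    nlinarith
  calc ‖((|j - p| : ℤ) : ℂ)‖ * (‖b j‖ * ‖b (s - j)‖)
      ≤ ((1 + |(p : ℝ)|) * (1 + |(j : ℝ)|)) * (‖b j‖ * C) := by
        apply mul_le_mul e1 _ (by positivity) (by positivity)
        exact mul_le_mul_of_nonneg_left (hC _) (norm_nonneg _)
    _ = _ := by ring

theorem K_second {b : ℤ → ℂ} (hb : Rapid b) (s p : ℤ) :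
    KK b s (p + 1) - 2 * KK b s p + KK b s (p - 1) = 2 * (b p * b (s - p)) := by
  unfold KK
  have h0 := K_summable hb s p
  have h1 := K_summable hb s (p + 1)
  have h2 := K_summable hb s (p - 1)
  rw [← tsum_mul_left, ← h1.tsum_sub (h0.mul_left 2),
    ← (h1.sub (h0.mul_left 2)).tsum_add h2]
  rw [tsum_eq_single p]
  · have e1 : |p - (p + 1)| = (1 : ℤ) := by
      rw [show p - (p + 1) = (-1 : ℤ) by ring]; rfl
    have e2 : |p - (p - 1)| = (1 : ℤ) := by
      rw [show p - (p - 1) = (1 : ℤ) by ring]; rfl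
    rw [e1, e2, sub_self, abs_zero]
    push_cast
    ring
  · intro j hj
    have e : |j - (p + 1)| - 2 * |j - p| + |j - (p - 1)| = (0 : ℤ) := by
      rcases lt_or_gt_of_ne hj with h | h
      · rw [abs_of_nonpos (by omega), abs_of_nonpos (by omega), abs_of_nonpos (by omega)]
        ring
      · rw [abs_of_nonneg (by omega), abs_of_nonneg (by omega), abs_of_nonneg (by omega)]
        ring
    have e' : ((|j - (p + 1)| : ℤ) : ℂ) - 2 * ((|j - p| : ℤ) : ℂ) + ((|j - (p - 1)| : ℤ) : ℂ)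
        = 0 := by
      exact_mod_cast congrArg (Int.cast : ℤ → ℂ) e
    linear_combination (b j * b (s - j)) * e'

theorem sum_parts (M : ℤ) (g : ℤ → ℝ) (K : ℤ → ℂ) (hg : ∀ p, g p ≠ 0 → M < p ∧ p + 1 < 6 * M) :
    ∑ p ∈ Finset.Ico M (6 * M), (g p : ℂ) * (K (p + 1) - 2 * K p + K (p - 1))
      = ∑ p ∈ Finset.Ico M (6 * M), ((g (p + 1) - 2 * g p + g (p - 1) : ℝ) : ℂ) * K p := by
  have hs : ∀ (G : ℤ → ℂ) (c : ℤ), Summable (fun p => (g (p + c) : ℂ) * G p) := by
    intro G c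
    apply summable_of_ne_finset_zero (s := Finset.Ico (M - c) (6 * M - c))
    intro p hp
    have : g (p + c) = 0 := by
      by_contra h
      have := hg _ h
      apply hp
      rw [Finset.mem_Ico]
      constructor <;> omega
    rw [this]
    simp
  have hs0 : ∀ (G : ℤ → ℂ), Summable (fun p => (g p : ℂ) * G p) := by
    intro G
    have := hs G 0
    simpa using this
  have e1 : ∑' p : ℤ, (g p : ℂ) * K (p + 1) = ∑' p : ℤ, (g (p - 1) : ℂ) * K p := by
    rw [← (Equiv.addRight (1 : ℤ)).tsum_eq (fun p => (g (p - 1) : ℂ) * K p)]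
    apply tsum_congr
    intro p
    simp
  have e2 : ∑' p : ℤ, (g p : ℂ) * K (p - 1) = ∑' p : ℤ, (g (p + 1) : ℂ) * K p := by
    rw [← (Equiv.subRight (1 : ℤ)).tsum_eq (fun p => (g (p + 1) : ℂ) * K p)]
    apply tsum_congr
    intro p
    simp
  have l1 : ∑ p ∈ Finset.Ico M (6 * M), (g p : ℂ) * (K (p + 1) - 2 * K p + K (p - 1))
      = ∑' p : ℤ, (g p : ℂ) * (K (p + 1) - 2 * K p + K (p - 1)) := by
    symm
    apply tsum_eq_sum
    intro p hp
    have : g p = 0 := by
      by_contra h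
      have := hg _ h
      apply hp
      rw [Finset.mem_Ico]
      constructor <;> omega
    rw [this]
    simp
  have l2 : ∑ p ∈ Finset.Ico M (6 * M), ((g (p + 1) - 2 * g p + g (p - 1) : ℝ) : ℂ) * K p
      = ∑' p : ℤ, ((g (p + 1) - 2 * g p + g (p - 1) : ℝ) : ℂ) * K p := by
    symm
    apply tsum_eq_sum
    intro p hp
    rw [Finset.mem_Ico, not_and_or, not_le, not_lt] at hp
    have h1 : g (p + 1) = 0 := by
      by_contra h
      have := hg _ h
      omega
    have h2 : g p = 0 := by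
      by_contra h
      have := hg _ h
      omega
    have h3 : g (p - 1) = 0 := by
      by_contra h
      have := hg _ h
      omega
    rw [h1, h2, h3]
    simp
  rw [l1, l2]
  have r1 : ∑' p : ℤ, (g p : ℂ) * (K (p + 1) - 2 * K p + K (p - 1))
      = ∑' p : ℤ, (g p : ℂ) * K (p + 1) - 2 * ∑' p : ℤ, (g p : ℂ) * K p
        + ∑' p : ℤ, (g p : ℂ) * K (p - 1) := by
    rw [← tsum_mul_left, ← (hs0 _).tsum_sub ((hs0 _).mul_left 2),
      ← ((hs0 _).sub ((hs0 _).mul_left 2)).tsum_add (hs0 _)]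
    apply tsum_congr
    intro p
    ring
  have r2 : ∑' p : ℤ, ((g (p + 1) - 2 * g p + g (p - 1) : ℝ) : ℂ) * K p
      = ∑' p : ℤ, (g (p + 1) : ℂ) * K p - 2 * ∑' p : ℤ, (g p : ℂ) * K p
        + ∑' p : ℤ, (g (p - 1) : ℂ) * K p := by
    have hm : Summable (fun p => (g (p - 1) : ℂ) * K p) := by
      have := hs K (-1)
      simpa [sub_eq_add_neg] using this
    rw [← tsum_mul_left, ← (hs K 1).tsum_sub ((hs0 _).mul_left 2),
      ← ((hs K 1).sub ((hs0 _).mul_left 2)).tsum_add hm]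
    apply tsum_congr
    intro p
    push_cast
    ring
  rw [r1, r2, e1, e2]
  ring

theorem second_diff_prod (u v : ℤ → ℝ) (p : ℤ) (A D : ℝ)
    (hu : |u p| ≤ 1) (hv : |v p| ≤ 1)
    (hu1 : |u (p + 1) - u p| ≤ A) (hu2 : |u (p - 1) - u p| ≤ A)
    (hv1 : |v (p + 1) - v p| ≤ A) (hv2 : |v (p - 1) - v p| ≤ A)
    (hu3 : |u (p + 1) - 2 * u p + u (p - 1)| ≤ D) (hv3 : |v (p + 1) - 2 * v p + v (p - 1)| ≤ D) :
    |u (p + 1) * v (p + 1) - 2 * (u p * v p) + u (p - 1) * v (p - 1)| ≤ 2 * A ^ 2 + 2 * D := by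
  have e : u (p + 1) * v (p + 1) - 2 * (u p * v p) + u (p - 1) * v (p - 1)
      = (u (p + 1) - u p) * (v (p + 1) - v p) + (u (p - 1) - u p) * (v (p - 1) - v p)
        + (u p * (v (p + 1) - 2 * v p + v (p - 1)) + v p * (u (p + 1) - 2 * u p + u (p - 1))) := by
    ring
  rw [e]
  have hA : 0 ≤ A := (abs_nonneg _).trans hu1
  have hD : 0 ≤ D := (abs_nonneg _).trans hu3
  have t1 : |(u (p + 1) - u p) * (v (p + 1) - v p)| ≤ A ^ 2 := by
    rw [abs_mul, pow_two]
    exact mul_le_mul hu1 hv1 (abs_nonneg _) hA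
  have t2 : |(u (p - 1) - u p) * (v (p - 1) - v p)| ≤ A ^ 2 := by
    rw [abs_mul, pow_two]
    exact mul_le_mul hu2 hv2 (abs_nonneg _) hA
  have t3 : |u p * (v (p + 1) - 2 * v p + v (p - 1))| ≤ D := by
    rw [abs_mul]
    calc _ ≤ 1 * D := mul_le_mul hu hv3 (abs_nonneg _) (by norm_num)
      _ = D := one_mul _
  have t4 : |v p * (u (p + 1) - 2 * u p + u (p - 1))| ≤ D := by
    rw [abs_mul]
    calc _ ≤ 1 * D := mul_le_mul hv hu3 (abs_nonneg _) (by norm_num)
      _ = D := one_mul _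
  refine (abs_add_le _ _).trans ?_
  refine (add_le_add (abs_add_le _ _) (abs_add_le _ _)).trans ?_
  linarith

theorem local_est : ∃ C : ℝ, 0 < C ∧ ∀ b : ℤ → ℂ, Rapid b → ∀ M : ℤ, 1 ≤ M →
    (M : ℝ) ^ 3 * (∑ n ∈ Finset.Ico (2 * M) (4 * M), Complex.normSq (b n)) ^ 2 ≤
      C * ∑ m ∈ Finset.Ico M (6 * M), ∑ p ∈ Finset.Ico M (6 * M),
        Complex.normSq (KK b (m + p) p) := by
  obtain ⟨φ, C, hC0, hφ01, hφ1, hφl, hφr, hφL, hφD⟩ := exists_bump
  refine ⟨5 * ((2 * C ^ 2 + 2 * C) / 8) ^ 2, by positivity, ?_⟩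
  intro b hb M hM
  have hMr : (1 : ℝ) ≤ (M : ℝ) := by exact_mod_cast hM
  have hM0 : (0 : ℝ) < (M : ℝ) := by linarith
  set χ : ℤ → ℝ := fun n => φ ((n : ℝ) / (2 * M)) with hχ
  set h : ℝ := 1 / (2 * M) with hh
  have hh0 : 0 < h := by positivity
  have hχ1 : ∀ n, 2 * M ≤ n → n ≤ 4 * M → χ n = 1 := by
    intro n h1 h2
    have h1' : 2 * (M : ℝ) ≤ n := by exact_mod_cast h1
    have h2' : (n : ℝ) ≤ 4 * M := by exact_mod_cast h2
    apply hφ1
    · rw [le_div_iff₀ (by positivity)]; linarith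
    · rw [div_le_iff₀ (by positivity)]; linarith
  have hχ0 : ∀ n, χ n ≠ 0 → M < n ∧ n < 5 * M := by
    intro n hn
    constructor
    · by_contra hc
      push Not at hc
      apply hn
      apply hφl
      have : (n : ℝ) ≤ M := by exact_mod_cast hc
      rw [div_le_iff₀ (by positivity)]; linarith
    · by_contra hc
      push Not at hc
      apply hn
      apply hφr
      have : 5 * (M : ℝ) ≤ n := by exact_mod_cast hc
      rw [le_div_iff₀ (by positivity)]; linarith
  have hχabs : ∀ n, |χ n| ≤ 1 := by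
    intro n
    rw [abs_of_nonneg (hφ01 _).1]
    exact (hφ01 _).2
  have hχL : ∀ n m : ℤ, |n - m| = 1 → |χ n - χ m| ≤ C * h := by
    intro n m hnm
    refine (hφL _ _).trans (le_of_eq ?_)
    rw [← sub_div, abs_div, abs_of_pos (by positivity : (0 : ℝ) < 2 * M)]
    have : |(n : ℝ) - m| = 1 := by exact_mod_cast hnm
    rw [this]
  have hχD : ∀ n : ℤ, |χ (n + 1) - 2 * χ n + χ (n - 1)| ≤ C * h ^ 2 := by
    intro n
    have := hφD ((n : ℝ) / (2 * M)) h hh0.le
    refine le_trans (le_of_eq ?_) this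
    simp only [hχ, hh]
    push_cast
    congr 3
    · rw [add_div]
    · rw [sub_div]
  -- the function f
  set f : ℤ → ℂ := fun p => (χ p : ℂ) * b p with hf
  have hfB : ∀ p, p ∉ Finset.Ico M (6 * M) → f p = 0 := by
    intro p hp
    have : χ p = 0 := by
      by_contra hc
      have := hχ0 p hc
      apply hp
      rw [Finset.mem_Ico]
      constructor <;> omega
    simp [hf, this]
  have hS : ∀ s, s ∉ Finset.Ico (2 * M) (12 * M) →
      ∑ p ∈ Finset.Ico M (6 * M), f p * f (s - p) = 0 := by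
    intro s hs
    apply Finset.sum_eq_zero
    intro p hp
    rw [Finset.mem_Ico] at hp
    rw [hfB (s - p), mul_zero]
    intro hc
    rw [Finset.mem_Ico] at hc
    apply hs
    rw [Finset.mem_Ico]
    constructor <;> omega
  have hauto := auto_ineq f (Finset.Ico M (6 * M)) (Finset.Ico (2 * M) (12 * M)) hfB hS
  have hlow : ∑ n ∈ Finset.Ico (2 * M) (4 * M), Complex.normSq (b n)
      ≤ ∑ p ∈ Finset.Ico M (6 * M), Complex.normSq (f p) := by
    have hsub : Finset.Ico (2 * M) (4 * M) ⊆ Finset.Ico M (6 * M) := by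
      intro n hn
      rw [Finset.mem_Ico] at hn ⊢
      constructor <;> omega
    refine le_trans (le_of_eq ?_) (Finset.sum_le_sum_of_subset_of_nonneg hsub
      (fun i _ _ => Complex.normSq_nonneg _))
    apply Finset.sum_congr rfl
    intro n hn
    rw [Finset.mem_Ico] at hn
    rw [hf]
    simp only [hχ1 n hn.1 (by omega)]
    simp
  -- estimate for fixed s
  set a : ℝ := (2 * C ^ 2 + 2 * C) * h ^ 2 with ha
  have ha0 : 0 ≤ a := by positivity
  have hs_est : ∀ s : ℤ, Complex.normSq (∑ p ∈ Finset.Ico M (6 * M), f p * f (s - p)) ≤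
      (5 * M) * (a / 2) ^ 2 * ∑ p ∈ Finset.Ico M (6 * M) with s - p ∈ Finset.Ico M (6 * M),
        Complex.normSq (KK b s p) := by
    intro s
    set g : ℤ → ℝ := fun p => χ p * χ (s - p) with hg
    have hgsupp : ∀ p, g p ≠ 0 → M < p ∧ p + 1 < 6 * M := by
      intro p hp
      have := hχ0 p (left_ne_zero_of_mul hp)
      constructor <;> omega
    have e1 : ∑ p ∈ Finset.Ico M (6 * M), f p * f (s - p)
        = (1 / 2 : ℂ) * ∑ p ∈ Finset.Ico M (6 * M),
          (g p : ℂ) * (KK b s (p + 1) - 2 * KK b s p + KK b s (p - 1)) := by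
      rw [Finset.mul_sum]
      apply Finset.sum_congr rfl
      intro p _
      rw [K_second hb]
      simp only [hf, hg]
      push_cast
      ring
    rw [sum_parts M g (KK b s) hgsupp] at e1
    have hD : ∀ p, |g (p + 1) - 2 * g p + g (p - 1)| ≤ a := by
      intro p
      have := second_diff_prod χ (fun p => χ (s - p)) p (C * h) (C * h ^ 2) (hχabs _) (hχabs _)
        (hχL _ _ (by simp)) (hχL _ _ (by simp))
        (hχL _ _ (by simp)) (hχL _ _ (by simp)) (hχD p) (by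
          have := hχD (s - p)
          show |χ (s - (p + 1)) - 2 * χ (s - p) + χ (s - (p - 1))| ≤ C * h ^ 2
          rw [show s - (p + 1) = s - p - 1 by ring, show s - (p - 1) = s - p + 1 by ring]
          rw [show χ (s - p - 1) - 2 * χ (s - p) + χ (s - p + 1)
            = χ (s - p + 1) - 2 * χ (s - p) + χ (s - p - 1) by ring]
          exact this)
      refine this.trans (le_of_eq ?_)
      rw [ha]
      ring
    have hDz : ∀ p, s - p ∉ Finset.Ico M (6 * M) → g (p + 1) - 2 * g p + g (p - 1) = 0 := by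
      intro p hp
      rw [Finset.mem_Ico, not_and_or, not_le, not_lt] at hp
      have z : ∀ q : ℤ, (s - q ≤ M ∨ 5 * M ≤ s - q) → g q = 0 := by
        intro q hq
        by_contra hc
        have := hχ0 (s - q) (right_ne_zero_of_mul hc)
        omega
      rw [z (p + 1) (by omega), z p (by omega), z (p - 1) (by omega)]
      ring
    rw [e1]
    have e2 : ∑ p ∈ Finset.Ico M (6 * M), ((g (p + 1) - 2 * g p + g (p - 1) : ℝ) : ℂ) * KK b s p
        = ∑ p ∈ Finset.Ico M (6 * M) with s - p ∈ Finset.Ico M (6 * M),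
          ((g (p + 1) - 2 * g p + g (p - 1) : ℝ) : ℂ) * KK b s p := by
      rw [Finset.sum_filter]
      apply Finset.sum_congr rfl
      intro p _
      split_ifs with hc
      · rfl
      · rw [hDz p hc]; simp
    rw [e2]
    set T := Finset.filter (fun p => s - p ∈ Finset.Ico M (6 * M)) (Finset.Ico M (6 * M)) with hT
    have hTcard : (T.card : ℝ) ≤ 5 * M := by
      have h1 : T.card ≤ (Finset.Ico M (6 * M)).card := Finset.card_filter_le _ _
      rw [Int.card_Ico] at h1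
      have h2 : ((6 * M - M).toNat : ℤ) = 5 * M := by
        rw [Int.toNat_of_nonneg (by omega)]; ring
      have h3 : (T.card : ℤ) ≤ 5 * M := by
        rw [← h2]; exact_mod_cast h1
      exact_mod_cast h3
    rw [Complex.normSq_eq_norm_sq, norm_mul]
    have n1 : ‖∑ p ∈ T, ((g (p + 1) - 2 * g p + g (p - 1) : ℝ) : ℂ) * KK b s p‖
        ≤ ∑ p ∈ T, a * ‖KK b s p‖ := by
      refine (norm_sum_le _ _).trans ?_
      apply Finset.sum_le_sum
      intro p _
      rw [norm_mul, Complex.norm_real, Real.norm_eq_abs]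
      exact mul_le_mul_of_nonneg_right (hD p) (norm_nonneg _)
    rw [← Finset.mul_sum] at n1
    have n2 : (∑ p ∈ T, ‖KK b s p‖) ^ 2 ≤ 5 * M * ∑ p ∈ T, Complex.normSq (KK b s p) := by
      have := sq_sum_le_card_mul_sum_sq (s := T) (f := fun p => ‖KK b s p‖)
      refine this.trans ?_
      have e3 : ∑ p ∈ T, ‖KK b s p‖ ^ 2 = ∑ p ∈ T, Complex.normSq (KK b s p) :=
        Finset.sum_congr rfl fun p _ => (Complex.normSq_eq_norm_sq _).symm
      rw [e3]
      exact mul_le_mul_of_nonneg_right hTcard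
        (Finset.sum_nonneg fun p _ => Complex.normSq_nonneg _)
    have n3 : ‖(1 / 2 : ℂ)‖ = 1 / 2 := by norm_num
    rw [n3]
    have hn0 : 0 ≤ ‖∑ p ∈ T, ((g (p + 1) - 2 * g p + g (p - 1) : ℝ) : ℂ) * KK b s p‖ :=
      norm_nonneg _
    calc (1 / 2 * ‖∑ p ∈ T, ((g (p + 1) - 2 * g p + g (p - 1) : ℝ) : ℂ) * KK b s p‖) ^ 2
        ≤ (1 / 2 * (a * ∑ p ∈ T, ‖KK b s p‖)) ^ 2 := by
          apply pow_le_pow_left₀ (by positivity)
          exact mul_le_mul_of_nonneg_left n1 (by norm_num)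
      _ = (a / 2) ^ 2 * (∑ p ∈ T, ‖KK b s p‖) ^ 2 := by ring
      _ ≤ (a / 2) ^ 2 * (5 * M * ∑ p ∈ T, Complex.normSq (KK b s p)) :=
          mul_le_mul_of_nonneg_left n2 (by positivity)
      _ = _ := by ring
  -- sum over s
  have hsum : ∑ s ∈ Finset.Ico (2 * M) (12 * M),
      ∑ p ∈ Finset.Ico M (6 * M) with s - p ∈ Finset.Ico M (6 * M), Complex.normSq (KK b s p)
      ≤ ∑ m ∈ Finset.Ico M (6 * M), ∑ p ∈ Finset.Ico M (6 * M),
        Complex.normSq (KK b (m + p) p) := by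
    rw [Finset.sum_comm (s := Finset.Ico M (6 * M))]
    simp only [Finset.sum_filter]
    rw [Finset.sum_comm]
    apply Finset.sum_le_sum
    intro p hp
    rw [← Finset.sum_filter]
    have hinj : Set.InjOn (fun s : ℤ => s - p)
        (Finset.filter (fun s => s - p ∈ Finset.Ico M (6 * M)) (Finset.Ico (2 * M) (12 * M))) := by
      intro x _ y _ hxy
      simpa using hxy
    have e4 : ∑ s ∈ Finset.Ico (2 * M) (12 * M) with s - p ∈ Finset.Ico M (6 * M),
        Complex.normSq (KK b s p)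
        = ∑ m ∈ Finset.image (fun s : ℤ => s - p)
          (Finset.filter (fun s => s - p ∈ Finset.Ico M (6 * M)) (Finset.Ico (2 * M) (12 * M))),
          Complex.normSq (KK b (m + p) p) := by
      rw [Finset.sum_image hinj]
      apply Finset.sum_congr rfl
      intro s _
      rw [sub_add_cancel]
    rw [e4]
    apply Finset.sum_le_sum_of_subset_of_nonneg
    · intro m hm
      rw [Finset.mem_image] at hm
      obtain ⟨s, hs, rfl⟩ := hm
      exact (Finset.mem_filter.mp hs).2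
    · intro i _ _
      exact Complex.normSq_nonneg _
  set X := ∑ n ∈ Finset.Ico (2 * M) (4 * M), Complex.normSq (b n)
  have hX0 : 0 ≤ X := Finset.sum_nonneg fun n _ => Complex.normSq_nonneg _
  set Y := ∑ m ∈ Finset.Ico M (6 * M), ∑ p ∈ Finset.Ico M (6 * M),
        Complex.normSq (KK b (m + p) p)
  have c1 : X ^ 2 ≤ (5 * M) * (a / 2) ^ 2 * Y := by
    calc X ^ 2 ≤ (∑ p ∈ Finset.Ico M (6 * M), Complex.normSq (f p)) ^ 2 :=
          pow_le_pow_left₀ hX0 hlow 2
      _ ≤ _ := hauto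
      _ ≤ _ := Finset.sum_le_sum fun s _ => hs_est s
      _ = (5 * M) * (a / 2) ^ 2 * ∑ s ∈ Finset.Ico (2 * M) (12 * M),
            ∑ p ∈ Finset.Ico M (6 * M) with s - p ∈ Finset.Ico M (6 * M),
              Complex.normSq (KK b s p) := by rw [Finset.mul_sum]
      _ ≤ _ := mul_le_mul_of_nonneg_left hsum (by positivity)
  calc (M : ℝ) ^ 3 * X ^ 2 ≤ (M : ℝ) ^ 3 * ((5 * M) * (a / 2) ^ 2 * Y) :=
        mul_le_mul_of_nonneg_left c1 (by positivity)
    _ = 5 * ((2 * C ^ 2 + 2 * C) / 8) ^ 2 * Y := by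
        rw [ha, hh]
        field_simp
        ring

end Pool.Agent.Zk89.Steklov
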