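import Pool.Agent.Zk89.LocalEst

/-!
# Absolute summability and the path form of the zeta-invariant
-/

set_option autoImplicit false

namespace Pool.Agent.Zk89.Steklov

/-- `f(n) = n (n + j₁) ⋯ (n + j₁ + ⋯ + j_{K-1})`: the product over `i : Fin K` of
`n + ∑_{l < i} j_l`. -/
def fpoly {K : ℕ} (j : Fin K → ℤ) (n : ℤ) : ℤ := ∏ i, (n + ∑ l ∈ Finset.Iio i, j l)

/-- `N_{j₁ ⋯ j_K} = ∑_{n ∈ ℤ} (|f(n)| - f(n))`, a finite sum. -/
noncomputable def Ncoef {K : ℕ} (j : Fin K → ℤ) : ℤ := ∑ᶠ n : ℤ, (|fpoly j n| - fpoly j n)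

/-- `∑_{j₁ + ⋯ + j_K = 0} N_{j₁ ⋯ j_K} b_{j₁} ⋯ b_{j_K}` -/
noncomputable def ZK (K : ℕ) (b : ℤ → ℂ) : ℂ :=
  ∑' j : {j : Fin K → ℤ // ∑ i, j i = 0}, (Ncoef j.1 : ℂ) * ∏ i, b (j.1 i)

theorem abs_partial_le {K : ℕ} (j : Fin K → ℤ) (i : Fin K) :
    |∑ l ∈ Finset.Iio i, j l| ≤ ∑ l, |j l| :=
  (Finset.abs_sum_le_sum_abs _ _).trans
    (Finset.sum_le_sum_of_subset_of_nonneg (Finset.subset_univ _) fun _ _ _ => abs_nonneg _)

theorem fpoly_zero_term {K : ℕ} (hK : Even K) (j : Fin K → ℤ) (n : ℤ)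
    (hn : ∑ l, |j l| < |n|) : |fpoly j n| - fpoly j n = 0 := by
  have hpos : 0 < fpoly j n := by
    unfold fpoly
    rcases lt_or_ge 0 n with h | h
    · rw [abs_of_pos h] at hn
      apply Finset.prod_pos
      intro i _
      have := abs_le.mp (abs_partial_le j i)
      linarith [this.1]
    · rw [abs_of_nonpos h] at hn
      have e : ∏ i : Fin K, (n + ∑ l ∈ Finset.Iio i, j l)
          = ∏ i : Fin K, (-(n + ∑ l ∈ Finset.Iio i, j l)) := by
        rw [Finset.prod_neg]
        simp [hK.neg_one_pow]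
      rw [e]
      apply Finset.prod_pos
      intro i _
      have := abs_le.mp (abs_partial_le j i)
      linarith [this.2]
  rw [abs_of_pos hpos, sub_self]

theorem fpoly_support {K : ℕ} (hK : Even K) (j : Fin K → ℤ) :
    (Function.support fun n : ℤ => |fpoly j n| - fpoly j n) ⊆
      ↑(Finset.Icc (-∑ l, |j l|) (∑ l, |j l|)) := by
  intro n hn
  rw [Finset.coe_Icc, Set.mem_Icc, ← abs_le]
  by_contra hc
  push Not at hc
  exact hn (fpoly_zero_term hK j n hc)

theorem fpoly_bound {K : ℕ} (j : Fin K → ℤ) (n : ℤ) (hn : |n| ≤ ∑ l, |j l|) :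
    |(|fpoly j n| - fpoly j n)| ≤ 2 * (2 * ∑ l, |j l|) ^ K := by
  have h1 : |fpoly j n| ≤ (2 * ∑ l, |j l|) ^ K := by
    unfold fpoly
    rw [Finset.abs_prod]
    calc ∏ i : Fin K, |n + ∑ l ∈ Finset.Iio i, j l| ≤ ∏ i : Fin K, (2 * ∑ l, |j l|) := by
          apply Finset.prod_le_prod
          · intro i _; exact abs_nonneg _
          · intro i _
            have := abs_partial_le j i
            have h2 := abs_add_le n (∑ l ∈ Finset.Iio i, j l)
            linarith
      _ = _ := by simp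
  have h2 := abs_sub (|fpoly j n|) (fpoly j n)
  rw [abs_abs] at h2
  linarith

theorem one_add_sum_le_prod {K : ℕ} (x : Fin K → ℝ) (hx : ∀ i, 0 ≤ x i) :
    1 + ∑ i, x i ≤ ∏ i, (1 + x i) := by
  have h : ∀ s : Finset (Fin K), 1 + ∑ i ∈ s, x i ≤ ∏ i ∈ s, (1 + x i) := by
    intro s
    induction s using Finset.induction_on with
    | empty => simp
    | insert a s ha ih =>
      rw [Finset.sum_insert ha, Finset.prod_insert ha]
      have h0 : 0 ≤ ∑ i ∈ s, x i := Finset.sum_nonneg fun i _ => hx i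
      have h1 := hx a
      have h2 := mul_le_mul_of_nonneg_left ih (by linarith : 0 ≤ 1 + x a)
      nlinarith
  exact h Finset.univ

theorem summable_pi_prod (u : ℤ → ℝ) (hu : Summable u) (hu0 : ∀ x, 0 ≤ u x) (n : ℕ) :
    Summable (fun q : Fin n → ℤ => ∏ i, u (q i)) := by
  induction n with
  | zero => exact (hasSum_fintype _).summable
  | succ n ih =>
    rw [← (Fin.consEquiv (fun _ : Fin (n + 1) => ℤ)).summable_iff]
    have := Summable.mul_of_nonneg hu ih hu0 (fun q => Finset.prod_nonneg fun i _ => hu0 _)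
    refine this.congr ?_
    intro ⟨z, q⟩
    show u z * ∏ i, u (q i) = ∏ i : Fin (n + 1), u ((Fin.cons z q : Fin (n + 1) → ℤ) i)
    rw [Fin.prod_univ_succ]
    simp only [Fin.cons_zero, Fin.cons_succ]

/-- joint function of `(j, c)` -/
noncomputable def HH {K : ℕ} (b : ℤ → ℂ) (x : {j : Fin K → ℤ // ∑ i, j i = 0} × ℤ) : ℂ :=
  ((|fpoly x.1.1 x.2| - fpoly x.1.1 x.2 : ℤ) : ℂ) * ∏ i, b (x.1.1 i)

theorem HH_summable_norm {K : ℕ} (hK : Even K) {b : ℤ → ℂ} (hb : Rapid b) :
    Summable (fun x : {j : Fin K → ℤ // ∑ i, j i = 0} × ℤ => ‖HH b x‖) := by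
  have hfin : ∀ j : {j : Fin K → ℤ // ∑ i, j i = 0}, ∀ n : ℤ,
      n ∉ Finset.Icc (-∑ l, |j.1 l|) (∑ l, |j.1 l|) → ‖HH b (j, n)‖ = 0 := by
    intro j n hn
    have : |fpoly j.1 n| - fpoly j.1 n = 0 := by
      by_contra hc
      exact hn (by exact_mod_cast fpoly_support hK j.1 hc)
    unfold HH
    simp only [this]
    simp
  rw [summable_prod_of_nonneg (fun x => norm_nonneg _)]
  constructor
  · intro j
    exact summable_of_ne_finset_zero (hfin j)
  · -- bound the sum over n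
    set u : ℤ → ℝ := fun x => (2 * (1 + 2 * |(x : ℝ)|) ^ (K + 1)) * ‖b x‖ with hu
    have hus : Summable u := by
      have h1 := (hb (K + 1)).mul_left (2 * 2 ^ (K + 1))
      refine Summable.of_nonneg_of_le (fun x => by simp only [hu]; positivity) (fun x => ?_) h1
      simp only [hu]
      have h2 : (1 + 2 * |(x : ℝ)|) ^ (K + 1) ≤ 2 ^ (K + 1) * (1 + |(x : ℝ)|) ^ (K + 1) := by
        rw [← mul_pow]
        apply pow_le_pow_left₀ (by positivity)
        linarith [abs_nonneg (x : ℝ)]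
      calc (2 * (1 + 2 * |(x : ℝ)|) ^ (K + 1)) * ‖b x‖
          ≤ (2 * (2 ^ (K + 1) * (1 + |(x : ℝ)|) ^ (K + 1))) * ‖b x‖ := by gcongr
        _ = _ := by ring
    have hprod := (summable_pi_prod u hus (fun x => by simp only [hu]; positivity) K)
    have hprod2 := hprod.comp_injective
      (Subtype.val_injective (p := fun j : Fin K → ℤ => ∑ i, j i = 0))
    refine Summable.of_nonneg_of_le (fun j => tsum_nonneg fun n => norm_nonneg _) (fun j => ?_)
      (hprod2.mul_left 2)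
    rw [tsum_eq_sum (hfin j)]
    set J : ℤ := ∑ l, |j.1 l| with hJ
    have hJ0 : 0 ≤ J := Finset.sum_nonneg fun _ _ => abs_nonneg _
    have hterm : ∀ n ∈ Finset.Icc (-J) J, ‖HH b (j, n)‖ ≤
        (2 * (2 * (J : ℝ)) ^ K) * ∏ i, ‖b (j.1 i)‖ := by
      intro n hn
      rw [Finset.mem_Icc, ← abs_le] at hn
      have h1 := fpoly_bound j.1 n hn
      unfold HH
      rw [norm_mul, norm_prod, Complex.norm_intCast]
      apply mul_le_mul_of_nonneg_right _ (Finset.prod_nonneg fun _ _ => norm_nonneg _)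
      have h2 : ((|(|fpoly j.1 n| - fpoly j.1 n)| : ℤ) : ℝ) ≤ ((2 * (2 * J) ^ K : ℤ) : ℝ) := by
        exact_mod_cast h1
      push_cast at h2
      push_cast
      exact h2
    have hsum := Finset.sum_le_sum hterm
    rw [Finset.sum_const, Int.card_Icc, nsmul_eq_mul] at hsum
    have hcard : (((J + 1 - -J).toNat : ℕ) : ℝ) = 1 + 2 * J := by
      have : (((J + 1 - -J).toNat : ℕ) : ℤ) = 1 + 2 * J := by
        rw [Int.toNat_of_nonneg (by linarith)]; ring
      exact_mod_cast this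
    rw [hcard] at hsum
    refine hsum.trans ?_
    have hJr : (0 : ℝ) ≤ J := by exact_mod_cast hJ0
    have hP0 : 0 ≤ ∏ i, ‖b (j.1 i)‖ := Finset.prod_nonneg fun _ _ => norm_nonneg _
    have h3 : (1 + 2 * (J : ℝ)) ≤ ∏ i, (1 + 2 * |(j.1 i : ℝ)|) := by
      have := one_add_sum_le_prod (fun i => 2 * |(j.1 i : ℝ)|) (fun i => by positivity)
      rw [← Finset.mul_sum] at this
      rw [hJ]
      push_cast
      exact this
    have h4 : (1 + 2 * (J : ℝ)) * (2 * (2 * (J : ℝ)) ^ K) ≤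
        2 * ∏ i : Fin K, (2 * (1 + 2 * |(j.1 i : ℝ)|) ^ (K + 1)) := by
      have h5 : (2 * (J : ℝ)) ^ K ≤ (1 + 2 * (J : ℝ)) ^ K :=
        pow_le_pow_left₀ (by positivity) (by linarith) K
      calc (1 + 2 * (J : ℝ)) * (2 * (2 * (J : ℝ)) ^ K)
          ≤ (1 + 2 * (J : ℝ)) * (2 * (1 + 2 * (J : ℝ)) ^ K) := by gcongr
        _ = 2 * (1 + 2 * (J : ℝ)) ^ (K + 1) := by ring
        _ ≤ 2 * (∏ i, (1 + 2 * |(j.1 i : ℝ)|)) ^ (K + 1) := by gcongr
        _ = 2 * ∏ i, (1 + 2 * |(j.1 i : ℝ)|) ^ (K + 1) := by rw [Finset.prod_pow]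
        _ ≤ 2 * ∏ i : Fin K, (2 * (1 + 2 * |(j.1 i : ℝ)|) ^ (K + 1)) := by
            apply mul_le_mul_of_nonneg_left _ (by norm_num)
            apply Finset.prod_le_prod
            · intro i _; positivity
            · intro i _
              have : 0 ≤ (1 + 2 * |(j.1 i : ℝ)|) ^ (K + 1) := by positivity
              linarith
    calc (1 + 2 * (J : ℝ)) * (2 * (2 * (J : ℝ)) ^ K * ∏ i, ‖b (j.1 i)‖)
        = ((1 + 2 * (J : ℝ)) * (2 * (2 * (J : ℝ)) ^ K)) * ∏ i, ‖b (j.1 i)‖ := by ring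
      _ ≤ (2 * ∏ i : Fin K, (2 * (1 + 2 * |(j.1 i : ℝ)|) ^ (K + 1))) * ∏ i, ‖b (j.1 i)‖ :=
          mul_le_mul_of_nonneg_right h4 hP0
      _ = 2 * (∏ i : Fin K, u (j.1 i)) := by
          simp only [hu]
          rw [mul_assoc, ← Finset.prod_mul_distrib]

theorem HH_tsum_fiber {K : ℕ} (hK : Even K) (b : ℤ → ℂ)
    (j : {j : Fin K → ℤ // ∑ i, j i = 0}) :
    ∑' n : ℤ, HH b (j, n) = (Ncoef j.1 : ℂ) * ∏ i, b (j.1 i) := by
  unfold HH Ncoef
  simp only
  rw [tsum_mul_right]
  congr 1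
  have hsub := fpoly_support hK j.1
  rw [finsum_eq_sum_of_support_subset _ hsub]
  rw [tsum_eq_sum (s := Finset.Icc (-∑ l, |j.1 l|) (∑ l, |j.1 l|))]
  · push_cast
    rfl
  · intro n hn
    have : |fpoly j.1 n| - fpoly j.1 n = 0 := by
      by_contra hc
      exact hn (by exact_mod_cast hsub hc)
    rw [this]
    simp

theorem ZK_summable {K : ℕ} (hK : Even K) {b : ℤ → ℂ} (hb : Rapid b) :
    Summable (fun j : {j : Fin K → ℤ // ∑ i, j i = 0} =>
      ‖(Ncoef j.1 : ℂ) * ∏ i, b (j.1 i)‖) := by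
  have h := HH_summable_norm hK hb
  have h2 := ((summable_prod_of_nonneg (fun x => norm_nonneg _)).mp h)
  refine Summable.of_nonneg_of_le (fun j => norm_nonneg _) (fun j => ?_) h2.2
  rw [← HH_tsum_fiber hK b j]
  exact norm_tsum_le_tsum_norm (h2.1 j)

theorem ZK_hasSum {K : ℕ} (hK : Even K) {b : ℤ → ℂ} (hb : Rapid b) :
    HasSum (HH (K := K) b) (ZK K b) := by
  have h := (HH_summable_norm hK hb).of_norm
  have e : ∑' x, HH (K := K) b x = ZK K b := by
    rw [h.tsum_prod]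
    unfold ZK
    exact tsum_congr fun j => HH_tsum_fiber hK b j
  rw [← e]
  exact h.hasSum

theorem Iio_succ_sum {n : ℕ} (f : Fin (n + 1) → ℤ) (i : Fin n) :
    ∑ l ∈ Finset.Iio i.succ, f l = ∑ l ∈ Finset.Iio i.castSucc, f l + f i.castSucc := by
  have : Finset.Iio i.succ = insert i.castSucc (Finset.Iio i.castSucc) := by
    ext x
    simp only [Finset.mem_Iio, Finset.mem_insert, Fin.lt_def, Fin.ext_iff, Fin.val_succ,
      Fin.val_castSucc]
    omega
  rw [this, Finset.sum_insert (by simp), add_comm]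

/-- the bijection between closed paths and pairs `(j, c)` -/
def pathEquiv (n : ℕ) : {j : Fin (n + 1) → ℤ // ∑ i, j i = 0} × ℤ ≃ (Fin (n + 1) → ℤ) where
  toFun x := fun i => x.2 + ∑ l ∈ Finset.Iio i, x.1.1 l
  invFun q := (⟨fun i => q (i + 1) - q i, by
    rw [Finset.sum_sub_distrib, sub_eq_zero]
    exact Equiv.sum_comp (Equiv.addRight (1 : Fin (n + 1))) q⟩, q 0)
  left_inv := by
    rintro ⟨⟨j, hj⟩, c⟩
    have h0 : c + ∑ l ∈ Finset.Iio (0 : Fin (n + 1)), j l = c := by
      have : Finset.Iio (0 : Fin (n + 1)) = ∅ := by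
        ext x; simp
      rw [this]; simp
    simp only [Prod.mk.injEq, Subtype.mk.injEq]
    refine ⟨?_, h0⟩
    funext i
    induction i using Fin.lastCases with
    | last =>
      rw [Fin.last_add_one]
      have h1 : ∑ l ∈ Finset.Iio (Fin.last n), j l + j (Fin.last n) = 0 := by
        rw [← hj]
        have : (Finset.univ : Finset (Fin (n + 1))) =
            insert (Fin.last n) (Finset.Iio (Fin.last n)) := by
          ext x
          simp only [Finset.mem_univ, Finset.mem_insert, Finset.mem_Iio, true_iff]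
          rcases eq_or_lt_of_le (Fin.le_last x) with h | h
          · exact Or.inl h
          · exact Or.inr h
        rw [this, Finset.sum_insert (by simp), add_comm]
      linarith
    | cast i =>
      rw [Fin.coeSucc_eq_succ, Iio_succ_sum]
      ring
  right_inv := by
    intro q
    funext i
    simp only
    induction i using Fin.induction with
    | zero =>
      have : Finset.Iio (0 : Fin (n + 1)) = ∅ := by
        ext x; simp
      rw [this]; simp
    | succ i ih =>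
      rw [Iio_succ_sum, ← add_assoc, ih, Fin.coeSucc_eq_succ]
      ring

/-- the summand over closed paths -/
noncomputable def FF (n : ℕ) (b : ℤ → ℂ) (q : Fin (n + 1) → ℤ) : ℂ :=
  ((∏ i, |q i| - ∏ i, q i : ℤ) : ℂ) * ∏ i, b (q (i + 1) - q i)

theorem FF_hasSum {n : ℕ} (hK : Even (n + 1)) {b : ℤ → ℂ} (hb : Rapid b) :
    HasSum (FF n b) (ZK (n + 1) b) := by
  rw [← (pathEquiv n).hasSum_iff]
  have h := ZK_hasSum hK hb
  convert h using 1
  funext x
  have hx : (pathEquiv n).symm (pathEquiv n x) = x := (pathEquiv n).symm_apply_apply x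
  have h1 : ∀ i, pathEquiv n x (i + 1) - pathEquiv n x i = x.1.1 i := by
    intro i
    exact congrFun (congrArg (fun y => y.1.1) hx) i
  show FF n b (pathEquiv n x) = HH b x
  unfold FF HH fpoly
  simp only [h1]
  congr 2
  rw [Finset.abs_prod]
  rfl

theorem FF_tendsto {n : ℕ} (hK : Even (n + 1)) {b : ℤ → ℂ} (hb : Rapid b) :
    Filter.Tendsto (fun L : ℕ => ∑ q ∈ Fintype.piFinset
      (fun _ : Fin (n + 1) => Finset.Icc (-(L : ℤ)) L), FF n b q) Filter.atTop
      (nhds (ZK (n + 1) b)) := by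
  have h := FF_hasSum hK hb
  have ht : Filter.Tendsto (fun L : ℕ => Fintype.piFinset
      (fun _ : Fin (n + 1) => Finset.Icc (-(L : ℤ)) L)) Filter.atTop Filter.atTop := by
    apply Filter.tendsto_atTop_finset_of_monotone
    · intro L L' hL
      apply Fintype.piFinset_subset
      intro i
      apply Finset.Icc_subset_Icc
      · have : (L : ℤ) ≤ L' := by exact_mod_cast hL
        linarith
      · exact_mod_cast hL
    · intro q
      refine ⟨(∑ i, |q i|).toNat, ?_⟩
      rw [Fintype.mem_piFinset]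
      intro i
      rw [Finset.mem_Icc, ← abs_le, Int.toNat_of_nonneg (Finset.sum_nonneg fun _ _ => abs_nonneg _)]
      exact Finset.single_le_sum (f := fun i => |q i|) (fun _ _ => abs_nonneg _)
        (Finset.mem_univ i)
  exact h.comp ht

end Pool.Agent.Zk89.Steklov
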