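import Mathlib

set_option autoImplicit false

open Bundle ContinuousLinearMap
open scoped Manifold ContDiff RealInnerProductSpace Topology

namespace Pool.Agent.Zk89.Torus

section

variable {E : Type*} [NormedAddCommGroup E] [NormedSpace ℝ E]
  {H : Type*} [TopologicalSpace H] {I : ModelWithCorners ℝ E H}
  {M : Type*} [TopologicalSpace M] [ChartedSpace H M]
  {W : Type*} [NormedAddCommGroup W] [InnerProductSpace ℝ W]

/-- the inner product as a bilinear map -/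
noncomputable def ips (W : Type*) [NormedAddCommGroup W] [InnerProductSpace ℝ W] :
    W →L[ℝ] W →L[ℝ] ℝ := (innerSL ℝ (E := W) : W →L[ℝ] W →L[ℝ] ℝ)

/-- the bilinear form `(v, w) ↦ ⟪A v, A w⟫` -/
noncomputable def bil (A : E →L[ℝ] W) : E →L[ℝ] E →L[ℝ] ℝ :=
  (((ips W).comp A).flip.comp A).flip

theorem bil_apply (A : E →L[ℝ] W) (v w : E) : bil A v w = ⟪A v, A w⟫ := rfl

theorem contDiff_flip {W' : Type*} [NormedAddCommGroup W'] [NormedSpace ℝ W'] :
    ContDiff ℝ ∞ (fun B : E →L[ℝ] W' →L[ℝ] ℝ => B.flip) := by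
  have : IsBoundedLinearMap ℝ (fun B : E →L[ℝ] W' →L[ℝ] ℝ => B.flip) := by
    refine ⟨⟨?_, ?_⟩, 1, one_pos, ?_⟩
    · intro x y; rfl
    · intro c x; rfl
    · intro x; rw [one_mul]; exact le_of_eq (ContinuousLinearMap.opNorm_flip x)
  exact this.contDiff

theorem contDiff_bil : ContDiff ℝ ∞ (bil : (E →L[ℝ] W) → (E →L[ℝ] E →L[ℝ] ℝ)) := by
  have h1 : ContDiff ℝ ∞ (fun A : E →L[ℝ] W => (ips W).comp A) :=
    contDiff_const.clm_comp contDiff_id
  have h2 : ContDiff ℝ ∞ (fun A : E →L[ℝ] W => ((ips W).comp A).flip) :=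
    contDiff_flip.comp h1
  have h3 : ContDiff ℝ ∞ (fun A : E →L[ℝ] W => ((ips W).comp A).flip.comp A) :=
    h2.clm_comp contDiff_id
  exact contDiff_flip.comp h3

/-- The pullback of the inner product of `W` by `f : M → W`. -/
noncomputable def pull (I : ModelWithCorners ℝ E H) (f : M → W) (x : M) :
    TangentSpace I x →L[ℝ] TangentSpace I x →L[ℝ] ℝ :=
  bil (E := E) (W := W) (mfderiv I 𝓘(ℝ, W) f x)

theorem pull_apply (f : M → W) (x : M) (v w : TangentSpace I x) :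
    pull I f x v w = inner ℝ (mfderiv I 𝓘(ℝ, W) f x v : W) (mfderiv I 𝓘(ℝ, W) f x w : W) := rfl

theorem contMDiff_pull [IsManifold I ∞ M] {f : M → W} (hf : ContMDiff I 𝓘(ℝ, W) ∞ f) :
    ContMDiff I (I.prod 𝓘(ℝ, E →L[ℝ] E →L[ℝ] ℝ)) ∞
      (fun b ↦ TotalSpace.mk' (E →L[ℝ] E →L[ℝ] ℝ)
        (E := fun x : M => TangentSpace I x →L[ℝ] TangentSpace I x →L[ℝ] ℝ) b (pull I f b)) := by
  intro x₀
  rw [contMDiffAt_section]
  have h1 : ContMDiffAt I 𝓘(ℝ, E →L[ℝ] W) ∞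
      (inTangentCoordinates I 𝓘(ℝ, W) id f (mfderiv I 𝓘(ℝ, W) f) x₀) x₀ :=
    (hf x₀).mfderiv_const (by simp)
  have h2 : ContMDiffAt I 𝓘(ℝ, E →L[ℝ] E →L[ℝ] ℝ) ∞
      (fun x => bil (inTangentCoordinates I 𝓘(ℝ, W) id f (mfderiv I 𝓘(ℝ, W) f) x₀ x)) x₀ :=
    contDiff_bil.contDiffAt.contMDiffAt.comp x₀ h1
  apply h2.congr_of_eventuallyEq
  have hb : (trivializationAt E (TangentSpace I) x₀).baseSet ∈ 𝓝 x₀ :=
    (trivializationAt E (TangentSpace I) x₀).open_baseSet.mem_nhds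
      (FiberBundle.mem_baseSet_trivializationAt' x₀)
  filter_upwards [hb] with x hx
  ext v w
  rw [hom_trivializationAt_apply]
  show inCoordinates E (TangentSpace I) (E →L[ℝ] ℝ) (fun x => TangentSpace I x →L[ℝ] ℝ) x₀ x x₀ x
    (pull I f x) v w = _
  rw [inCoordinates_apply_eq₂ (E₃ := fun _ : M => ℝ) hx hx (Set.mem_univ _)]
  rw [bil_apply]
  unfold inTangentCoordinates
  simp only [id]
  have key : ∀ u : E, inCoordinates E (TangentSpace I) W (TangentSpace 𝓘(ℝ, W)) x₀ x (f x₀) (f x)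
      (mfderiv I 𝓘(ℝ, W) f x) u
      = mfderiv I 𝓘(ℝ, W) f x ((trivializationAt E (TangentSpace I) x₀).symm x u) := by
    intro u
    rw [inCoordinates_eq hx (by simp)]
    simp
  rw [key, key]
  simp [pull_apply]
  rfl

end

end Pool.Agent.Zk89.Torus
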