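import Pool.Agent.Zk89.SteklovMain

/-!
# Fourier coefficients of smooth periodic functions
-/

set_option autoImplicit false

open scoped ContDiff
open Complex (I exp)

namespace Pool.Agent.Zk89.Steklov

/-- Fourier coefficients of a `2π`-periodic complex function -/
noncomputable def fcC (f : ℝ → ℂ) (n : ℤ) : ℂ :=
  ((1 / (2 * Real.pi) : ℝ) : ℂ) *
    ∫ θ in (0 : ℝ)..(2 * Real.pi), f θ * exp (-(n * θ) * I)

/-- Fourier coefficients of a `2π`-periodic real function -/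
noncomputable def fc (a : ℝ → ℝ) (n : ℤ) : ℂ :=
  ((1 / (2 * Real.pi) : ℝ) : ℂ) *
    ∫ θ in (0 : ℝ)..(2 * Real.pi), (a θ : ℂ) * exp (-(n * θ) * I)

theorem fc_eq (a : ℝ → ℝ) (n : ℤ) : fc a n = fcC (fun θ => (a θ : ℂ)) n := rfl

theorem fc_neg (a : ℝ → ℝ) (n : ℤ) : fc a (-n) = (starRingEnd ℂ) (fc a n) := by
  unfold fc
  rw [map_mul, Complex.conj_ofReal]
  congr 1
  rw [intervalIntegral.integral_of_le (by positivity), intervalIntegral.integral_of_le (by positivity),
    ← integral_conj]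
  congr 1
  funext θ
  rw [map_mul, Complex.conj_ofReal, ← Complex.exp_conj]
  congr 2
  simp

theorem exp_deriv (n : ℤ) (θ : ℝ) :
    HasDerivAt (fun θ : ℝ => exp (-(n * θ) * I)) (-(n * I) * exp (-(n * θ) * I)) θ := by
  have h1 : HasDerivAt (fun θ : ℝ => -((n : ℂ) * (θ : ℂ)) * I) (-(n * I)) θ := by
    have h2 : HasDerivAt (fun θ : ℝ => (θ : ℂ)) 1 θ := Complex.ofRealCLM.hasDerivAt
    have h3 := ((h2.const_mul (n : ℂ)).neg).mul_const I
    have e : -((n : ℂ) * 1) * I = -(n * I) := by ring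
    rw [e] at h3
    exact h3
  have h4 := h1.cexp
  convert h4 using 1
  ring

theorem fcC_deriv (f : ℝ → ℂ) (hf : ContDiff ℝ ∞ f) (hp : Function.Periodic f (2 * Real.pi))
    (n : ℤ) : fcC (deriv f) n = (n * I) * fcC f n := by
  have hd : Differentiable ℝ f := hf.differentiable (by simp)
  have hdc : Continuous (deriv f) := hf.continuous_deriv (by simp)
  have hec : Continuous (fun θ : ℝ => exp (-((n : ℂ) * θ) * I)) := by fun_prop
  have key := intervalIntegral.integral_mul_deriv_eq_deriv_mul (a := (0 : ℝ)) (b := 2 * Real.pi)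
    (u := f) (u' := deriv f) (v := fun θ : ℝ => exp (-(n * θ) * I))
    (v' := fun θ : ℝ => -(n * I) * exp (-(n * θ) * I))
    (fun x _ => (hd x).hasDerivAt) (fun x _ => exp_deriv n x)
    (hdc.intervalIntegrable _ _) ((continuous_const.mul hec).intervalIntegrable _ _)
  have e1 : exp (-((n : ℂ) * ((2 * Real.pi : ℝ) : ℂ)) * I) = 1 := by
    rw [Complex.exp_eq_one_iff]
    refine ⟨-n, ?_⟩
    push_cast
    ring
  have e2 : exp (-((n : ℂ) * ((0 : ℝ) : ℂ)) * I) = 1 := by simp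
  have e3 : f (2 * Real.pi) = f 0 := by
    have := hp 0
    rwa [zero_add] at this
  rw [e1, e2, e3, sub_self, zero_sub] at key
  have e4 : ∫ x in (0 : ℝ)..(2 * Real.pi), f x * (-(n * I) * exp (-(n * x) * I))
      = -(n * I) * ∫ x in (0 : ℝ)..(2 * Real.pi), f x * exp (-(n * x) * I) := by
    rw [← intervalIntegral.integral_const_mul]
    congr 1
    funext x
    ring
  rw [e4] at key
  unfold fcC
  have e5 : ∫ θ in (0 : ℝ)..(2 * Real.pi), deriv f θ * exp (-(n * θ) * I)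
      = (n * I) * ∫ x in (0 : ℝ)..(2 * Real.pi), f x * exp (-(n * x) * I) := by
    linear_combination key
  rw [e5]
  ring

theorem periodic_deriv (f : ℝ → ℂ) (hp : Function.Periodic f (2 * Real.pi)) :
    Function.Periodic (deriv f) (2 * Real.pi) := by
  intro x
  have h : (fun y => f (y + 2 * Real.pi)) = f := funext hp
  rw [← deriv_comp_add_const, h]

theorem fcC_decay (R : ℕ) : ∀ f : ℝ → ℂ, ContDiff ℝ ∞ f → Function.Periodic f (2 * Real.pi) →
    ∃ C : ℝ, ∀ n : ℤ, |(n : ℝ)| ^ R * ‖fcC f n‖ ≤ C := by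
  induction R with
  | zero =>
    intro f hf _
    obtain ⟨C, hC⟩ := (isCompact_Icc (a := (0 : ℝ)) (b := 2 * Real.pi)).exists_bound_of_continuousOn
      hf.continuous.continuousOn
    refine ⟨‖((1 / (2 * Real.pi) : ℝ) : ℂ)‖ * (C * |2 * Real.pi - 0|), fun n => ?_⟩
    rw [pow_zero, one_mul]
    unfold fcC
    rw [norm_mul]
    apply mul_le_mul_of_nonneg_left _ (norm_nonneg _)
    apply intervalIntegral.norm_integral_le_of_norm_le_const
    intro x hx
    rw [Set.uIoc_of_le (by positivity)] at hx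
    rw [norm_mul]
    have : ‖exp (-(n * x) * I)‖ = 1 := by
      rw [show (-((n : ℂ) * (x : ℂ)) * I) = ((-(n * x) : ℝ) : ℂ) * I by push_cast; ring]
      exact Complex.norm_exp_ofReal_mul_I _
    rw [this, mul_one]
    exact hC x ⟨hx.1.le, hx.2⟩
  | succ R ih =>
    intro f hf hp
    have hd : ContDiff ℝ ∞ (deriv f) := by
      have : ContDiff ℝ (∞ + 1) f := by simpa using hf
      exact this.deriv' 
    obtain ⟨C, hC⟩ := ih (deriv f) hd (periodic_deriv f hp)
    refine ⟨C, fun n => ?_⟩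
    have h := hC n
    rw [fcC_deriv f hf hp, norm_mul, norm_mul, Complex.norm_I, mul_one, Complex.norm_intCast] at h
    rw [pow_succ]
    linarith

theorem fc_rapid (a : ℝ → ℝ) (ha : ContDiff ℝ ∞ a) (hp : Function.Periodic a (2 * Real.pi)) :
    Rapid (fc a) := by
  intro R
  have hf : ContDiff ℝ ∞ (fun θ : ℝ => (a θ : ℂ)) := Complex.ofRealCLM.contDiff.comp ha
  have hpf : Function.Periodic (fun θ : ℝ => (a θ : ℂ)) (2 * Real.pi) := by
    intro x
    simp only [hp x]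
  obtain ⟨C0, hC0⟩ := fcC_decay 0 _ hf hpf
  obtain ⟨C1, hC1⟩ := fcC_decay (R + 2) _ hf hpf
  have hs1 : Summable (fun j : ℤ => 1 / (j : ℝ) ^ 2) := by
    rw [Real.summable_one_div_int_pow]; norm_num
  have hs2 : Summable (fun j : ℤ => if j = 0 then (1 : ℝ) else 0) :=
    summable_of_ne_finset_zero (s := {0}) (fun j hj => by
      rw [Finset.mem_singleton] at hj
      rw [if_neg hj])
  have hC00 : 0 ≤ C0 := (by positivity : (0 : ℝ) ≤ |((0 : ℤ) : ℝ)| ^ 0 *
    ‖fcC (fun θ => (a θ : ℂ)) 0‖).trans (hC0 0)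
  have hC10 : 0 ≤ C1 := (by positivity : (0 : ℝ) ≤ |((0 : ℤ) : ℝ)| ^ (R + 2) *
    ‖fcC (fun θ => (a θ : ℂ)) 0‖).trans (hC1 0)
  refine Summable.of_nonneg_of_le (fun j => by positivity) (fun j => ?_)
    ((hs1.add hs2).mul_left (2 ^ (R + 1) * (C0 + C1)))
  rw [fc_eq]
  set x : ℝ := ‖fcC (fun θ => (a θ : ℂ)) j‖ with hx
  have h0 := hC0 j
  have h1 := hC1 j
  rw [← hx] at h0 h1
  rw [pow_zero, one_mul] at h0
  by_cases hj : j = 0
  · subst hj
    simp only [Int.cast_zero, abs_zero, add_zero, one_pow, one_mul, if_true]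
    rw [show (1 : ℝ) / 0 ^ 2 = 0 by norm_num, zero_add, mul_one]
    have : (1 : ℝ) ≤ 2 ^ (R + 1) := one_le_pow₀ (by norm_num)
    nlinarith
  · rw [if_neg hj, add_zero]
    have hj1 : (1 : ℝ) ≤ |(j : ℝ)| := by
      have : (1 : ℤ) ≤ |j| := Int.one_le_abs hj
      exact_mod_cast this
    have hj2 : (0 : ℝ) < (j : ℝ) ^ 2 := by positivity
    rw [mul_one_div, le_div_iff₀ hj2]
    have h2 : (1 + |(j : ℝ)|) ^ (R + 2) ≤ 2 ^ (R + 1) * (1 ^ (R + 2) + |(j : ℝ)| ^ (R + 2)) :=
      add_pow_le (by norm_num) (abs_nonneg _) (R + 2)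
    calc (1 + |(j : ℝ)|) ^ R * x * (j : ℝ) ^ 2
        = ((1 + |(j : ℝ)|) ^ R * |(j : ℝ)| ^ 2) * x := by rw [sq_abs]; ring
      _ ≤ (1 + |(j : ℝ)|) ^ (R + 2) * x := by
          apply mul_le_mul_of_nonneg_right _ (norm_nonneg _)
          rw [pow_add]
          apply mul_le_mul_of_nonneg_left _ (by positivity)
          apply pow_le_pow_left₀ (abs_nonneg _)
          linarith
      _ ≤ (2 ^ (R + 1) * (1 ^ (R + 2) + |(j : ℝ)| ^ (R + 2))) * x :=
          mul_le_mul_of_nonneg_right h2 (norm_nonneg _)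
      _ = 2 ^ (R + 1) * (x + |(j : ℝ)| ^ (R + 2) * x) := by ring
      _ ≤ 2 ^ (R + 1) * (C0 + C1) := by
          apply mul_le_mul_of_nonneg_left _ (by positivity)
          linarith

end Pool.Agent.Zk89.Steklov
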