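import Pool.Agent.Zk89.SteklovMatrix

/-!
# The inequality for rapidly decaying Hermitian sequences
-/

set_option autoImplicit false

namespace Pool.Agent.Zk89.Steklov

theorem ZK_real {n : ℕ} (hK : Even (n + 1)) {b : ℤ → ℂ} (hb : Rapid b)
    (hc : ∀ n, b (-n) = (starRingEnd ℂ) (b n)) : (ZK (n + 1) b).im = 0 := by
  have h1 := FF_hasSum hK hb
  have h2 : HasSum (fun q => star (FF n b q)) (star (ZK (n + 1) b)) := h1.star
  have h3 := ((Equiv.neg (Fin (n + 1) → ℤ)).hasSum_iff).mpr h1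
  have h4 : (FF n b ∘ (Equiv.neg (Fin (n + 1) → ℤ))) = fun q => star (FF n b q) := by
    funext q
    simp only [Function.comp_apply, Equiv.neg_apply, FF, RCLike.star_def, map_mul, map_intCast,
      map_prod, Pi.neg_apply]
    have e1 : ∏ i, |-q i| = ∏ i, |q i| := Finset.prod_congr rfl fun i _ => abs_neg _
    have e2 : ∏ i, -q i = ∏ i, q i := by
      rw [Finset.prod_neg]
      simp [hK.neg_one_pow]
    rw [e1, e2]
    congr 1
    apply Finset.prod_congr rfl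
    intro i _
    rw [← hc]
    congr 1
    ring
  rw [h4] at h3
  have h5 := h2.unique h3
  rw [Complex.star_def, Complex.conj_eq_iff_im] at h5
  exact h5

theorem sum_pow_le {ι : Type*} (s : Finset ι) (x : ι → ℝ) (hx : ∀ i ∈ s, 0 ≤ x i) (k : ℕ) :
    ∑ i ∈ s, x i ^ (k + 1) ≤ (∑ i ∈ s, x i) ^ (k + 1) := by
  have h0 : 0 ≤ ∑ i ∈ s, x i := Finset.sum_nonneg hx
  calc ∑ i ∈ s, x i ^ (k + 1) ≤ ∑ i ∈ s, (∑ j ∈ s, x j) ^ k * x i := by
        apply Finset.sum_le_sum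
        intro i hi
        rw [pow_succ]
        apply mul_le_mul_of_nonneg_right _ (hx i hi)
        exact pow_le_pow_left₀ (hx i hi) (Finset.single_le_sum hx hi) k
    _ = _ := by rw [← Finset.mul_sum, pow_succ]

theorem main_b (m : ℕ) : ∃ c : ℝ, 0 < c ∧ ∀ b : ℤ → ℂ, Rapid b →
    (∀ n, b (-n) = (starRingEnd ℂ) (b n)) →
    Summable (fun n : ℕ => ((n + 2 : ℕ) : ℝ) ^ (2 * (m + 2) + 1) *
      ‖b ((n + 2 : ℕ) : ℤ)‖ ^ (2 * (m + 2))) ∧
    c * ∑' n : ℕ, ((n + 2 : ℕ) : ℝ) ^ (2 * (m + 2) + 1) * ‖b ((n + 2 : ℕ) : ℤ)‖ ^ (2 * (m + 2))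
      ≤ (ZK (2 * m + 3 + 1) b).re := by
  obtain ⟨C, hC0, hC⟩ := local_est
  set D : ℝ := √((4 / C) ^ (m + 2) / 5 ^ m) with hD
  have hD0 : 0 < D := by
    rw [hD]
    apply Real.sqrt_pos.mpr
    positivity
  have hD2 : D ^ 2 = (4 / C) ^ (m + 2) / 5 ^ m := Real.sq_sqrt (by positivity)
  refine ⟨D / (4 ^ (2 * m + 5) * (3 * 2 ^ (m + 2))), by positivity, ?_⟩
  intro b hb hc
  set G : ℕ → ℝ := fun n => (n : ℝ) ^ (2 * (m + 2) + 1) * ‖b (n : ℤ)‖ ^ (2 * (m + 2)) with hG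
  have hG0 : ∀ n, 0 ≤ G n := fun n => by simp only [hG]; positivity
  set t : ℕ → ℝ := fun i => √((4 * ∑ x ∈ Finset.Ico ((2 : ℤ) ^ i) (6 * 2 ^ i),
      ∑ p ∈ Finset.Ico ((2 : ℤ) ^ i) (6 * 2 ^ i), (x * p * Complex.normSq (KK b (x + p) p)))
        ^ (m + 2) / (5 * 2 ^ i) ^ m) with ht
  have hblock : ∀ i, ∑ n ∈ Finset.Ico (2 ^ (i + 1) : ℕ) (2 ^ (i + 2)), G n
      ≤ 4 ^ (2 * m + 5) / D * t i := by
    intro i
    set M : ℝ := 2 ^ i with hM
    have hM0 : 0 < M := by positivity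
    have hMz : ((2 ^ i : ℤ) : ℝ) = M := by push_cast; rfl
    set X := ∑ n ∈ Finset.Ico (2 * (2 : ℤ) ^ i) (4 * 2 ^ i), Complex.normSq (b n) with hX
    have hX0 : 0 ≤ X := Finset.sum_nonneg fun _ _ => Complex.normSq_nonneg _
    set Y := ∑ x ∈ Finset.Ico ((2 : ℤ) ^ i) (6 * 2 ^ i),
      ∑ p ∈ Finset.Ico ((2 : ℤ) ^ i) (6 * 2 ^ i), ((x : ℝ) * p * Complex.normSq (KK b (x + p) p))
      with hY
    have hXn : X = ∑ n ∈ Finset.Ico (2 ^ (i + 1) : ℕ) (2 ^ (i + 2)), Complex.normSq (b (n : ℤ)) := by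
      rw [hX]
      have e : Finset.Ico (2 * (2 : ℤ) ^ i) (4 * 2 ^ i)
          = (Finset.Ico (2 ^ (i + 1) : ℕ) (2 ^ (i + 2))).image (Nat.cast : ℕ → ℤ) := by
        ext x
        rw [Finset.mem_Ico, Finset.mem_image]
        constructor
        · rintro ⟨h1, h2⟩
          have h0 : (0 : ℤ) < 2 ^ i := by positivity
          refine ⟨x.toNat, ?_, Int.toNat_of_nonneg (by linarith)⟩
          rw [Finset.mem_Ico]
          zify
          rw [Int.toNat_of_nonneg (by linarith)]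
          constructor
          · rw [pow_succ]; linarith
          · rw [pow_add]; linarith
        · rintro ⟨n, hn, rfl⟩
          rw [Finset.mem_Ico] at hn
          zify at hn
          rw [pow_succ, pow_add] at hn
          constructor <;> linarith [hn.1, hn.2]
      rw [e, Finset.sum_image (by intro a _ c _ h; exact_mod_cast h)]
    have hloc := hC b hb (2 ^ i) (one_le_pow₀ (by norm_num))
    rw [hMz, ← hX] at hloc
    have hYle : M ^ 2 * ∑ x ∈ Finset.Ico ((2 : ℤ) ^ i) (6 * 2 ^ i),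
        ∑ p ∈ Finset.Ico ((2 : ℤ) ^ i) (6 * 2 ^ i), Complex.normSq (KK b (x + p) p) ≤ Y := by
      rw [hY, Finset.mul_sum]
      apply Finset.sum_le_sum
      intro x hx
      rw [Finset.mul_sum]
      apply Finset.sum_le_sum
      intro p hp
      rw [Finset.mem_Ico] at hx hp
      apply mul_le_mul_of_nonneg_right _ (Complex.normSq_nonneg _)
      have h1 : M ≤ x := by rw [← hMz]; exact_mod_cast hx.1
      have h2 : M ≤ p := by rw [← hMz]; exact_mod_cast hp.1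
      rw [pow_two]
      exact mul_le_mul h1 h2 hM0.le (hM0.le.trans h1)
    have hY5 : M ^ 5 * X ^ 2 ≤ C * Y := by
      calc M ^ 5 * X ^ 2 = M ^ 2 * (M ^ 3 * X ^ 2) := by ring
        _ ≤ M ^ 2 * (C * ∑ x ∈ Finset.Ico ((2 : ℤ) ^ i) (6 * 2 ^ i),
            ∑ p ∈ Finset.Ico ((2 : ℤ) ^ i) (6 * 2 ^ i), Complex.normSq (KK b (x + p) p)) :=
            mul_le_mul_of_nonneg_left hloc (by positivity)
        _ = C * (M ^ 2 * ∑ x ∈ Finset.Ico ((2 : ℤ) ^ i) (6 * 2 ^ i),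
            ∑ p ∈ Finset.Ico ((2 : ℤ) ^ i) (6 * 2 ^ i), Complex.normSq (KK b (x + p) p)) := by
            ring
        _ ≤ C * Y := mul_le_mul_of_nonneg_left hYle hC0.le
    have ht1 : D * M ^ (2 * m + 5) * X ^ (m + 2) ≤ t i := by
      simp only [ht]
      apply Real.le_sqrt_of_sq_le
      rw [← hY, ← hM]
      have h6 : (4 / C) * (M ^ 5 * X ^ 2) ≤ 4 * Y := by
        rw [div_mul_eq_mul_div, div_le_iff₀ hC0]
        linarith
      have h7 : ((4 / C) * (M ^ 5 * X ^ 2)) ^ (m + 2) ≤ (4 * Y) ^ (m + 2) :=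
        pow_le_pow_left₀ (by positivity) h6 _
      rw [le_div_iff₀ (by positivity)]
      refine le_trans (le_of_eq ?_) h7
      rw [mul_pow, mul_pow, hD2]
      field_simp
      ring
    have hsum : ∑ n ∈ Finset.Ico (2 ^ (i + 1) : ℕ) (2 ^ (i + 2)), G n
        ≤ 4 ^ (2 * m + 5) * (M ^ (2 * m + 5) * X ^ (m + 2)) := by
      rw [hXn]
      calc ∑ n ∈ Finset.Ico (2 ^ (i + 1) : ℕ) (2 ^ (i + 2)), G n
          ≤ ∑ n ∈ Finset.Ico (2 ^ (i + 1) : ℕ) (2 ^ (i + 2)),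
            (4 * M) ^ (2 * m + 5) * Complex.normSq (b (n : ℤ)) ^ (m + 2) := by
            apply Finset.sum_le_sum
            intro n hn
            rw [Finset.mem_Ico] at hn
            simp only [hG]
            have e1 : ‖b (n : ℤ)‖ ^ (2 * (m + 2)) = Complex.normSq (b (n : ℤ)) ^ (m + 2) := by
              rw [Complex.normSq_eq_norm_sq, ← pow_mul]
            rw [e1, show 2 * (m + 2) + 1 = 2 * m + 5 by ring]
            apply mul_le_mul_of_nonneg_right _ (pow_nonneg (Complex.normSq_nonneg _) _)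
            apply pow_le_pow_left₀ (Nat.cast_nonneg _)
            have : (n : ℝ) ≤ 2 ^ (i + 2) := by exact_mod_cast hn.2.le
            refine this.trans (le_of_eq ?_)
            rw [hM, pow_add]
            ring
        _ = (4 * M) ^ (2 * m + 5) * ∑ n ∈ Finset.Ico (2 ^ (i + 1) : ℕ) (2 ^ (i + 2)),
            Complex.normSq (b (n : ℤ)) ^ (m + 2) := by rw [Finset.mul_sum]
        _ ≤ (4 * M) ^ (2 * m + 5) * (∑ n ∈ Finset.Ico (2 ^ (i + 1) : ℕ) (2 ^ (i + 2)),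
            Complex.normSq (b (n : ℤ))) ^ (m + 2) := by
            apply mul_le_mul_of_nonneg_left _ (by positivity)
            exact sum_pow_le _ _ (fun _ _ => Complex.normSq_nonneg _) (m + 1)
        _ = _ := by ring
    calc ∑ n ∈ Finset.Ico (2 ^ (i + 1) : ℕ) (2 ^ (i + 2)), G n
        ≤ 4 ^ (2 * m + 5) * (M ^ (2 * m + 5) * X ^ (m + 2)) := hsum
      _ = 4 ^ (2 * m + 5) / D * (D * M ^ (2 * m + 5) * X ^ (m + 2)) := by
          field_simp
      _ ≤ _ := mul_le_mul_of_nonneg_left ht1 (by positivity)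
  have hdy : ∀ I, ∑ n ∈ Finset.Ico 2 (2 ^ (I + 1)), G n
      = ∑ i ∈ Finset.range I, ∑ n ∈ Finset.Ico (2 ^ (i + 1) : ℕ) (2 ^ (i + 2)), G n := by
    intro I
    induction I with
    | zero => simp
    | succ I ih =>
      rw [Finset.sum_range_succ, ← ih]
      rw [Finset.sum_Ico_consecutive]
      · calc 2 = 2 ^ 1 := by norm_num
          _ ≤ 2 ^ (I + 1) := Nat.pow_le_pow_right (by norm_num) (by omega)
      · exact Nat.pow_le_pow_right (by norm_num) (by omega)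
  have hpart : ∀ I, ∑ n ∈ Finset.Ico 2 (2 ^ (I + 1)), G n
      ≤ (4 ^ (2 * m + 5) * (3 * 2 ^ (m + 2))) / D * (ZK (2 * m + 3 + 1) b).re := by
    intro I
    rw [hdy]
    calc _ ≤ ∑ i ∈ Finset.range I, 4 ^ (2 * m + 5) / D * t i :=
          Finset.sum_le_sum fun i _ => hblock i
      _ = 4 ^ (2 * m + 5) / D * ∑ i ∈ Finset.range I, t i := by rw [Finset.mul_sum]
      _ ≤ 4 ^ (2 * m + 5) / D * (3 * 2 ^ (m + 2) * (ZK (2 * m + 3 + 1) b).re) :=
          mul_le_mul_of_nonneg_left (limit_ineq hb hc m I) (by positivity)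
      _ = _ := by ring
  have hrange : ∀ N, ∑ n ∈ Finset.range N, G (n + 2)
      ≤ (4 ^ (2 * m + 5) * (3 * 2 ^ (m + 2))) / D * (ZK (2 * m + 3 + 1) b).re := by
    intro N
    refine le_trans ?_ (hpart N)
    rw [Finset.range_eq_Ico, Finset.sum_Ico_add' G 0 N 2, zero_add]
    apply Finset.sum_le_sum_of_subset_of_nonneg
    · apply Finset.Ico_subset_Ico_right
      have := Nat.lt_two_pow_self (n := N + 1)
      omega
    · intro i _ _
      exact hG0 i
  have hsumm : Summable (fun n : ℕ => G (n + 2)) :=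
    summable_of_sum_range_le (fun n => hG0 _) hrange
  have htsum : ∑' n : ℕ, G (n + 2)
      ≤ (4 ^ (2 * m + 5) * (3 * 2 ^ (m + 2))) / D * (ZK (2 * m + 3 + 1) b).re :=
    Real.tsum_le_of_sum_range_le (fun n => hG0 _) hrange
  refine ⟨hsumm, ?_⟩
  have hP : (0 : ℝ) < 4 ^ (2 * m + 5) * (3 * 2 ^ (m + 2)) := by positivity
  calc D / (4 ^ (2 * m + 5) * (3 * 2 ^ (m + 2))) * ∑' n : ℕ, G (n + 2)
      ≤ D / (4 ^ (2 * m + 5) * (3 * 2 ^ (m + 2))) *
        ((4 ^ (2 * m + 5) * (3 * 2 ^ (m + 2))) / D * (ZK (2 * m + 3 + 1) b).re) :=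
        mul_le_mul_of_nonneg_left htsum (by positivity)
    _ = (ZK (2 * m + 3 + 1) b).re := by
        field_simp

end Pool.Agent.Zk89.Steklov
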