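import Mathlib

/-!
# Trace of a power of a matrix as a sum over closed paths
-/

set_option autoImplicit false

open Matrix

namespace Pool.Agent.Zk89.Steklov

variable {ι : Type*} [Fintype ι] [DecidableEq ι]

theorem pow_apply_paths (A : Matrix ι ι ℂ) (n : ℕ) : ∀ x y : ι,
    (A ^ (n + 1)) x y = ∑ p : Fin n → ι, ∏ i : Fin (n + 1),
      A ((Fin.cons x p : Fin (n + 1) → ι) i) ((Fin.snoc p y : Fin (n + 1) → ι) i) := by
  induction n with
  | zero =>
    intro x y
    simp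
    rfl
  | succ n ih =>
    intro x y
    rw [pow_succ', mul_apply]
    have e1 : ∀ z, A x z * (A ^ (n + 1)) z y = ∑ p : Fin n → ι, A x z * ∏ i : Fin (n + 1),
      A ((Fin.cons z p : Fin (n + 1) → ι) i) ((Fin.snoc p y : Fin (n + 1) → ι) i) := by
      intro z
      rw [ih, Finset.mul_sum]
    rw [Finset.sum_congr rfl fun z _ => e1 z]
    rw [← Fintype.sum_prod_type' (f := fun z (p : Fin n → ι) => A x z * ∏ i : Fin (n + 1),
      A ((Fin.cons z p : Fin (n + 1) → ι) i) ((Fin.snoc p y : Fin (n + 1) → ι) i))]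
    apply Fintype.sum_equiv (Fin.consEquiv (fun _ : Fin (n + 1) => ι))
    intro ⟨z, p⟩
    rw [Fin.prod_univ_succ (n := n + 1)]
    have c1 : (Fin.consEquiv (fun _ : Fin (n + 1) => ι)) (z, p) = Fin.cons z p := rfl
    rw [c1]
    rw [← Fin.cons_snoc_eq_snoc_cons]
    simp only [Fin.cons_zero, Fin.cons_succ]

theorem snoc_tail (n : ℕ) (q : Fin (n + 1) → ι) (i : Fin (n + 1)) :
    (Fin.snoc (Fin.tail q) (q 0) : Fin (n + 1) → ι) i = q (i + 1) := by
  induction i using Fin.lastCases with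
  | last => rw [Fin.snoc_last, Fin.last_add_one]
  | cast j =>
    rw [Fin.snoc_castSucc]
    show q j.succ = _
    rw [Fin.coeSucc_eq_succ]

theorem trace_pow_paths (A : Matrix ι ι ℂ) (n : ℕ) :
    trace (A ^ (n + 1)) = ∑ q : Fin (n + 1) → ι, ∏ i, A (q i) (q (i + 1)) := by
  rw [trace]
  have e1 : ∀ x, (A ^ (n + 1)).diag x = ∑ p : Fin n → ι, ∏ i : Fin (n + 1),
      A ((Fin.cons x p : Fin (n + 1) → ι) i) ((Fin.snoc p x : Fin (n + 1) → ι) i) := by
    intro x
    rw [diag_apply, pow_apply_paths]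
  rw [Finset.sum_congr rfl fun z _ => e1 z]
  rw [← Fintype.sum_prod_type' (f := fun x (p : Fin n → ι) => ∏ i : Fin (n + 1),
      A ((Fin.cons x p : Fin (n + 1) → ι) i) ((Fin.snoc p x : Fin (n + 1) → ι) i))]
  apply Fintype.sum_equiv (Fin.consEquiv (fun _ : Fin (n + 1) => ι))
  intro ⟨z, p⟩
  have c1 : (Fin.consEquiv (fun _ : Fin (n + 1) => ι)) (z, p) = Fin.cons z p := rfl
  rw [c1]
  apply Finset.prod_congr rfl
  intro i _
  rw [← snoc_tail n (Fin.cons z p : Fin (n + 1) → ι) i]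
  rw [Fin.tail_cons, Fin.cons_zero]

end Pool.Agent.Zk89.Steklov
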