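import Pool.Agent.Zk89.TraceBlocks
import Pool.Agent.Zk89.TraceExp
import Pool.Agent.Zk89.PathSum

/-!
# The matrices of the problem
-/

set_option autoImplicit false

open Matrix

namespace Pool.Agent.Zk89.Steklov

/-- indices `-L, …, L` -/
abbrev Ix (L : ℕ) : Type := ↥(Finset.Icc (-(L : ℤ)) L)

/-- the Hermitian matrix `√|x| √|y| b(y - x)` -/
noncomputable def AA (b : ℤ → ℂ) (L : ℕ) : Matrix (Ix L) (Ix L) ℂ :=
  Matrix.of fun x y => ((√|((x : ℤ) : ℝ)| * √|((y : ℤ) : ℝ)| : ℝ) : ℂ) * b ((y : ℤ) - (x : ℤ))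

/-- the sign -/
def sg (x : ℤ) : ℂ := if x < 0 then -1 else 1

theorem sg_mul_self (x : ℤ) : sg x * sg x = 1 := by
  unfold sg; split_ifs <;> simp

theorem sg_mul_abs (x : ℤ) : sg x * ((|x| : ℤ) : ℂ) = x := by
  unfold sg
  split_ifs with h
  · rw [abs_of_neg h]; push_cast; ring
  · rw [abs_of_nonneg (by omega)]; ring

theorem sg_star (x : ℤ) : star (sg x) = sg x := by
  unfold sg; split_ifs <;> simp

/-- the diagonal sign matrix -/
def SS (L : ℕ) : Matrix (Ix L) (Ix L) ℂ := diagonal (fun x => sg (x : ℤ))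

theorem SS_conj (L : ℕ) : (SS L)ᴴ = SS L := by
  unfold SS
  rw [diagonal_conjTranspose]
  congr 1
  funext x
  exact sg_star _

theorem SS_sq (L : ℕ) : SS L * SS L = 1 := by
  unfold SS
  rw [diagonal_mul_diagonal]
  simp only [sg_mul_self]
  exact diagonal_one

theorem AA_conj {b : ℤ → ℂ} (hc : ∀ n, b (-n) = (starRingEnd ℂ) (b n)) (L : ℕ) :
    (AA b L)ᴴ = AA b L := by
  ext x y
  rw [conjTranspose_apply]
  simp only [AA, of_apply, star_mul', RCLike.star_def, Complex.conj_ofReal]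
  rw [← hc, neg_sub, mul_comm (√|((y : ℤ) : ℝ)|)]

theorem cast_abs' (z : ℤ) : ((|z| : ℤ) : ℂ) = ((|(z : ℝ)| : ℝ) : ℂ) := by
  rw [← Int.cast_abs, Complex.ofReal_intCast]

theorem trace_AA (b : ℤ → ℂ) (L n : ℕ) :
    trace ((AA b L) ^ (n + 1)) = ∑ q : Fin (n + 1) → Ix L,
      ((∏ i, |(q i : ℤ)| : ℤ) : ℂ) * ∏ i, b ((q (i + 1) : ℤ) - (q i : ℤ)) := by
  rw [trace_pow_paths]
  apply Finset.sum_congr rfl
  intro q _
  simp only [AA, of_apply]
  rw [Finset.prod_mul_distrib]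
  congr 1
  rw [← Complex.ofReal_prod, Finset.prod_mul_distrib]
  have e1 : ∏ i, √|(((q (i + 1) : Ix L) : ℤ) : ℝ)| = ∏ i, √|(((q i : Ix L) : ℤ) : ℝ)| :=
    Equiv.prod_comp (Equiv.addRight (1 : Fin (n + 1))) (fun i => √|(((q i : Ix L) : ℤ) : ℝ)|)
  rw [e1, ← Finset.prod_mul_distrib]
  simp only [Real.mul_self_sqrt (abs_nonneg _)]
  rw [Complex.ofReal_prod, Int.cast_prod]
  exact Finset.prod_congr rfl fun i _ => (cast_abs' _).symm

theorem trace_SA (b : ℤ → ℂ) (L n : ℕ) :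
    trace ((SS L * AA b L) ^ (n + 1)) = ∑ q : Fin (n + 1) → Ix L,
      ((∏ i, (q i : ℤ) : ℤ) : ℂ) * ∏ i, b ((q (i + 1) : ℤ) - (q i : ℤ)) := by
  rw [trace_pow_paths]
  apply Finset.sum_congr rfl
  intro q _
  have e0 : ∀ i, (SS L * AA b L) (q i) (q (i + 1)) = sg (q i : ℤ) * (AA b L) (q i) (q (i + 1)) := by
    intro i
    unfold SS
    rw [diagonal_mul]
  simp only [e0]
  rw [Finset.prod_mul_distrib]
  simp only [AA, of_apply]
  rw [Finset.prod_mul_distrib, ← mul_assoc]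
  congr 1
  rw [← Complex.ofReal_prod, Finset.prod_mul_distrib]
  have e1 : ∏ i, √|(((q (i + 1) : Ix L) : ℤ) : ℝ)| = ∏ i, √|(((q i : Ix L) : ℤ) : ℝ)| :=
    Equiv.prod_comp (Equiv.addRight (1 : Fin (n + 1))) (fun i => √|(((q i : Ix L) : ℤ) : ℝ)|)
  rw [e1, ← Finset.prod_mul_distrib]
  simp only [Real.mul_self_sqrt (abs_nonneg _)]
  rw [Complex.ofReal_prod, ← Finset.prod_mul_distrib, Int.cast_prod]
  apply Finset.prod_congr rfl
  intro i _
  rw [← cast_abs']
  exact sg_mul_abs (q i : ℤ)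

theorem trace_diff (b : ℤ → ℂ) (L n : ℕ) :
    trace ((AA b L) ^ (n + 1)) - trace ((SS L * AA b L) ^ (n + 1))
      = ∑ q ∈ Fintype.piFinset (fun _ : Fin (n + 1) => Finset.Icc (-(L : ℤ)) L), FF n b q := by
  rw [trace_AA, trace_SA, ← Finset.sum_sub_distrib]
  apply Finset.sum_bij (fun (q : Fin (n + 1) → Ix L) _ => fun i => (q i : ℤ))
  · intro q _
    rw [Fintype.mem_piFinset]
    intro i
    exact (q i).2
  · intro q _ q' _ h
    funext i
    exact Subtype.ext (congrFun h i)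
  · intro q hq
    rw [Fintype.mem_piFinset] at hq
    exact ⟨fun i => ⟨q i, hq i⟩, Finset.mem_univ _, rfl⟩
  · intro q _
    unfold FF
    push_cast
    ring

/-- the entries of `Δ`, as a function on `ℤ × ℤ` -/
noncomputable def dl (b : ℤ → ℂ) (L : ℕ) (x y : ℤ) : ℂ :=
  (1 - sg x * sg y) * (((√|(x : ℝ)| * √|(y : ℝ)| : ℝ) : ℂ) *
    ∑ z ∈ Finset.Icc (-(L : ℤ)) L, ((|z| : ℤ) : ℂ) * (b (z - x) * b (y - z)))

theorem Dl_apply (b : ℤ → ℂ) (L : ℕ) (x y : Ix L) :
    Dl (AA b L) (SS L) x y = dl b L (x : ℤ) (y : ℤ) := by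
  unfold Dl dl
  rw [Matrix.sub_apply]
  have e1 : (SS L * (AA b L * AA b L) * SS L) x y
      = sg (x : ℤ) * (AA b L * AA b L) x y * sg (y : ℤ) := by
    unfold SS
    rw [mul_diagonal, diagonal_mul]
  have e2 : (AA b L * AA b L) x y = ((√|((x : ℤ) : ℝ)| * √|((y : ℤ) : ℝ)| : ℝ) : ℂ) *
    ∑ z ∈ Finset.Icc (-(L : ℤ)) L, ((|z| : ℤ) : ℂ) * (b (z - x) * b (y - z)) := by
    rw [mul_apply, Finset.mul_sum]
    rw [← Finset.sum_coe_sort (Finset.Icc (-(L : ℤ)) L)]
    apply Finset.sum_congr rfl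
    intro z _
    simp only [AA, of_apply]
    have h : ((√|((z : ℤ) : ℝ)| : ℝ) : ℂ) * ((√|((z : ℤ) : ℝ)| : ℝ) : ℂ)
        = ((|(z : ℤ)| : ℤ) : ℂ) := by
      rw [← Complex.ofReal_mul, Real.mul_self_sqrt (abs_nonneg _), cast_abs']
    rw [← h]
    push_cast
    ring
  rw [e1, e2]
  ring

/-- finite truncation of `conj K` -/
noncomputable def qq (b : ℤ → ℂ) (L : ℕ) (m p : ℤ) : ℂ :=
  ∑ z ∈ Finset.Icc (-(L : ℤ)) L, ((|z| : ℤ) : ℂ) * (b (z - m) * b (-p - z))

theorem dl_normSq (b : ℤ → ℂ) (L : ℕ) (m p : ℤ) (hm : 0 < m) (hp : 0 < p) :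
    Complex.normSq (dl b L m (-p)) = 4 * (m * p * Complex.normSq (qq b L m p)) := by
  unfold dl
  have h1 : sg m = 1 := by unfold sg; rw [if_neg (by omega)]
  have h2 : sg (-p) = -1 := by unfold sg; rw [if_pos (by omega)]
  have hm' : (0 : ℝ) < m := by exact_mod_cast hm
  have hp' : (0 : ℝ) < p := by exact_mod_cast hp
  rw [h1, h2, Complex.normSq_mul, Complex.normSq_mul, Complex.normSq_ofReal]
  have e1 : √|(m : ℝ)| * √|(((-p : ℤ)) : ℝ)| * (√|(m : ℝ)| * √|((-p : ℤ) : ℝ)|) = m * p := by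
    push_cast
    rw [abs_neg, abs_of_pos hm', abs_of_pos hp']
    calc √(m : ℝ) * √(p : ℝ) * (√(m : ℝ) * √(p : ℝ))
        = (√(m : ℝ) * √(m : ℝ)) * (√(p : ℝ) * √(p : ℝ)) := by ring
      _ = _ := by rw [Real.mul_self_sqrt hm'.le, Real.mul_self_sqrt hp'.le]
  rw [e1]
  have e2 : Complex.normSq (1 - 1 * -1) = 4 := by
    norm_num [Complex.normSq_apply]
  rw [e2]
  unfold qq
  ring

theorem qq_tendsto {b : ℤ → ℂ} (hb : Rapid b) (hc : ∀ n, b (-n) = (starRingEnd ℂ) (b n))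
    (m p : ℤ) :
    Filter.Tendsto (fun L : ℕ => qq b L m p) Filter.atTop
      (nhds ((starRingEnd ℂ) (KK b (m + p) p))) := by
  have h1 : HasSum (fun z : ℤ => ((|z| : ℤ) : ℂ) * (b (z - m) * b (-p - z)))
      ((starRingEnd ℂ) (KK b (m + p) p)) := by
    have h2 := (K_summable hb (m + p) p).hasSum
    have h3 := ((Equiv.addRight p).hasSum_iff).mpr h2
    have h4 : HasSum _ ((starRingEnd ℂ) (KK b (m + p) p)) := h3.star
    convert h4 using 1
    funext z
    simp only [Function.comp_apply, Equiv.coe_addRight, RCLike.star_def]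
    rw [map_mul, map_mul, map_intCast, ← hc, ← hc]
    rw [show z + p - p = z by ring, show -(z + p) = -p - z by ring,
      show -(m + p - (z + p)) = z - m by ring]
    ring
  have ht : Filter.Tendsto (fun L : ℕ => Finset.Icc (-(L : ℤ)) L) Filter.atTop Filter.atTop := by
    apply Filter.tendsto_atTop_finset_of_monotone
    · intro L L' hL
      apply Finset.Icc_subset_Icc
      · have : (L : ℤ) ≤ L' := by exact_mod_cast hL
        linarith
      · exact_mod_cast hL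
    · intro q
      refine ⟨(|q|).toNat, ?_⟩
      rw [Finset.mem_Icc, ← abs_le, Int.toNat_of_nonneg (abs_nonneg _)]
  exact h1.comp ht

theorem blocks_card (v : ℤ) (I : ℕ) :
    ((Finset.range I).filter (fun i => v ∈ Finset.Ico ((2 : ℤ) ^ i) (6 * 2 ^ i))).card ≤ 3 := by
  by_cases hv : v ≤ 0
  · have : (Finset.range I).filter (fun i => v ∈ Finset.Ico ((2 : ℤ) ^ i) (6 * 2 ^ i)) = ∅ := by
      apply Finset.filter_eq_empty_iff.mpr
      intro i _ h
      rw [Finset.mem_Ico] at h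
      have : (0 : ℤ) < 2 ^ i := by positivity
      linarith [h.1]
    rw [this]; simp
  · push Not at hv
    obtain ⟨w, rfl⟩ : ∃ w : ℕ, v = w := ⟨v.toNat, (Int.toNat_of_nonneg hv.le).symm⟩
    have hw : w ≠ 0 := by
      rintro rfl
      simp at hv
    have hsub : (Finset.range I).filter (fun i => (w : ℤ) ∈ Finset.Ico ((2 : ℤ) ^ i) (6 * 2 ^ i))
        ⊆ Finset.Icc (Nat.log 2 w - 2) (Nat.log 2 w) := by
      intro i hi
      rw [Finset.mem_filter, Finset.mem_Ico] at hi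
      obtain ⟨_, h1, h2⟩ := hi
      have h1' : 2 ^ i ≤ w := by exact_mod_cast h1
      have h2' : w < 6 * 2 ^ i := by exact_mod_cast h2
      rw [Finset.mem_Icc]
      constructor
      · have h3 : w < 2 ^ (i + 3) := by
          rw [pow_add]
          have : 0 < 2 ^ i := by positivity
          omega
        have := Nat.log_lt_of_lt_pow hw h3
        omega
      · exact Nat.le_log_of_pow_le (by norm_num) h1'
    refine (Finset.card_le_card hsub).trans ?_
    rw [Nat.card_Icc]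
    omega

theorem finite_ineq {b : ℤ → ℂ} (hc : ∀ n, b (-n) = (starRingEnd ℂ) (b n)) (m I L : ℕ)
    (hL : 6 * 2 ^ I ≤ L) :
    ∑ i ∈ Finset.range I, √((4 * ∑ x ∈ Finset.Ico ((2 : ℤ) ^ i) (6 * 2 ^ i),
      ∑ p ∈ Finset.Ico ((2 : ℤ) ^ i) (6 * 2 ^ i), (x * p * Complex.normSq (qq b L x p)))
        ^ (m + 2) / (5 * 2 ^ i) ^ m) ≤
      3 * 2 ^ (m + 2) * (∑ q ∈ Fintype.piFinset
        (fun _ : Fin (2 * m + 3 + 1) => Finset.Icc (-(L : ℤ)) L), FF (2 * m + 3) b q).re := by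
  classical
  rw [← trace_diff, Complex.sub_re]
  have hI : ∀ i ∈ Finset.range I, (2 : ℤ) ^ i ≤ 2 ^ I := by
    intro i hi
    exact pow_le_pow_right₀ (by norm_num) (Finset.mem_range.mp hi).le
  have hLz : 6 * (2 : ℤ) ^ I ≤ L := by exact_mod_cast hL
  have hsubset : ∀ i ∈ Finset.range I,
      Finset.Ico ((2 : ℤ) ^ i) (6 * 2 ^ i) ⊆ Finset.Icc (-(L : ℤ)) L := by
    intro i hi x hx
    rw [Finset.mem_Ico] at hx
    rw [Finset.mem_Icc]
    have := hI i hi
    have h0 : (0 : ℤ) < 2 ^ i := by positivity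
    constructor <;> linarith [hx.1, hx.2]
  set B : ℕ → Finset (Ix L) := fun i =>
    Finset.univ.filter (fun x : Ix L => (x : ℤ) ∈ Finset.Ico ((2 : ℤ) ^ i) (6 * 2 ^ i)) with hB
  have hsumB : ∀ (G : ℤ → ℝ), ∀ i ∈ Finset.range I,
      ∑ x ∈ B i, G (x : ℤ) = ∑ x ∈ Finset.Ico ((2 : ℤ) ^ i) (6 * 2 ^ i), G x := by
    intro G i hi
    rw [hB]
    simp only
    rw [Finset.sum_filter]
    rw [Finset.sum_coe_sort (Finset.Icc (-(L : ℤ)) L)
      (fun x : ℤ => if x ∈ Finset.Ico ((2 : ℤ) ^ i) (6 * 2 ^ i) then G x else 0)]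
    rw [← Finset.sum_filter, Finset.filter_mem_eq_inter, Finset.inter_eq_right.mpr (hsubset i hi)]
  have hcard : ∀ i ∈ Finset.range I, ((B i).card : ℝ) = 5 * 2 ^ i := by
    intro i hi
    have := hsumB (fun _ => 1) i hi
    rw [Finset.sum_const, Finset.sum_const, Int.card_Ico] at this
    simp only [nsmul_eq_mul, mul_one] at this
    rw [this]
    have h2 : ((6 * 2 ^ i - 2 ^ i : ℤ).toNat : ℤ) = 5 * 2 ^ i := by
      have h0 : (0 : ℤ) < 2 ^ i := by positivity
      rw [Int.toNat_of_nonneg (by linarith)]; ring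
    exact_mod_cast h2
  have key := blocks (AA_conj hc L) (SS_conj L) (SS_sq L) m (Finset.range I) B ?_ ?_
    (fun i => √((4 * ∑ x ∈ Finset.Ico ((2 : ℤ) ^ i) (6 * 2 ^ i),
      ∑ p ∈ Finset.Ico ((2 : ℤ) ^ i) (6 * 2 ^ i), (x * p * Complex.normSq (qq b L x p)))
        ^ (m + 2) / (5 * 2 ^ i) ^ m)) ?_
  · exact key
  · intro i hi
    rw [← Finset.card_pos]
    have h1 := hcard i hi
    have : (0 : ℝ) < ((B i).card : ℝ) := by rw [h1]; positivity
    exact_mod_cast this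
  · intro v
    have := blocks_card (v : ℤ) I
    refine le_trans (le_of_eq ?_) this
    congr 1
    apply Finset.filter_congr
    intro i _
    simp [hB]
  · intro i hi
    have h0 : (0 : ℤ) < 2 ^ i := by positivity
    set X := ∑ x ∈ Finset.Ico ((2 : ℤ) ^ i) (6 * 2 ^ i),
      ∑ p ∈ Finset.Ico ((2 : ℤ) ^ i) (6 * 2 ^ i), ((x : ℝ) * p * Complex.normSq (qq b L x p)) with hX
    have hX0 : 0 ≤ X := by
      apply Finset.sum_nonneg
      intro x hx
      apply Finset.sum_nonneg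
      intro p hp
      rw [Finset.mem_Ico] at hx hp
      have h1 : (0 : ℝ) ≤ x := by exact_mod_cast (by linarith [hx.1] : (0 : ℤ) ≤ x)
      have h2 : (0 : ℝ) ≤ p := by exact_mod_cast (by linarith [hp.1] : (0 : ℤ) ≤ p)
      have := Complex.normSq_nonneg (qq b L x p)
      positivity
    have hY : 4 * X ≤ ∑ v ∈ B i, ∑ w, Complex.normSq (Dl (AA b L) (SS L) v w) := by
      have e1 : ∀ v : Ix L, ∑ w, Complex.normSq (Dl (AA b L) (SS L) v w)
          = ∑ w ∈ Finset.Icc (-(L : ℤ)) L, Complex.normSq (dl b L (v : ℤ) w) := by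
        intro v
        rw [← Finset.sum_coe_sort (Finset.Icc (-(L : ℤ)) L)]
        apply Finset.sum_congr rfl
        intro w _
        rw [Dl_apply]
      rw [Finset.sum_congr rfl fun v _ => e1 v,
        hsumB (fun v => ∑ w ∈ Finset.Icc (-(L : ℤ)) L, Complex.normSq (dl b L v w)) i hi]
      rw [hX, Finset.mul_sum]
      apply Finset.sum_le_sum
      intro x hx
      rw [Finset.mul_sum]
      have e2 : ∑ p ∈ Finset.Ico ((2 : ℤ) ^ i) (6 * 2 ^ i),
          4 * ((x : ℝ) * p * Complex.normSq (qq b L x p))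
          = ∑ w ∈ (Finset.Ico ((2 : ℤ) ^ i) (6 * 2 ^ i)).image (fun p : ℤ => -p),
            Complex.normSq (dl b L x w) := by
        rw [Finset.sum_image (by intro a _ c _ hac; simpa using hac)]
        apply Finset.sum_congr rfl
        intro p hp
        rw [Finset.mem_Ico] at hx hp
        rw [dl_normSq b L x p (by linarith [hx.1]) (by linarith [hp.1])]
      rw [e2]
      apply Finset.sum_le_sum_of_subset_of_nonneg
      · intro w hw
        rw [Finset.mem_image] at hw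
        obtain ⟨p, hp, rfl⟩ := hw
        have := hsubset i hi hp
        rw [Finset.mem_Icc] at this ⊢
        constructor <;> linarith [this.1, this.2]
      · intro w _ _
        exact Complex.normSq_nonneg _
    have h5 : (0 : ℝ) < (5 * 2 ^ i) ^ m := by positivity
    rw [Real.sq_sqrt (by positivity), hcard i hi, div_mul_cancel₀ _ h5.ne']
    exact pow_le_pow_left₀ (by positivity) hY _

/-- The inequality in the limit `L → ∞`. -/
theorem limit_ineq {b : ℤ → ℂ} (hb : Rapid b) (hc : ∀ n, b (-n) = (starRingEnd ℂ) (b n))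
    (m I : ℕ) :
    ∑ i ∈ Finset.range I, √((4 * ∑ x ∈ Finset.Ico ((2 : ℤ) ^ i) (6 * 2 ^ i),
      ∑ p ∈ Finset.Ico ((2 : ℤ) ^ i) (6 * 2 ^ i), (x * p * Complex.normSq (KK b (x + p) p)))
        ^ (m + 2) / (5 * 2 ^ i) ^ m) ≤
      3 * 2 ^ (m + 2) * (ZK (2 * m + 3 + 1) b).re := by
  have hev : Even (2 * m + 3 + 1) := ⟨m + 2, by ring⟩
  have h1 := (Complex.continuous_re.tendsto _).comp (FF_tendsto hev hb)
  have h2 := h1.const_mul (3 * 2 ^ (m + 2) : ℝ)
  refine le_of_tendsto_of_tendsto (f := fun L : ℕ => ∑ i ∈ Finset.range I,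
    √((4 * ∑ x ∈ Finset.Ico ((2 : ℤ) ^ i) (6 * 2 ^ i),
      ∑ p ∈ Finset.Ico ((2 : ℤ) ^ i) (6 * 2 ^ i), (x * p * Complex.normSq (qq b L x p)))
        ^ (m + 2) / (5 * 2 ^ i) ^ m)) ?_ h2 ?_
  · apply tendsto_finsetSum
    intro i _
    apply (Real.continuous_sqrt.tendsto _).comp
    apply Filter.Tendsto.div_const
    apply Filter.Tendsto.pow
    apply Filter.Tendsto.const_mul
    apply tendsto_finsetSum
    intro x _
    apply tendsto_finsetSum
    intro p _
    apply Filter.Tendsto.const_mul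
    have h3 := (Complex.continuous_normSq.tendsto _).comp (qq_tendsto hb hc x p)
    rw [Complex.normSq_conj] at h3
    exact h3
  · filter_upwards [Filter.eventually_ge_atTop (6 * 2 ^ I)] with L hL
    exact finite_ineq hc m I L hL

end Pool.Agent.Zk89.Steklov
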