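import Pool.Agent.Zk89.TorusGauss

/-!
# Total positive curvature of an isometric immersion of `a² dα² + ρ(α)² dβ²` into `ℝ³`
-/

set_option autoImplicit false

open Real Set MeasureTheory
open scoped RealInnerProductSpace ContDiff

namespace Pool.Agent.Zk89.Torus

variable {a : ℝ} {ρ : ℝ → ℝ} {F : ℝ × ℝ → E3}

theorem norm_nor (ha : 0 < a) (hpos : ∀ x, 0 < ρ x) (h : Iso a ρ F) (p : ℝ × ℝ) :
    ‖nor a ρ F p‖ = 1 := by
  have := nor_nor ha hpos h p
  rw [real_inner_self_eq_norm_sq] at this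
  nlinarith [norm_nonneg (nor a ρ F p), sq_nonneg (‖nor a ρ F p‖ - 1)]

/-- The Jacobian of the Gauss map. -/
theorem tri_nor (ha : 0 < a) (hρ : ContDiff ℝ 3 ρ) (hpos : ∀ x, 0 < ρ x) (h : Iso a ρ F)
    (p : ℝ × ℝ) :
    tri (D A1 (nor a ρ F) p) (D B1 (nor a ρ F) p) (nor a ρ F p)
      = - deriv (deriv ρ) p.1 / a := by
  have cA : ContDiff ℝ 2 (D A1 F) := contDiff_D (n := 3) (m := 2) h.smooth A1 (by norm_num)
  have cB : ContDiff ℝ 2 (D B1 F) := contDiff_D (n := 3) (m := 2) h.smooth B1 (by norm_num)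
  have dA : Differentiable ℝ (D A1 F) := cA.differentiable (by norm_num)
  have dB : Differentiable ℝ (D B1 F) := cB.differentiable (by norm_num)
  have dn : Differentiable ℝ (nor a ρ F) :=
    (contDiff_nor ha hρ hpos h).differentiable (by norm_num)
  have comm : D A1 (D B1 F) p = D B1 (D A1 F) p :=
    D_comm (h.smooth.of_le (by norm_num)) A1 B1 p
  have k1 : ⟪D A1 (nor a ρ F) p, D A1 F p⟫ = - sL a ρ F p := by
    have := D_inner dn dA A1 p
    rw [D_const_of nor_a] at this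
    unfold sL
    linarith [real_inner_comm (D A1 (D A1 F) p) (nor a ρ F p)]
  have k2 : ⟪D B1 (nor a ρ F) p, D A1 F p⟫ = - sM a ρ F p := by
    have := D_inner dn dA B1 p
    rw [D_const_of nor_a] at this
    unfold sM
    linarith [real_inner_comm (D B1 (D A1 F) p) (nor a ρ F p)]
  have k3 : ⟪D A1 (nor a ρ F) p, D B1 F p⟫ = - sM a ρ F p := by
    have := D_inner dn dB A1 p
    rw [D_const_of nor_b, comm] at this
    unfold sM
    linarith [real_inner_comm (D B1 (D A1 F) p) (nor a ρ F p)]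
  have k4 : ⟪D B1 (nor a ρ F) p, D B1 F p⟫ = - sN a ρ F p := by
    have := D_inner dn dB B1 p
    rw [D_const_of nor_b] at this
    unfold sN
    linarith [real_inner_comm (D B1 (D B1 F) p) (nor a ρ F p)]
  have k5 : ∀ v, ⟪D v (nor a ρ F) p, nor a ρ F p⟫ = 0 := by
    intro v
    have := D_inner dn dn v p
    rw [D_const_of (nor_nor ha hpos h), real_inner_comm] at this
    linarith
  have k6 := tri_mul_tri (D A1 (nor a ρ F) p) (D B1 (nor a ρ F) p) (nor a ρ F p)
    (D A1 F p) (D B1 F p) (nor a ρ F p)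
  have k7 : tri (D A1 F p) (D B1 F p) (nor a ρ F p) = a * ρ p.1 := by
    rw [tri_cr, cr_eq ha hpos, real_inner_smul_left, nor_nor ha hpos h, mul_one]
  rw [k7, k1, k2, k3, k4, k5, k5, nor_a, nor_b, nor_nor ha hpos h] at k6
  have g := gauss ha hρ hpos h p
  have ha' := ha.ne'
  have hp' := (hpos p.1).ne'
  rw [eq_div_iff ha']
  apply mul_right_cancel₀ hp'
  linear_combination k6 + g

/-! ### Second derivative test -/

theorem deriv_deriv_nonpos_of_isMax {φ : ℝ → ℝ} (h : ∀ t, φ t ≤ φ 0) (hc : Differentiable ℝ φ) :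
    deriv (deriv φ) 0 ≤ 0 := by
  by_contra hlt
  push Not at hlt
  have hmax : IsLocalMax φ 0 := Filter.Eventually.of_forall h
  have hd : deriv φ 0 = 0 := hmax.deriv_eq_zero
  have hmin := isLocalMin_of_deriv_deriv_pos hlt hd (hc 0).continuousAt
  have hev : φ =ᶠ[nhds 0] fun _ => φ 0 := by
    filter_upwards [hmin] with t ht
    exact le_antisymm (h t) ht
  have h1 : deriv φ =ᶠ[nhds 0] fun _ => 0 := by
    have := hev.deriv
    simpa using this
  have h2 := h1.deriv_eq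
  rw [h2] at hlt
  simp at hlt

theorem hasDerivAt_line {G : Type} [NormedAddCommGroup G] [NormedSpace ℝ G]
    {f : ℝ × ℝ → G} (hf : Differentiable ℝ f) (p v : ℝ × ℝ) (t : ℝ) :
    HasDerivAt (fun s : ℝ => f (p + s • v)) (D v f (p + t • v)) t := by
  have h1 : HasDerivAt (fun s : ℝ => p + s • v) v t := by
    have h0 : HasDerivAt (fun s : ℝ => s • v) ((1 : ℝ) • v) t :=
      HasDerivAt.smul_const (hasDerivAt_id t) v
    simpa using h0.const_add p
  exact (hf (p + t • v)).hasFDerivAt.comp_hasDerivAt t h1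

/-- At a maximum of the height function. -/
theorem hess_nonpos (hF : ContDiff ℝ 3 F) (p : ℝ × ℝ) (ν : E3)
    (hmax : ∀ q, ⟪F q, ν⟫ ≤ ⟪F p, ν⟫) (v : ℝ × ℝ) : ⟪D v (D v F) p, ν⟫ ≤ 0 := by
  have dF : Differentiable ℝ F := hF.differentiable (by norm_num)
  have dv : Differentiable ℝ (D v F) :=
    (contDiff_D (n := 3) (m := 2) hF v (by norm_num)).differentiable (by norm_num)
  let φ : ℝ → ℝ := fun t => ⟪F (p + t • v), ν⟫
  have h1 : ∀ t, HasDerivAt φ ⟪D v F (p + t • v), ν⟫ t := by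
    intro t
    have := (hasDerivAt_line dF p v t).inner ℝ (hasDerivAt_const t ν)
    simpa using this
  have h2 : deriv φ = fun t => ⟪D v F (p + t • v), ν⟫ := funext fun t => (h1 t).deriv
  have h3 : ∀ t : ℝ, HasDerivAt (fun t : ℝ => ⟪D v F (p + t • v), ν⟫)
      ⟪D v (D v F) (p + t • v), ν⟫ t := by
    intro t
    have := (hasDerivAt_line dv p v t).inner ℝ (hasDerivAt_const t ν)
    simpa using this
  have h4 : deriv (deriv φ) 0 ≤ 0 := by
    apply deriv_deriv_nonpos_of_isMax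
    · intro t
      show ⟪F (p + t • v), ν⟫ ≤ ⟪F (p + (0 : ℝ) • v), ν⟫
      rw [zero_smul, add_zero]
      exact hmax _
    · exact fun t => (h1 t).differentiableAt
  rw [h2, (h3 0).deriv, zero_smul, add_zero] at h4
  exact h4

theorem grad_zero (hF : ContDiff ℝ 3 F) (p : ℝ × ℝ) (ν : E3)
    (hmax : ∀ q, ⟪F q, ν⟫ ≤ ⟪F p, ν⟫) (v : ℝ × ℝ) : ⟪ν, D v F p⟫ = 0 := by
  have dF : Differentiable ℝ F := hF.differentiable (by norm_num)
  let φ : ℝ → ℝ := fun t => ⟪F (p + t • v), ν⟫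
  have h1 : ∀ t, HasDerivAt φ ⟪D v F (p + t • v), ν⟫ t := by
    intro t
    have := (hasDerivAt_line dF p v t).inner ℝ (hasDerivAt_const t ν)
    simpa using this
  have h2 : IsLocalMax φ 0 := by
    apply Filter.Eventually.of_forall
    intro t
    show ⟪F (p + t • v), ν⟫ ≤ ⟪F (p + (0 : ℝ) • v), ν⟫
    rw [zero_smul, add_zero]
    exact hmax _
  have h3 := h2.hasDerivAt_eq_zero (h1 0)
  rw [zero_smul, add_zero] at h3
  rw [real_inner_comm]
  exact h3

theorem D_add (u v : ℝ × ℝ) {G : Type} [NormedAddCommGroup G] [NormedSpace ℝ G]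
    (f : ℝ × ℝ → G) (p : ℝ × ℝ) (s t : ℝ) :
    D (s • u + t • v) f p = s • D u f p + t • D v f p := by
  unfold D
  simp

theorem D_D_comb (hF : ContDiff ℝ 3 F) (p : ℝ × ℝ) (s t : ℝ) :
    D (s • A1 + t • B1) (D (s • A1 + t • B1) F) p =
      (s ^ 2) • D A1 (D A1 F) p + (2 * s * t) • D B1 (D A1 F) p + (t ^ 2) • D B1 (D B1 F) p := by
  have cA : ContDiff ℝ 2 (D A1 F) := contDiff_D (n := 3) (m := 2) hF A1 (by norm_num)
  have cB : ContDiff ℝ 2 (D B1 F) := contDiff_D (n := 3) (m := 2) hF B1 (by norm_num)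
  have dA : Differentiable ℝ (D A1 F) := cA.differentiable (by norm_num)
  have dB : Differentiable ℝ (D B1 F) := cB.differentiable (by norm_num)
  have comm : D A1 (D B1 F) p = D B1 (D A1 F) p :=
    D_comm (hF.of_le (by norm_num)) A1 B1 p
  have e : D (s • A1 + t • B1) F = fun q => s • D A1 F q + t • D B1 F q := by
    funext q
    exact D_add A1 B1 F q s t
  rw [D_add, e]
  have e1 : ∀ w, D w (fun q => s • D A1 F q + t • D B1 F q) p
      = s • D w (D A1 F) p + t • D w (D B1 F) p := by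
    intro w
    have := (((dA p).hasFDerivAt.const_smul s).add ((dB p).hasFDerivAt.const_smul t)).fderiv
    show fderiv ℝ (s • D A1 F + t • D B1 F) p w = _
    rw [this]
    rfl
  rw [e1, e1, comm]
  module

/-- `LN - M² ≥ 0` at a support point -/
theorem det_nonneg_of_max (hF : ContDiff ℝ 3 F) (p : ℝ × ℝ) (ν : E3)
    (hmax : ∀ q, ⟪F q, ν⟫ ≤ ⟪F p, ν⟫) :
    0 ≤ ⟪D A1 (D A1 F) p, ν⟫ * ⟪D B1 (D B1 F) p, ν⟫ - ⟪D B1 (D A1 F) p, ν⟫ ^ 2 := by
  set L := ⟪D A1 (D A1 F) p, ν⟫ with hL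
  set N := ⟪D B1 (D B1 F) p, ν⟫ with hN
  set M := ⟪D B1 (D A1 F) p, ν⟫ with hM
  have key : ∀ s t : ℝ, s ^ 2 * L + 2 * s * t * M + t ^ 2 * N ≤ 0 := by
    intro s t
    have := hess_nonpos hF p ν hmax (s • A1 + t • B1)
    rw [D_D_comb hF] at this
    simp only [inner_add_left, real_inner_smul_left] at this
    exact this
  have k1 := key 1 0
  have k2 := key 0 1
  have k3 := key M (-L)
  by_contra hlt
  push Not at hlt
  rcases eq_or_lt_of_le (show L ≤ 0 by linarith) with h0 | h0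
  · -- L = 0
    have hM0 : M ≠ 0 := by
      rintro hM0
      rw [h0, hM0] at hlt
      norm_num at hlt
    have k5 := key ((1 - N) / (2 * M)) 1
    rw [h0] at k5
    have e : 2 * ((1 - N) / (2 * M)) * 1 * M = 1 - N := by field_simp
    rw [e] at k5
    linarith
  · nlinarith

theorem second_nonpos (ha : 0 < a) (hρ : ContDiff ℝ 3 ρ) (hpos : ∀ x, 0 < ρ x) (h : Iso a ρ F)
    (p : ℝ × ℝ) (hp : (∀ q, ⟪F q, nor a ρ F p⟫ ≤ ⟪F p, nor a ρ F p⟫) ∨
      (∀ q, ⟪F p, nor a ρ F p⟫ ≤ ⟪F q, nor a ρ F p⟫)) : deriv (deriv ρ) p.1 ≤ 0 := by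
  have g := gauss ha hρ hpos h p
  have hp' := hpos p.1
  have key : 0 ≤ sL a ρ F p * sN a ρ F p - sM a ρ F p ^ 2 := by
    rcases hp with hp | hp
    · exact det_nonneg_of_max h.smooth p _ hp
    · have := det_nonneg_of_max h.smooth p (- nor a ρ F p) (by
        intro q
        simp only [inner_neg_right]
        linarith [hp q])
      simp only [inner_neg_right] at this
      unfold sL sN sM
      linarith
  rw [g] at key
  by_contra hlt
  push Not at hlt
  nlinarith [mul_pos hp' hlt]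

/-! ### Support points -/

theorem exists_rep {F : ℝ × ℝ → E3} (hA : ∀ x y, F (x + 2 * π, y) = F (x, y))
    (hB : ∀ x y, F (x, y + 2 * π) = F (x, y)) (q : ℝ × ℝ) :
    ∃ q' : ℝ × ℝ, q'.1 ∈ Ico 0 (2 * π) ∧ q'.2 ∈ Ico 0 (2 * π) ∧ F q = F q' := by
  obtain ⟨x, y⟩ := q
  have h1 : Function.Periodic (fun x => F (x, y)) (2 * π) := fun x => hA x y
  obtain ⟨x', hx', e1⟩ := h1.exists_mem_Ico₀ two_pi_pos x
  have h2 : Function.Periodic (fun y => F (x', y)) (2 * π) := fun y => hB x' y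
  obtain ⟨y', hy', e2⟩ := h2.exists_mem_Ico₀ two_pi_pos y
  exact ⟨(x', y'), hx', hy', e1.trans e2⟩

theorem exists_max (hF : Continuous F) (hA : ∀ x y, F (x + 2 * π, y) = F (x, y))
    (hB : ∀ x y, F (x, y + 2 * π) = F (x, y)) (ν : E3) :
    ∃ p : ℝ × ℝ, p.1 ∈ Ico 0 (2 * π) ∧ p.2 ∈ Ico 0 (2 * π) ∧ ∀ q, ⟪F q, ν⟫ ≤ ⟪F p, ν⟫ := by
  have hK : IsCompact (Icc (0 : ℝ) (2 * π) ×ˢ Icc (0 : ℝ) (2 * π)) :=
    isCompact_Icc.prod isCompact_Icc
  have hne : (Icc (0 : ℝ) (2 * π) ×ˢ Icc (0 : ℝ) (2 * π)).Nonempty :=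
    ⟨(0, 0), ⟨le_rfl, two_pi_pos.le⟩, ⟨le_rfl, two_pi_pos.le⟩⟩
  have hc : ContinuousOn (fun q => ⟪F q, ν⟫) (Icc (0 : ℝ) (2 * π) ×ˢ Icc (0 : ℝ) (2 * π)) :=
    (hF.inner continuous_const).continuousOn
  obtain ⟨p₀, -, hp₀⟩ := hK.exists_isMaxOn hne hc
  obtain ⟨p, hp1, hp2, hp3⟩ := exists_rep hA hB p₀
  refine ⟨p, hp1, hp2, fun q => ?_⟩
  obtain ⟨q', hq1, hq2, hq3⟩ := exists_rep hA hB q
  have := hp₀ (show q' ∈ Icc (0 : ℝ) (2 * π) ×ˢ Icc (0 : ℝ) (2 * π) from
    ⟨Ico_subset_Icc_self hq1, Ico_subset_Icc_self hq2⟩)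
  simp only [mem_ofPred_eq] at this
  rw [hq3, ← hp3]
  exact this

/-! ### The sets of support points -/

/-- `p` is a support point with outer normal `nor p`. -/
def Ep (a : ℝ) (ρ : ℝ → ℝ) (F : ℝ × ℝ → E3) : Set (ℝ × ℝ) :=
  {p | ∀ q, ⟪F q, nor a ρ F p⟫ ≤ ⟪F p, nor a ρ F p⟫}

/-- `p` is a support point with outer normal `-nor p`. -/
def Em (a : ℝ) (ρ : ℝ → ℝ) (F : ℝ × ℝ → E3) : Set (ℝ × ℝ) :=
  {p | ∀ q, ⟪F p, nor a ρ F p⟫ ≤ ⟪F q, nor a ρ F p⟫}

theorem isClosed_Ep (ha : 0 < a) (hρ : ContDiff ℝ 3 ρ) (hpos : ∀ x, 0 < ρ x) (h : Iso a ρ F) :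
    IsClosed (Ep a ρ F) := by
  have cn : Continuous (nor a ρ F) := (contDiff_nor ha hρ hpos h).continuous
  have cF : Continuous F := h.smooth.continuous
  have : Ep a ρ F = ⋂ q, {p | ⟪F q, nor a ρ F p⟫ ≤ ⟪F p, nor a ρ F p⟫} := by
    ext p; simp [Ep]
  rw [this]
  exact isClosed_iInter fun q => isClosed_le (continuous_const.inner cn) (cF.inner cn)

theorem isClosed_Em (ha : 0 < a) (hρ : ContDiff ℝ 3 ρ) (hpos : ∀ x, 0 < ρ x) (h : Iso a ρ F) :
    IsClosed (Em a ρ F) := by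
  have cn : Continuous (nor a ρ F) := (contDiff_nor ha hρ hpos h).continuous
  have cF : Continuous F := h.smooth.continuous
  have : Em a ρ F = ⋂ q, {p | ⟪F p, nor a ρ F p⟫ ≤ ⟪F q, nor a ρ F p⟫} := by
    ext p; simp [Em]
  rw [this]
  exact isClosed_iInter fun q => isClosed_le (cF.inner cn) (continuous_const.inner cn)

/-- every unit vector is an outer normal at a support point -/
theorem exists_support (ha : 0 < a) (hpos : ∀ x, 0 < ρ x)
    (h : Iso a ρ F) (hA : ∀ x y, F (x + 2 * π, y) = F (x, y))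
    (hB : ∀ x y, F (x, y + 2 * π) = F (x, y)) (ν : E3) (hν : ‖ν‖ = 1) :
    ∃ p : ℝ × ℝ, p.1 ∈ Ico 0 (2 * π) ∧ p.2 ∈ Ico 0 (2 * π) ∧
      ((p ∈ Ep a ρ F ∧ ν = nor a ρ F p) ∨ (p ∈ Em a ρ F ∧ ν = - nor a ρ F p)) := by
  obtain ⟨p, hp1, hp2, hp3⟩ := exists_max h.smooth.continuous hA hB ν
  refine ⟨p, hp1, hp2, ?_⟩
  rcases eq_nor_or ha hpos h p ν hν (grad_zero h.smooth p ν hp3 A1)
    (grad_zero h.smooth p ν hp3 B1) with e | e
  · left
    exact ⟨fun q => by rw [← e]; exact hp3 q, e⟩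
  · right
    refine ⟨fun q => ?_, e⟩
    have := hp3 q
    rw [e] at this
    simp only [inner_neg_right] at this
    linarith

theorem disjoint_Ep_Em (ha : 0 < a) (hpos : ∀ x, 0 < ρ x)
    (h : Iso a ρ F) (hA : ∀ x y, F (x + 2 * π, y) = F (x, y))
    (hB : ∀ x y, F (x, y + 2 * π) = F (x, y)) : Disjoint (Ep a ρ F) (Em a ρ F) := by
  rw [Set.disjoint_left]
  intro p h1 h2
  have hc : ∀ q, ⟪F q, nor a ρ F p⟫ = ⟪F p, nor a ρ F p⟫ := fun q => le_antisymm (h1 q) (h2 q)
  -- the surface lies in a plane: its normal is `± nor p` everywhere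
  have hpl : ∀ q v, ⟪nor a ρ F p, D v F q⟫ = 0 := by
    intro q v
    apply grad_zero h.smooth q (nor a ρ F p)
    intro q'
    rw [hc, hc q]
  have hn := norm_nor ha hpos h p
  have hall : ∀ q, nor a ρ F p = nor a ρ F q ∨ nor a ρ F p = - nor a ρ F q := fun q =>
    eq_nor_or ha hpos h q _ hn (hpl q A1) (hpl q B1)
  -- a unit vector tangent at `p`
  have hta : ‖(a⁻¹ • D A1 F p)‖ = 1 := by
    have e := h.haa p
    rw [real_inner_self_eq_norm_sq] at e
    have e2 : ‖D A1 F p‖ = a := (sq_eq_sq₀ (norm_nonneg _) ha.le).1 e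
    rw [norm_smul, e2, norm_inv, Real.norm_of_nonneg ha.le, inv_mul_cancel₀ ha.ne']
  obtain ⟨q, -, -, hq⟩ := exists_support ha hpos h hA hB _ hta
  have hzero : ⟪nor a ρ F p, a⁻¹ • D A1 F p⟫ = 0 := by
    rw [real_inner_smul_right, hpl, mul_zero]
  have hone := nor_nor ha hpos h p
  rcases hq with ⟨-, hq⟩ | ⟨-, hq⟩ <;> rcases hall q with e | e
  · rw [hq, ← e, hone] at hzero; norm_num at hzero
  · rw [hq, show nor a ρ F q = - nor a ρ F p by rw [e, neg_neg], inner_neg_right, hone] at hzero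
    norm_num at hzero
  · rw [hq, ← e, inner_neg_right, hone] at hzero; norm_num at hzero
  · rw [hq, ← e, hone] at hzero; norm_num at hzero

/-! ### The area inequality -/

/-- The cone over the Gauss map. -/
noncomputable def cone (a : ℝ) (ρ : ℝ → ℝ) (F : ℝ × ℝ → E3) (x : E3) : E3 :=
  x 2 • nor a ρ F (x 0, x 1)

/-- coordinates -/
noncomputable def pr01 : E3 →L[ℝ] ℝ × ℝ :=
  (EuclideanSpace.proj (0 : Fin 3) : E3 →L[ℝ] ℝ).prod (EuclideanSpace.proj (1 : Fin 3) : E3 →L[ℝ] ℝ)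

theorem pr01_apply (x : E3) : pr01 x = (x 0, x 1) := rfl

noncomputable def coneD (a : ℝ) (ρ : ℝ → ℝ) (F : ℝ × ℝ → E3) (x : E3) : E3 →L[ℝ] E3 :=
  x 2 • (fderiv ℝ (nor a ρ F) (x 0, x 1)).comp pr01 +
    (EuclideanSpace.proj (2 : Fin 3) : E3 →L[ℝ] ℝ).smulRight (nor a ρ F (x 0, x 1))

theorem hasFDerivAt_cone (ha : 0 < a) (hρ : ContDiff ℝ 3 ρ) (hpos : ∀ x, 0 < ρ x)
    (h : Iso a ρ F) (x : E3) : HasFDerivAt (cone a ρ F) (coneD a ρ F x) x := by
  have dn : Differentiable ℝ (nor a ρ F) :=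
    (contDiff_nor ha hρ hpos h).differentiable (by norm_num)
  have h1 : HasFDerivAt (fun y : E3 => nor a ρ F (pr01 y))
      ((fderiv ℝ (nor a ρ F) (pr01 x)).comp pr01) x :=
    (dn (pr01 x)).hasFDerivAt.comp x pr01.hasFDerivAt
  have h2 : HasFDerivAt (fun y : E3 => (EuclideanSpace.proj (2 : Fin 3) : E3 →L[ℝ] ℝ) y)
      (EuclideanSpace.proj (2 : Fin 3) : E3 →L[ℝ] ℝ) x := ContinuousLinearMap.hasFDerivAt _
  exact h2.smul h1

theorem det_eq_tri (T : E3 →L[ℝ] E3) :
    T.det = tri (T (EuclideanSpace.single 0 1)) (T (EuclideanSpace.single 1 1))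
      (T (EuclideanSpace.single 2 1)) := by
  have h1 : T.det = LinearMap.det (T : E3 →ₗ[ℝ] E3) := rfl
  rw [h1, ← LinearMap.det_toMatrix (EuclideanSpace.basisFun (Fin 3) ℝ).toBasis,
    Matrix.det_fin_three]
  simp only [LinearMap.toMatrix_apply, OrthonormalBasis.coe_toBasis,
    EuclideanSpace.basisFun_apply, OrthonormalBasis.coe_toBasis_repr_apply,
    EuclideanSpace.basisFun_repr, ContinuousLinearMap.coe_coe]
  unfold tri
  ring

theorem det_coneD (ha : 0 < a) (hρ : ContDiff ℝ 3 ρ) (hpos : ∀ x, 0 < ρ x)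
    (h : Iso a ρ F) (x : E3) :
    (coneD a ρ F x).det = x 2 ^ 2 * (- deriv (deriv ρ) (x 0) / a) := by
  rw [det_eq_tri]
  have e0 : coneD a ρ F x (EuclideanSpace.single 0 1) = x 2 • D A1 (nor a ρ F) (x 0, x 1) := by
    simp [coneD, pr01, D, A1]
  have e1 : coneD a ρ F x (EuclideanSpace.single 1 1) = x 2 • D B1 (nor a ρ F) (x 0, x 1) := by
    simp [coneD, pr01, D, B1]
  have e2 : coneD a ρ F x (EuclideanSpace.single 2 1) = nor a ρ F (x 0, x 1) := by
    simp only [coneD, pr01, _root_.add_apply]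
    simp
    right
    exact map_zero _
  rw [e0, e1, e2]
  have := tri_nor ha hρ hpos h (x 0, x 1)
  simp only at this
  rw [← this]
  simp only [tri, PiLp.smul_apply, smul_eq_mul]
  ring

/-- The box of parameters. -/
def box : Set E3 := {x | x 0 ∈ Ico 0 (2 * π) ∧ x 1 ∈ Ico 0 (2 * π) ∧ x 2 ∈ Ioo (0 : ℝ) 1}

theorem measurableSet_box : MeasurableSet box := by
  have hm : ∀ i : Fin 3, Measurable fun x : E3 => x i := fun i =>
    (EuclideanSpace.proj i : E3 →L[ℝ] ℝ).continuous.measurable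
  exact (hm 0 measurableSet_Ico).inter ((hm 1 measurableSet_Ico).inter (hm 2 measurableSet_Ioo))

theorem lintegral_box (ha : 0 < a) (hρ : ContDiff ℝ 3 ρ) :
    ∫⁻ x in box, ENNReal.ofReal (x 2 ^ 2 * (max 0 (- deriv (deriv ρ) (x 0)) / a)) =
      ENNReal.ofReal (1 / 3 * (2 * π) * ((∫ t in (0)..(2 * π), max 0 (- deriv (deriv ρ) t)) / a)) := by
  have hρ2 : ContDiff ℝ 2 (deriv ρ) := by
    have : ContDiff ℝ (2 + 1) ρ := hρ.of_le (by norm_num)
    exact (contDiff_succ_iff_deriv.1 this).2.2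
  have hρ3 : Continuous (deriv (deriv ρ)) := by
    have : ContDiff ℝ (1 + 1) (deriv ρ) := hρ2.of_le (by norm_num)
    exact (contDiff_succ_iff_deriv.1 this).2.2.continuous
  let f : Fin 3 → ℝ → ℝ := ![(Ico 0 (2 * π)).indicator fun t => max 0 (- deriv (deriv ρ) t) / a,
    (Ico 0 (2 * π)).indicator fun _ => 1, (Ioo 0 1).indicator fun t => t ^ 2]
  have hf0 : f 0 = (Ico 0 (2 * π)).indicator fun t => max 0 (- deriv (deriv ρ) t) / a := rfl
  have hf1 : f 1 = (Ico 0 (2 * π)).indicator fun _ => (1 : ℝ) := rfl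
  have hf2 : f 2 = (Ioo (0 : ℝ) 1).indicator fun t => t ^ 2 := rfl
  have hcont : Continuous fun t => max 0 (- deriv (deriv ρ) t) / a :=
    (continuous_const.max hρ3.neg).div_const a
  have i0 : ∫ t, f 0 t = (∫ t in (0)..(2 * π), max 0 (- deriv (deriv ρ) t)) / a := by
    rw [hf0, integral_indicator measurableSet_Ico, integral_Ico_eq_integral_Ioo,
      ← integral_Ioc_eq_integral_Ioo, ← intervalIntegral.integral_of_le two_pi_pos.le,
      intervalIntegral.integral_div]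
  have i1 : ∫ t, f 1 t = 2 * π := by
    rw [hf1, integral_indicator measurableSet_Ico]
    simp [two_pi_pos.le]
  have i2 : ∫ t, f 2 t = 1 / 3 := by
    rw [hf2, integral_indicator measurableSet_Ioo, ← integral_Ioc_eq_integral_Ioo,
      ← intervalIntegral.integral_of_le zero_le_one, integral_pow]
    norm_num
  have n : ∀ i, ∀ t, 0 ≤ f i t := by
    intro i t
    fin_cases i
    · show 0 ≤ f 0 t
      rw [hf0]
      exact indicator_nonneg (fun t _ => div_nonneg (le_max_left _ _) ha.le) t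
    · show 0 ≤ f 1 t
      rw [hf1]
      exact indicator_nonneg (fun t _ => zero_le_one) t
    · show 0 ≤ f 2 t
      rw [hf2]
      exact indicator_nonneg (fun t _ => sq_nonneg t) t
  have int : ∀ i, Integrable (f i) := by
    intro i
    fin_cases i
    · show Integrable (f 0)
      rw [hf0, integrable_indicator_iff measurableSet_Ico]
      exact (hcont.integrableOn_Icc).mono_set Ico_subset_Icc_self
    · show Integrable (f 1)
      rw [hf1, integrable_indicator_iff measurableSet_Ico]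
      exact (continuous_const.integrableOn_Icc).mono_set Ico_subset_Icc_self
    · show Integrable (f 2)
      rw [hf2, integrable_indicator_iff measurableSet_Ioo]
      exact ((continuous_pow 2).integrableOn_Icc).mono_set Ioo_subset_Icc_self
  have hprod : ∫ x : Fin 3 → ℝ, ∏ i, f i (x i) = 1 / 3 * (2 * π) *
      ((∫ t in (0)..(2 * π), max 0 (- deriv (deriv ρ) t)) / a) := by
    rw [integral_fintype_prod_volume_eq_prod, Fin.prod_univ_three, i0, i1, i2]
    ring
  have hintp : Integrable fun x : Fin 3 → ℝ => ∏ i, f i (x i) := Integrable.fintype_prod int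
  rw [← hprod, ofReal_integral_eq_lintegral_ofReal hintp
    (Filter.Eventually.of_forall fun x => Finset.prod_nonneg fun i _ => n i (x i))]
  rw [← (PiLp.volume_preserving_ofLp (Fin 3)).lintegral_comp_emb
    (MeasurableEquiv.toLp 2 (Fin 3 → ℝ)).symm.measurableEmbedding,
    ← lintegral_indicator measurableSet_box]
  apply lintegral_congr
  intro x
  rw [Fin.prod_univ_three]
  show _ = ENNReal.ofReal (f 0 (x 0) * f 1 (x 1) * f 2 (x 2))
  rw [hf0, hf1, hf2]
  by_cases hx : x ∈ box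
  · rw [indicator_of_mem hx, indicator_of_mem hx.1, indicator_of_mem hx.2.1,
      indicator_of_mem hx.2.2]
    congr 1
    ring
  · rw [indicator_of_notMem hx]
    have : ¬ (x 0 ∈ Ico 0 (2 * π)) ∨ ¬ (x 1 ∈ Ico 0 (2 * π)) ∨ ¬ (x 2 ∈ Ioo (0 : ℝ) 1) := by
      by_contra hcon
      push Not at hcon
      exact hx hcon
    rcases this with hx | hx | hx
    · rw [indicator_of_notMem hx]; simp
    · rw [indicator_of_notMem (a := x 1) hx]; simp
    · rw [indicator_of_notMem (a := x 2) hx]; simp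

/-- **Main inequality.** A doubly periodic `C³` isometric immersion of `a² dα² + ρ(α)² dβ²` exists
only if `2 a ≤ ∫ max (0, -ρ'')`, i.e. only if the total positive curvature is at least `4π`. -/
theorem main_ineq (ha : 0 < a) (hρ : ContDiff ℝ 3 ρ) (hpos : ∀ x, 0 < ρ x)
    (h : Iso a ρ F) (hA : ∀ x y, F (x + 2 * π, y) = F (x, y))
    (hB : ∀ x y, F (x, y + 2 * π) = F (x, y)) :
    2 * a ≤ ∫ t in (0)..(2 * π), max 0 (- deriv (deriv ρ) t) := by
  set I := ∫ t in (0)..(2 * π), max 0 (- deriv (deriv ρ) t) with hI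
  have hI0 : 0 ≤ I := intervalIntegral.integral_nonneg two_pi_pos.le fun t _ => le_max_left _ _
  -- the two parameter sets
  let Ap : Set E3 := box ∩ {x | (x 0, x 1) ∈ Ep a ρ F}
  let Am : Set E3 := box ∩ {x | (x 0, x 1) ∈ Em a ρ F}
  have mp : MeasurableSet Ap :=
    measurableSet_box.inter (((isClosed_Ep ha hρ hpos h).preimage pr01.continuous).measurableSet)
  have mm : MeasurableSet Am :=
    measurableSet_box.inter (((isClosed_Em ha hρ hpos h).preimage pr01.continuous).measurableSet)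
  have hdisj : Disjoint Ap Am := by
    rw [Set.disjoint_left]
    intro x hx1 hx2
    exact Set.disjoint_left.1 (disjoint_Ep_Em ha hpos h hA hB) hx1.2 hx2.2
  let g : E3 → ENNReal := fun x => ENNReal.ofReal (x 2 ^ 2 * (max 0 (- deriv (deriv ρ) (x 0)) / a))
  -- the area formula
  have key : ∀ A : Set E3, MeasurableSet A → A ⊆ box →
      (∀ x ∈ A, (x 0, x 1) ∈ Ep a ρ F ∨ (x 0, x 1) ∈ Em a ρ F) →
      volume (cone a ρ F '' A) ≤ ∫⁻ x in A, g x := by
    intro A mA hbox hsup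
    refine (addHaar_image_le_lintegral_abs_det_fderiv volume mA fun x _ =>
      (hasFDerivAt_cone ha hρ hpos h x).hasFDerivWithinAt).trans ?_
    apply setLIntegral_mono' mA
    intro x hx
    have hs : deriv (deriv ρ) (x 0) ≤ 0 := second_nonpos ha hρ hpos h (x 0, x 1) (hsup x hx)
    rw [det_coneD ha hρ hpos h]
    show ENNReal.ofReal _ ≤ ENNReal.ofReal _
    rw [max_eq_right (by linarith), abs_of_nonneg]
    exact mul_nonneg (sq_nonneg _) (div_nonneg (by linarith) ha.le)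
  have k1 : volume (cone a ρ F '' Ap) ≤ ∫⁻ x in Ap, g x :=
    key Ap mp inter_subset_left fun x hx => Or.inl hx.2
  have k2 : volume (cone a ρ F '' Am) ≤ ∫⁻ x in Am, g x :=
    key Am mm inter_subset_left fun x hx => Or.inr hx.2
  -- the ball is covered
  have hcov : Metric.ball (0 : E3) 1 ⊆ {0} ∪ (cone a ρ F '' Ap ∪ -(cone a ρ F '' Am)) := by
    intro y hy
    by_cases hy0 : y = 0
    · left; exact hy0
    right
    have hny : 0 < ‖y‖ := norm_pos_iff.2 hy0
    have hy1 : ‖y‖ < 1 := by simpa using hy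
    have hν : ‖(‖y‖⁻¹ • y)‖ = 1 := by
      rw [norm_smul, norm_inv, norm_norm, inv_mul_cancel₀ hny.ne']
    have hyν : y = ‖y‖ • (‖y‖⁻¹ • y) := by
      rw [smul_smul, mul_inv_cancel₀ hny.ne', one_smul]
    obtain ⟨p, hp1, hp2, hp⟩ := exists_support ha hpos h hA hB _ hν
    let x : E3 := !₂[p.1, p.2, ‖y‖]
    have x0 : x 0 = p.1 := by simp [x]
    have x1 : x 1 = p.2 := by simp [x]
    have x2 : x 2 = ‖y‖ := by simp [x]
    have hxb : x ∈ box := by
      refine ⟨?_, ?_, ?_⟩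
      · rw [x0]; exact hp1
      · rw [x1]; exact hp2
      · rw [x2]; exact ⟨hny, hy1⟩
    rcases hp with ⟨hp, e⟩ | ⟨hp, e⟩
    · left
      refine ⟨x, ⟨hxb, ?_⟩, ?_⟩
      · show (x 0, x 1) ∈ Ep a ρ F
        rw [x0, x1]; exact hp
      · unfold cone
        have e' : nor a ρ F (p.1, p.2) = ‖y‖⁻¹ • y := e.symm
        rw [x0, x1, x2, e', ← hyν]
    · right
      rw [Set.mem_neg]
      refine ⟨x, ⟨hxb, ?_⟩, ?_⟩
      · show (x 0, x 1) ∈ Em a ρ F
        rw [x0, x1]; exact hp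
      · unfold cone
        rw [x0, x1, x2]
        have e' : nor a ρ F (p.1, p.2) = - (‖y‖⁻¹ • y) := by
          rw [e, neg_neg]
        rw [e', smul_neg, ← hyν]
  have hvol : volume (Metric.ball (0 : E3) 1) ≤ ∫⁻ x in box, g x := by
    calc volume (Metric.ball (0 : E3) 1)
        ≤ volume ({0} ∪ (cone a ρ F '' Ap ∪ -(cone a ρ F '' Am))) := measure_mono hcov
      _ ≤ volume {(0 : E3)} + volume (cone a ρ F '' Ap ∪ -(cone a ρ F '' Am)) :=
          measure_union_le _ _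
      _ ≤ 0 + (volume (cone a ρ F '' Ap) + volume (-(cone a ρ F '' Am))) :=
          add_le_add (by simp) (measure_union_le _ _)
      _ = volume (cone a ρ F '' Ap) + volume (cone a ρ F '' Am) := by
          rw [zero_add, Measure.measure_neg]
      _ ≤ (∫⁻ x in Ap, g x) + ∫⁻ x in Am, g x := add_le_add k1 k2
      _ = ∫⁻ x in Ap ∪ Am, g x := (lintegral_union mm hdisj).symm
      _ ≤ ∫⁻ x in box, g x :=
          lintegral_mono_set (union_subset inter_subset_left inter_subset_left)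
  have hbx := lintegral_box (ρ := ρ) ha hρ
  rw [hbx, EuclideanSpace.volume_ball_fin_three] at hvol
  simp only [ENNReal.ofReal_one, one_pow, one_mul] at hvol
  have hfin : π * 4 / 3 ≤ 1 / 3 * (2 * π) * (I / a) := by
    rwa [ENNReal.ofReal_le_ofReal_iff (by positivity)] at hvol
  have h3 : 2 ≤ I / a := by
    by_contra hlt
    push Not at hlt
    nlinarith [pi_pos]
  rwa [le_div_iff₀ ha] at h3

end Pool.Agent.Zk89.Torus
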