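import Mathlib

/-!
# The Gauss equation for an isometric immersion of `a² dα² + ρ(α)² dβ²` into `ℝ³`
-/

set_option autoImplicit false

open Real Set MeasureTheory
open scoped RealInnerProductSpace ContDiff

namespace Pool.Agent.Zk89.Torus

abbrev E3 := EuclideanSpace ℝ (Fin 3)

/-- directional derivative -/
noncomputable def D {G : Type} [NormedAddCommGroup G] [NormedSpace ℝ G]
    (v : ℝ × ℝ) (f : ℝ × ℝ → G) (p : ℝ × ℝ) : G := fderiv ℝ f p v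

abbrev A1 : ℝ × ℝ := (1, 0)
abbrev B1 : ℝ × ℝ := (0, 1)

variable {G : Type} [NormedAddCommGroup G] [NormedSpace ℝ G]

theorem contDiff_D {n m : ℕ∞} {f : ℝ × ℝ → G} (hf : ContDiff ℝ n f) (v : ℝ × ℝ)
    (h : m + 1 ≤ n) : ContDiff ℝ m (D v f) := by
  have h1 : ContDiff ℝ m (fderiv ℝ f) := hf.fderiv_right (by exact_mod_cast h)
  exact h1.clm_apply contDiff_const

theorem D_inner {f g : ℝ × ℝ → E3} (hf : Differentiable ℝ f) (hg : Differentiable ℝ g)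
    (v p : ℝ × ℝ) :
    D v (fun q => ⟪f q, g q⟫) p = ⟪f p, D v g p⟫ + ⟪D v f p, g p⟫ :=
  fderiv_inner_apply (𝕜 := ℝ) (hf p) (hg p) v

theorem D_comm {f : ℝ × ℝ → G} (hf : ContDiff ℝ 2 f) (u v p : ℝ × ℝ) :
    D u (D v f) p = D v (D u f) p := by
  have h1 : Differentiable ℝ (fderiv ℝ f) :=
    (hf.fderiv_right (m := 1) (by norm_num)).differentiable (by norm_num)
  have key : ∀ u v : ℝ × ℝ, D u (D v f) p = fderiv ℝ (fderiv ℝ f) p u v := by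
    intro u v
    unfold D
    rw [fderiv_clm_apply (h1 p) (differentiableAt_const v)]
    simp
  have hs : IsSymmSndFDerivAt ℝ f p := by
    apply ContDiffAt.isSymmSndFDerivAt (n := 2) hf.contDiffAt
    simp
  rw [key, key, hs]

theorem D_const_of {f : ℝ × ℝ → ℝ} {c : ℝ} (h : ∀ p, f p = c) (v p : ℝ × ℝ) : D v f p = 0 := by
  have : f = fun _ => c := funext h
  rw [this]
  unfold D
  simp

/-- cross product -/
noncomputable def cr (u v : E3) : E3 :=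
  !₂[u 1 * v 2 - u 2 * v 1, u 2 * v 0 - u 0 * v 2, u 0 * v 1 - u 1 * v 0]

/-- triple product -/
noncomputable def tri (u v w : E3) : ℝ :=
  u 0 * (v 1 * w 2 - v 2 * w 1) - u 1 * (v 0 * w 2 - v 2 * w 0) + u 2 * (v 0 * w 1 - v 1 * w 0)

theorem inner3 (u v : E3) : ⟪u, v⟫ = u 0 * v 0 + u 1 * v 1 + u 2 * v 2 := by
  simp [PiLp.inner_apply, Fin.sum_univ_three, mul_comm]

@[simp] theorem cr0 (u v : E3) : cr u v 0 = u 1 * v 2 - u 2 * v 1 := by simp [cr]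
@[simp] theorem cr1 (u v : E3) : cr u v 1 = u 2 * v 0 - u 0 * v 2 := by simp [cr]
@[simp] theorem cr2 (u v : E3) : cr u v 2 = u 0 * v 1 - u 1 * v 0 := by simp [cr]

theorem inner_cr_left (u v : E3) : ⟪cr u v, u⟫ = 0 := by
  rw [inner3]; simp; ring

theorem inner_cr_right (u v : E3) : ⟪cr u v, v⟫ = 0 := by
  rw [inner3]; simp; ring

theorem inner_cr_cr (u v : E3) : ⟪cr u v, cr u v⟫ = ⟪u, u⟫ * ⟪v, v⟫ - ⟪u, v⟫ ^ 2 := by
  simp only [inner3, cr0, cr1, cr2]; ring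

/-- Parseval with respect to `u`, `v`, `u × v` -/
theorem gram (x y u v : E3) :
    ⟪x, cr u v⟫ * ⟪y, cr u v⟫ =
      ⟪x, y⟫ * (⟪u, u⟫ * ⟪v, v⟫ - ⟪u, v⟫ ^ 2)
      - ⟪x, u⟫ * (⟪y, u⟫ * ⟪v, v⟫ - ⟪y, v⟫ * ⟪u, v⟫)
      + ⟪x, v⟫ * (⟪y, u⟫ * ⟪u, v⟫ - ⟪y, v⟫ * ⟪u, u⟫) := by
  simp only [inner3, cr0, cr1, cr2]; ring

theorem tri_mul_tri (x y z u v w : E3) :
    tri x y z * tri u v w =
      ⟪x, u⟫ * (⟪y, v⟫ * ⟪z, w⟫ - ⟪y, w⟫ * ⟪z, v⟫)
      - ⟪x, v⟫ * (⟪y, u⟫ * ⟪z, w⟫ - ⟪y, w⟫ * ⟪z, u⟫)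
      + ⟪x, w⟫ * (⟪y, u⟫ * ⟪z, v⟫ - ⟪y, v⟫ * ⟪z, u⟫) := by
  simp only [inner3, tri]; ring

theorem tri_cr (u v w : E3) : tri u v w = ⟪cr u v, w⟫ := by
  simp only [inner3, tri, cr0, cr1, cr2]; ring

theorem expand_cr (x u v : E3) (hu : ⟪x, u⟫ = 0) (hv : ⟪x, v⟫ = 0) :
    ⟪cr u v, cr u v⟫ • x = ⟪x, cr u v⟫ • cr u v := by
  rw [inner3] at hu hv
  ext i
  fin_cases i
  · simp only [inner3, cr0, cr1, cr2, PiLp.smul_apply, smul_eq_mul, Fin.zero_eta]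
    linear_combination
      ((u 0 * v 1 ^ 2 + u 0 * v 2 ^ 2 - u 1 * v 0 * v 1 - u 2 * v 0 * v 2)) * hu
        + (-(u 0 * u 1 * v 1) - u 0 * u 2 * v 2 + u 1 ^ 2 * v 0 + u 2 ^ 2 * v 0) * hv
  · simp only [inner3, cr0, cr1, cr2, PiLp.smul_apply, smul_eq_mul, Fin.mk_one]
    linear_combination
      ((u 1 * v 0 ^ 2 + u 1 * v 2 ^ 2 - u 0 * v 1 * v 0 - u 2 * v 1 * v 2)) * hu
        + (-(u 1 * u 0 * v 0) - u 1 * u 2 * v 2 + u 0 ^ 2 * v 1 + u 2 ^ 2 * v 1) * hv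
  · simp only [inner3, cr0, cr1, cr2, PiLp.smul_apply, smul_eq_mul, Fin.reduceFinMk]
    linear_combination
      ((u 2 * v 0 ^ 2 + u 2 * v 1 ^ 2 - u 0 * v 2 * v 0 - u 1 * v 2 * v 1)) * hu
        + (-(u 2 * u 0 * v 0) - u 2 * u 1 * v 1 + u 0 ^ 2 * v 2 + u 1 ^ 2 * v 2) * hv

/-- `F : ℝ² → ℝ³` is a `C³` isometric immersion of `a² dα² + ρ(α)² dβ²`. -/
structure Iso (a : ℝ) (ρ : ℝ → ℝ) (F : ℝ × ℝ → E3) : Prop where
  smooth : ContDiff ℝ 3 F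
  haa : ∀ p, ⟪D A1 F p, D A1 F p⟫ = a ^ 2
  hab : ∀ p, ⟪D A1 F p, D B1 F p⟫ = 0
  hbb : ∀ p, ⟪D B1 F p, D B1 F p⟫ = ρ p.1 ^ 2

/-- The unit normal. -/
noncomputable def nor (a : ℝ) (ρ : ℝ → ℝ) (F : ℝ × ℝ → E3) (p : ℝ × ℝ) : E3 :=
  (a * ρ p.1)⁻¹ • cr (D A1 F p) (D B1 F p)

section

variable {a : ℝ} {ρ : ℝ → ℝ} {F : ℝ × ℝ → E3}

theorem contDiff_cr {n : ℕ∞} {f g : ℝ × ℝ → E3} (hf : ContDiff ℝ n f) (hg : ContDiff ℝ n g) :
    ContDiff ℝ n (fun p => cr (f p) (g p)) := by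
  have hf' := contDiff_euclidean.1 hf
  have hg' := contDiff_euclidean.1 hg
  rw [contDiff_euclidean]
  intro i
  fin_cases i
  · simpa using ((hf' 1).mul (hg' 2)).sub ((hf' 2).mul (hg' 1))
  · simpa using ((hf' 2).mul (hg' 0)).sub ((hf' 0).mul (hg' 2))
  · simpa using ((hf' 0).mul (hg' 1)).sub ((hf' 1).mul (hg' 0))

theorem contDiff_nor (ha : 0 < a) (hρ : ContDiff ℝ 3 ρ) (hpos : ∀ x, 0 < ρ x) (h : Iso a ρ F) :
    ContDiff ℝ 2 (nor a ρ F) := by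
  have h1 : ContDiff ℝ 2 (D A1 F) := contDiff_D (n := 3) (m := 2) h.smooth A1 (by norm_num)
  have h2 : ContDiff ℝ 2 (D B1 F) := contDiff_D (n := 3) (m := 2) h.smooth B1 (by norm_num)
  have h3 : ContDiff ℝ 2 (fun p : ℝ × ℝ => a * ρ p.1) :=
    contDiff_const.mul ((hρ.of_le (by norm_num)).comp contDiff_fst)
  have h4 : ContDiff ℝ 2 (fun p : ℝ × ℝ => (a * ρ p.1)⁻¹) :=
    h3.inv fun p => (mul_pos ha (hpos p.1)).ne'
  exact h4.smul (contDiff_cr (n := 2) h1 h2)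

theorem cr_eq (ha : 0 < a) (hpos : ∀ x, 0 < ρ x) (p : ℝ × ℝ) :
    cr (D A1 F p) (D B1 F p) = (a * ρ p.1) • nor a ρ F p := by
  unfold nor
  rw [smul_smul, mul_inv_cancel₀ (mul_pos ha (hpos p.1)).ne', one_smul]

theorem nor_a (p : ℝ × ℝ) : ⟪nor a ρ F p, D A1 F p⟫ = 0 := by
  unfold nor
  rw [real_inner_smul_left, inner_cr_left, mul_zero]

theorem nor_b (p : ℝ × ℝ) : ⟪nor a ρ F p, D B1 F p⟫ = 0 := by
  unfold nor
  rw [real_inner_smul_left, inner_cr_right, mul_zero]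

theorem nor_nor (ha : 0 < a) (hpos : ∀ x, 0 < ρ x) (h : Iso a ρ F) (p : ℝ × ℝ) :
    ⟪nor a ρ F p, nor a ρ F p⟫ = 1 := by
  unfold nor
  rw [real_inner_smul_left, real_inner_smul_right, inner_cr_cr, h.haa, h.hab, h.hbb]
  have := ha.ne'
  have := (hpos p.1).ne'
  field_simp
  ring

/-- a unit vector orthogonal to the tangent plane is `±` the normal -/
theorem eq_nor_or (ha : 0 < a) (hpos : ∀ x, 0 < ρ x) (h : Iso a ρ F) (p : ℝ × ℝ) (ν : E3)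
    (hν : ‖ν‖ = 1) (h1 : ⟪ν, D A1 F p⟫ = 0) (h2 : ⟪ν, D B1 F p⟫ = 0) :
    ν = nor a ρ F p ∨ ν = - nor a ρ F p := by
  have hc : (a * ρ p.1) ≠ 0 := (mul_pos ha (hpos p.1)).ne'
  have e := expand_cr ν (D A1 F p) (D B1 F p) h1 h2
  rw [inner_cr_cr, h.haa, h.hab, h.hbb, cr_eq ha hpos, real_inner_smul_right, smul_smul] at e
  have e2 : ν = ⟪ν, nor a ρ F p⟫ • nor a ρ F p := by
    have e3 : (a * ρ p.1) ^ 2 • ν = (a * ρ p.1) ^ 2 • (⟪ν, nor a ρ F p⟫ • nor a ρ F p) := by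
      rw [smul_smul]
      convert e using 2 <;> ring
    exact smul_right_injective _ (pow_ne_zero 2 hc) e3
  set c := ⟪ν, nor a ρ F p⟫ with hcdef
  have hn : ‖nor a ρ F p‖ = 1 := by
    have := nor_nor ha hpos h p
    rw [real_inner_self_eq_norm_sq] at this
    nlinarith [norm_nonneg (nor a ρ F p), sq_nonneg (‖nor a ρ F p‖ - 1)]
  have hc1 : |c| = 1 := by
    have := congrArg norm e2
    rw [norm_smul, hn, hν, mul_one, Real.norm_eq_abs] at this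
    exact this.symm
  rcases eq_or_eq_neg_of_abs_eq hc1 with hc2 | hc2
  · left; rw [e2, hc2, one_smul]
  · right; rw [e2, hc2, neg_smul, one_smul]

/-- Parseval in the orthogonal frame. -/
theorem parseval (ha : 0 < a) (hpos : ∀ x, 0 < ρ x) (h : Iso a ρ F) (p : ℝ × ℝ) (x y : E3) :
    (a * ρ p.1) ^ 2 * ⟪x, y⟫ = ρ p.1 ^ 2 * (⟪x, D A1 F p⟫ * ⟪y, D A1 F p⟫)
      + a ^ 2 * (⟪x, D B1 F p⟫ * ⟪y, D B1 F p⟫)
      + (a * ρ p.1) ^ 2 * (⟪x, nor a ρ F p⟫ * ⟪y, nor a ρ F p⟫) := by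
  have e := gram x y (D A1 F p) (D B1 F p)
  rw [cr_eq ha hpos, real_inner_smul_right, real_inner_smul_right, h.haa, h.hab, h.hbb] at e
  linear_combination -e

/-- The second fundamental form. -/
noncomputable def sL (a : ℝ) (ρ : ℝ → ℝ) (F : ℝ × ℝ → E3) (p : ℝ × ℝ) : ℝ :=
  ⟪D A1 (D A1 F) p, nor a ρ F p⟫
noncomputable def sM (a : ℝ) (ρ : ℝ → ℝ) (F : ℝ × ℝ → E3) (p : ℝ × ℝ) : ℝ :=
  ⟪D B1 (D A1 F) p, nor a ρ F p⟫
noncomputable def sN (a : ℝ) (ρ : ℝ → ℝ) (F : ℝ × ℝ → E3) (p : ℝ × ℝ) : ℝ :=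
  ⟪D B1 (D B1 F) p, nor a ρ F p⟫

theorem D_fst (g : ℝ → ℝ) (hg : Differentiable ℝ g) (p : ℝ × ℝ) :
    D A1 (fun q : ℝ × ℝ => g q.1) p = deriv g p.1 ∧ D B1 (fun q : ℝ × ℝ => g q.1) p = 0 := by
  have h1 : HasFDerivAt (fun q : ℝ × ℝ => g q.1)
      ((ContinuousLinearMap.toSpanSingleton ℝ (deriv g p.1)).comp
        (ContinuousLinearMap.fst ℝ ℝ ℝ)) p :=
    ((hg p.1).hasDerivAt.hasFDerivAt).comp p hasFDerivAt_fst
  unfold D
  rw [h1.fderiv]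
  simp

theorem gauss (ha : 0 < a) (hρ : ContDiff ℝ 3 ρ) (hpos : ∀ x, 0 < ρ x) (h : Iso a ρ F)
    (p : ℝ × ℝ) :
    sL a ρ F p * sN a ρ F p - sM a ρ F p ^ 2 = - (ρ p.1 * deriv (deriv ρ) p.1) := by
  have cF : ContDiff ℝ 3 F := h.smooth
  have cA : ContDiff ℝ 2 (D A1 F) := contDiff_D (n := 3) (m := 2) cF A1 (by norm_num)
  have cB : ContDiff ℝ 2 (D B1 F) := contDiff_D (n := 3) (m := 2) cF B1 (by norm_num)
  have cAA : ContDiff ℝ 1 (D A1 (D A1 F)) := contDiff_D (n := 2) (m := 1) cA A1 (by norm_num)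
  have cAB : ContDiff ℝ 1 (D B1 (D A1 F)) := contDiff_D (n := 2) (m := 1) cA B1 (by norm_num)
  have dA : Differentiable ℝ (D A1 F) := cA.differentiable (by norm_num)
  have dB : Differentiable ℝ (D B1 F) := cB.differentiable (by norm_num)
  have dAA : Differentiable ℝ (D A1 (D A1 F)) := cAA.differentiable (by norm_num)
  have dAB : Differentiable ℝ (D B1 (D A1 F)) := cAB.differentiable (by norm_num)
  have comm : ∀ q, D A1 (D B1 F) q = D B1 (D A1 F) q := fun q =>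
    D_comm (cF.of_le (by norm_num)) A1 B1 q
  -- derivatives of the first fundamental form
  have e1 : ∀ q, ⟪D A1 (D A1 F) q, D A1 F q⟫ = 0 := by
    intro q
    have := D_inner dA dA A1 q
    rw [D_const_of h.haa, real_inner_comm] at this
    linarith
  have e2 : ∀ q, ⟪D B1 (D A1 F) q, D A1 F q⟫ = 0 := by
    intro q
    have := D_inner dA dA B1 q
    rw [D_const_of h.haa, real_inner_comm] at this
    linarith
  have e3 : ∀ q, ⟪D A1 (D A1 F) q, D B1 F q⟫ = 0 := by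
    intro q
    have := D_inner dA dB A1 q
    rw [D_const_of h.hab, comm, real_inner_comm, e2] at this
    linarith
  have hρ1 : Differentiable ℝ ρ := hρ.differentiable (by norm_num)
  have hρ2 : ContDiff ℝ 2 (deriv ρ) := by
    have : ContDiff ℝ (2 + 1) ρ := hρ.of_le (by norm_num)
    exact (contDiff_succ_iff_deriv.1 this).2.2
  have hρ3 : Differentiable ℝ (deriv ρ) := hρ2.differentiable (by norm_num)
  have hsq : Differentiable ℝ (fun x => ρ x ^ 2) := hρ1.pow 2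
  have hmul : Differentiable ℝ (fun x => ρ x * deriv ρ x) := hρ1.mul hρ3
  have e4 : ∀ q, ⟪D B1 (D A1 F) q, D B1 F q⟫ = ρ q.1 * deriv ρ q.1 := by
    intro q
    have := D_inner dB dB A1 q
    rw [funext h.hbb, (D_fst (fun x => ρ x ^ 2) hsq q).1, comm, real_inner_comm] at this
    have e : deriv (fun x => ρ x ^ 2) q.1 = 2 * (ρ q.1 * deriv ρ q.1) := by
      have := ((hρ1 q.1).hasDerivAt.pow 2).deriv
      simp only [Nat.cast_ofNat, Nat.add_one_sub_one, pow_one] at this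
      rw [show (fun x => ρ x ^ 2) = ρ ^ 2 from rfl, this]
      ring
    rw [e] at this
    linarith
  have e5 : ∀ q, ⟪D B1 (D B1 F) q, D B1 F q⟫ = 0 := by
    intro q
    have := D_inner dB dB B1 q
    rw [funext h.hbb, (D_fst (fun x => ρ x ^ 2) hsq q).2, real_inner_comm] at this
    linarith
  have e6 : ∀ q, ⟪D B1 (D B1 F) q, D A1 F q⟫ = - (ρ q.1 * deriv ρ q.1) := by
    intro q
    have := D_inner dA dB B1 q
    rw [D_const_of h.hab, real_inner_comm, e4] at this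
    linarith
  -- third derivatives
  have e7 : ⟪D A1 (D A1 F) p, D B1 (D B1 F) p⟫ = - ⟪D B1 (D A1 (D A1 F)) p, D B1 F p⟫ := by
    have := D_inner dAA dB B1 p
    rw [D_const_of e3] at this
    linarith
  have e8 : ⟪D B1 (D A1 F) p, D B1 (D A1 F) p⟫
      = deriv ρ p.1 ^ 2 + ρ p.1 * deriv (deriv ρ) p.1 - ⟪D A1 (D B1 (D A1 F)) p, D B1 F p⟫ := by
    have := D_inner dAB dB A1 p
    rw [funext e4, (D_fst (fun x => ρ x * deriv ρ x) hmul p).1, comm] at this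
    have e : deriv (fun x => ρ x * deriv ρ x) p.1
        = deriv ρ p.1 ^ 2 + ρ p.1 * deriv (deriv ρ) p.1 := by
      have := ((hρ1 p.1).hasDerivAt.mul (hρ3 p.1).hasDerivAt).deriv
      rw [show (fun x => ρ x * deriv ρ x) = ρ * deriv ρ from rfl, this]
      ring
    rw [e] at this
    linarith
  have e9 : D B1 (D A1 (D A1 F)) p = D A1 (D B1 (D A1 F)) p := D_comm cA B1 A1 p
  have q1 := parseval ha hpos h p (D A1 (D A1 F) p) (D B1 (D B1 F) p)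
  have q2 := parseval ha hpos h p (D B1 (D A1 F) p) (D B1 (D A1 F) p)
  rw [e1, e3] at q1
  rw [e2, e4, e8, ← e9] at q2
  rw [e7] at q1
  have ha' := ha.ne'
  have hp' := (hpos p.1).ne'
  have hc : (a * ρ p.1) ^ 2 ≠ 0 := pow_ne_zero 2 (mul_ne_zero ha' hp')
  unfold sL sM sN
  have r1 : ⟪D A1 (D A1 F) p, nor a ρ F p⟫ * ⟪D B1 (D B1 F) p, nor a ρ F p⟫
      = - ⟪D B1 (D A1 (D A1 F)) p, D B1 F p⟫ := by
    apply mul_left_cancel₀ hc
    linear_combination -q1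
  have r2 : ⟪D B1 (D A1 F) p, nor a ρ F p⟫ ^ 2
      = ρ p.1 * deriv (deriv ρ) p.1 - ⟪D B1 (D A1 (D A1 F)) p, D B1 F p⟫ := by
    apply mul_left_cancel₀ hc
    linear_combination -q2
  rw [r1, r2]
  ring

end

end Pool.Agent.Zk89.Torus
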