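import Pool.Agent.Zk89.TorusArea
import Pool.Agent.Zk89.PullMetric

/-!
# The torus `Circle × Circle`, its parametrisation and Riemannian metrics on it
-/

set_option autoImplicit false

open Real Set MeasureTheory Bundle
open scoped Manifold ContDiff RealInnerProductSpace Topology

namespace Pool.Agent.Zk89.Torus

/-- The two-dimensional torus. -/
abbrev T2 : Type := Circle × Circle

/-- The model with corners of the torus. -/
noncomputable abbrev IT : ModelWithCorners ℝ (EuclideanSpace ℝ (Fin 1) × EuclideanSpace ℝ (Fin 1))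
    (ModelProd (EuclideanSpace ℝ (Fin 1)) (EuclideanSpace ℝ (Fin 1))) := (𝓡 1).prod (𝓡 1)

/-- Smooth Riemannian metrics on the torus. -/
abbrev Metric2 : Type :=
  ContMDiffRiemannianMetric IT ∞ (EuclideanSpace ℝ (Fin 1) × EuclideanSpace ℝ (Fin 1))
    (fun x : T2 => TangentSpace IT x)

/-- The parametrisation of the torus by two angles. -/
noncomputable def par (p : ℝ × ℝ) : T2 := (Circle.exp p.1, Circle.exp p.2)

theorem contMDiff_par : ContMDiff 𝓘(ℝ, ℝ × ℝ) IT ∞ par := by
  have h1 : ContMDiff 𝓘(ℝ, ℝ × ℝ) (𝓡 1) ∞ (fun p : ℝ × ℝ => Circle.exp p.1) :=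
    contMDiff_circleExp.comp contDiff_fst.contMDiff
  have h2 : ContMDiff 𝓘(ℝ, ℝ × ℝ) (𝓡 1) ∞ (fun p : ℝ × ℝ => Circle.exp p.2) :=
    contMDiff_circleExp.comp contDiff_snd.contMDiff
  exact h1.prodMk h2

theorem par_surj : Function.Surjective par := by
  rintro ⟨z, w⟩
  refine ⟨(Complex.arg z, Complex.arg w), ?_⟩
  simp [par]

/-- the two coordinate functions -/
def cz (x : T2) : ℂ := (x.1 : ℂ)
def cw (x : T2) : ℂ := (x.2 : ℂ)

theorem contMDiff_coe : ContMDiff (𝓡 1) 𝓘(ℝ, ℂ) ∞ (fun z : Circle => (z : ℂ)) := by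
  have : Fact (Module.finrank ℝ ℂ = 1 + 1) := Complex.finrank_real_complex_fact
  exact contMDiff_coe_sphere

theorem contMDiff_cz : ContMDiff IT 𝓘(ℝ, ℂ) ∞ cz := contMDiff_coe.comp contMDiff_fst
theorem contMDiff_cw : ContMDiff IT 𝓘(ℝ, ℂ) ∞ cw := contMDiff_coe.comp contMDiff_snd

/-- The torus of revolution with radii `r < R`. -/
noncomputable def rev (R r : ℝ) (x : T2) : E3 :=
  !₂[(R + r * (x.1 : ℂ).re) * (x.2 : ℂ).re, (R + r * (x.1 : ℂ).re) * (x.2 : ℂ).im,
    r * (x.1 : ℂ).im]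

theorem contMDiff_rev (R r : ℝ) : ContMDiff IT 𝓘(ℝ, E3) ∞ (rev R r) := by
  let G : ℂ × ℂ → E3 := fun p => !₂[(R + r * p.1.re) * p.2.re, (R + r * p.1.re) * p.2.im,
    r * p.1.im]
  have hG : ContDiff ℝ ∞ G := by
    have a1 : ContDiff ℝ ∞ fun p : ℂ × ℂ => p.1.re := Complex.reCLM.contDiff.comp contDiff_fst
    have a2 : ContDiff ℝ ∞ fun p : ℂ × ℂ => p.1.im := Complex.imCLM.contDiff.comp contDiff_fst
    have a3 : ContDiff ℝ ∞ fun p : ℂ × ℂ => p.2.re := Complex.reCLM.contDiff.comp contDiff_snd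
    have a4 : ContDiff ℝ ∞ fun p : ℂ × ℂ => p.2.im := Complex.imCLM.contDiff.comp contDiff_snd
    rw [contDiff_euclidean]
    intro i
    fin_cases i
    · exact (contDiff_const.add (contDiff_const.mul a1)).mul a3
    · exact (contDiff_const.add (contDiff_const.mul a1)).mul a4
    · exact contDiff_const.mul a2
  have h1 : ContMDiff IT 𝓘(ℝ, ℂ × ℂ) ∞ (fun x : T2 => (cz x, cw x)) :=
    contMDiff_cz.prodMk_space contMDiff_cw
  exact hG.contMDiff.comp h1

/-- The differential of the parametrisation. -/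
noncomputable def dpar (p : ℝ × ℝ) : (ℝ × ℝ) →L[ℝ] TangentSpace IT (par p) :=
  mfderiv 𝓘(ℝ, ℝ × ℝ) IT par p

/-- Chain rule. -/
theorem chain {W : Type} [NormedAddCommGroup W] [NormedSpace ℝ W] {f : T2 → W} {n : ℕ∞ω}
    (hn : n ≠ 0) (hf : ContMDiff IT 𝓘(ℝ, W) n f) (p v : ℝ × ℝ) :
    D v (fun q => f (par q)) p = mfderiv IT 𝓘(ℝ, W) f (par p) (dpar p v) := by
  unfold D dpar
  have h1 : MDifferentiableAt IT 𝓘(ℝ, W) f (par p) := (hf (par p)).mdifferentiableAt hn
  have h2 : MDifferentiableAt 𝓘(ℝ, ℝ × ℝ) IT par p :=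
    (contMDiff_par p).mdifferentiableAt (by simp)
  have h3 := mfderiv_comp p h1 h2
  rw [mfderiv_eq_fderiv] at h3
  have h4 : fderiv ℝ (fun q => f (par q)) p = fderiv ℝ (f ∘ par) p := rfl
  rw [h4, h3]
  rfl

theorem D_apply {f : ℝ × ℝ → E3} (hf : Differentiable ℝ f) (v p : ℝ × ℝ) (i : Fin 3) :
    (D v f p) i = D v (fun q => f q i) p := by
  have h1 : HasFDerivAt (fun q => f q i)
      ((EuclideanSpace.proj i : E3 →L[ℝ] ℝ).comp (fderiv ℝ f p)) p :=
    (EuclideanSpace.proj i : E3 →L[ℝ] ℝ).hasFDerivAt.comp p (hf p).hasFDerivAt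
  unfold D
  rw [h1.fderiv]
  rfl

theorem cz_par (q : ℝ × ℝ) : cz (par q) = Real.cos q.1 + Real.sin q.1 * Complex.I := by
  unfold cz par
  rw [Circle.coe_exp, Complex.exp_mul_I]
  push_cast
  rfl

theorem rev_par (R r : ℝ) (q : ℝ × ℝ) : rev R r (par q) =
    !₂[(R + r * Real.cos q.1) * Real.cos q.2, (R + r * Real.cos q.1) * Real.sin q.2,
      r * Real.sin q.1] := by
  unfold rev par
  simp only [Circle.coe_exp, Complex.exp_ofReal_mul_I_re, Complex.exp_ofReal_mul_I_im]

theorem D_rev (R r : ℝ) (p v : ℝ × ℝ) :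
    D v (fun q => rev R r (par q)) p =
      !₂[- (r * Real.sin p.1 * Real.cos p.2) * v.1 - (R + r * Real.cos p.1) * Real.sin p.2 * v.2,
        - (r * Real.sin p.1 * Real.sin p.2) * v.1 + (R + r * Real.cos p.1) * Real.cos p.2 * v.2,
        r * Real.cos p.1 * v.1] := by
  have hd : Differentiable ℝ (fun q => rev R r (par q)) := by
    have : ContMDiff 𝓘(ℝ, ℝ × ℝ) 𝓘(ℝ, E3) ∞ (fun q => rev R r (par q)) :=
      (contMDiff_rev R r).comp contMDiff_par
    exact this.contDiff.differentiable (by simp)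
  have c1 : HasFDerivAt (fun q : ℝ × ℝ => Real.cos q.1)
      ((- Real.sin p.1) • ContinuousLinearMap.fst ℝ ℝ ℝ) p :=
    (Real.hasDerivAt_cos p.1).comp_hasFDerivAt p hasFDerivAt_fst
  have c2 : HasFDerivAt (fun q : ℝ × ℝ => Real.cos q.2)
      ((- Real.sin p.2) • ContinuousLinearMap.snd ℝ ℝ ℝ) p :=
    (Real.hasDerivAt_cos p.2).comp_hasFDerivAt p hasFDerivAt_snd
  have s1 : HasFDerivAt (fun q : ℝ × ℝ => Real.sin q.1)
      ((Real.cos p.1) • ContinuousLinearMap.fst ℝ ℝ ℝ) p :=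
    (Real.hasDerivAt_sin p.1).comp_hasFDerivAt p hasFDerivAt_fst
  have s2 : HasFDerivAt (fun q : ℝ × ℝ => Real.sin q.2)
      ((Real.cos p.2) • ContinuousLinearMap.snd ℝ ℝ ℝ) p :=
    (Real.hasDerivAt_sin p.2).comp_hasFDerivAt p hasFDerivAt_snd
  ext i
  rw [D_apply hd]
  simp only [rev_par]
  unfold D
  fin_cases i
  · have := ((c1.const_mul r).const_add R).mul c2
    simp only [Fin.zero_eta, Matrix.cons_val_zero]
    erw [this.fderiv]
    simp
    ring
  · have := ((c1.const_mul r).const_add R).mul s2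
    simp only [Fin.mk_one, Matrix.cons_val_one, Matrix.cons_val_zero]
    erw [this.fderiv]
    simp
    ring
  · have := s1.const_mul r
    simp only [Fin.reduceFinMk, Matrix.cons_val]
    erw [this.fderiv]
    simp
    ring

theorem inner_D_rev (R r : ℝ) (p v w : ℝ × ℝ) :
    ⟪D v (fun q => rev R r (par q)) p, D w (fun q => rev R r (par q)) p⟫ =
      r ^ 2 * (v.1 * w.1) + (R + r * Real.cos p.1) ^ 2 * (v.2 * w.2) := by
  rw [D_rev, D_rev, inner3]
  simp only [Matrix.cons_val_zero, Matrix.cons_val_one, Matrix.cons_val]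
  have h1 := Real.sin_sq_add_cos_sq p.1
  have h2 := Real.sin_sq_add_cos_sq p.2
  have e1 : Real.sin p.1 ^ 2 = 1 - Real.cos p.1 ^ 2 := by linarith
  have e2 : Real.sin p.2 ^ 2 = 1 - Real.cos p.2 ^ 2 := by linarith
  ring_nf
  simp only [e1, e2]
  ring

theorem D_cz (p v : ℝ × ℝ) :
    D v (fun q => cz (par q)) p = v.1 • (- Real.sin p.1 + Real.cos p.1 * Complex.I : ℂ) := by
  have hc : HasDerivAt (fun x : ℝ => (Real.cos x + Real.sin x * Complex.I : ℂ))
      (- Real.sin p.1 + Real.cos p.1 * Complex.I : ℂ) p.1 := by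
    have h1 : HasDerivAt (fun x : ℝ => ((Real.cos x : ℝ) : ℂ)) ((- Real.sin p.1 : ℝ) : ℂ) p.1 :=
      (Real.hasDerivAt_cos p.1).ofReal_comp
    have h2 : HasDerivAt (fun x : ℝ => ((Real.sin x : ℝ) : ℂ)) ((Real.cos p.1 : ℝ) : ℂ) p.1 :=
      (Real.hasDerivAt_sin p.1).ofReal_comp
    have := h1.add (h2.mul_const Complex.I)
    push_cast at this ⊢
    exact this
  have h3 : HasFDerivAt (fun q : ℝ × ℝ => (Real.cos q.1 + Real.sin q.1 * Complex.I : ℂ))
      ((ContinuousLinearMap.toSpanSingleton ℝ (- Real.sin p.1 + Real.cos p.1 * Complex.I : ℂ)).comp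
        (ContinuousLinearMap.fst ℝ ℝ ℝ)) p :=
    hc.hasFDerivAt.comp p hasFDerivAt_fst
  simp only [cz_par]
  unfold D
  rw [h3.fderiv]
  simp

theorem inner_D_cz (p v w : ℝ × ℝ) :
    inner ℝ (D v (fun q => cz (par q)) p) (D w (fun q => cz (par q)) p) = v.1 * w.1 := by
  rw [D_cz, D_cz, real_inner_smul_left, real_inner_smul_right, real_inner_self_eq_norm_sq]
  have : ‖(- Real.sin p.1 + Real.cos p.1 * Complex.I : ℂ)‖ ^ 2 = 1 := by
    have e : (- (Real.sin p.1 : ℂ) + Real.cos p.1 * Complex.I) = ⟨- Real.sin p.1, Real.cos p.1⟩ := by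
      apply Complex.ext <;> simp [-Complex.ofReal_sin, -Complex.ofReal_cos]
    rw [e, ← Complex.normSq_eq_norm_sq, Complex.normSq_mk]
    have h1 := Real.sin_sq_add_cos_sq p.1
    nlinarith
  rw [this]
  ring

/-! ### Nonexistence of isometric immersions -/

theorem integral_max_cos (r : ℝ) (hr : 0 < r) :
    ∫ t in (0)..(2 * π), max 0 (r * Real.cos t) = 2 * r := by
  have hc : Continuous fun t : ℝ => max 0 (r * Real.cos t) :=
    continuous_const.max (continuous_const.mul Real.continuous_cos)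
  have h1 : ∫ t in (0)..(π / 2), max 0 (r * Real.cos t) = r := by
    have : ∫ t in (0)..(π / 2), max 0 (r * Real.cos t) = ∫ t in (0)..(π / 2), r * Real.cos t := by
      apply intervalIntegral.integral_congr
      intro t ht
      rw [uIcc_of_le (by positivity)] at ht
      exact max_eq_right (mul_nonneg hr.le (Real.cos_nonneg_of_mem_Icc
        ⟨by linarith [ht.1, pi_pos], ht.2⟩))
    rw [this]
    simp
  have h2 : ∫ t in (π / 2)..(3 * π / 2), max 0 (r * Real.cos t) = 0 := by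
    have : ∫ t in (π / 2)..(3 * π / 2), max 0 (r * Real.cos t)
        = ∫ t in (π / 2)..(3 * π / 2), (0 : ℝ) := by
      apply intervalIntegral.integral_congr
      intro t ht
      rw [uIcc_of_le (by linarith [pi_pos])] at ht
      apply max_eq_left
      have : Real.cos t ≤ 0 := Real.cos_nonpos_of_pi_div_two_le_of_le ht.1 (by linarith [ht.2])
      nlinarith
    rw [this]
    simp
  have h3 : ∫ t in (3 * π / 2)..(2 * π), max 0 (r * Real.cos t) = r := by
    have : ∫ t in (3 * π / 2)..(2 * π), max 0 (r * Real.cos t)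
        = ∫ t in (3 * π / 2)..(2 * π), r * Real.cos t := by
      apply intervalIntegral.integral_congr
      intro t ht
      rw [uIcc_of_le (by linarith [pi_pos])] at ht
      apply max_eq_right
      have : 0 ≤ Real.cos t := by
        rw [← Real.cos_sub_two_pi]
        exact Real.cos_nonneg_of_mem_Icc ⟨by linarith [ht.1], by linarith [ht.2, pi_pos]⟩
      positivity
    rw [this]
    simp
    have : Real.sin (3 * π / 2) = -1 := by
      rw [show 3 * π / 2 = π / 2 + π by ring, Real.sin_add_pi, Real.sin_pi_div_two]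
    rw [this]
    ring
  rw [← intervalIntegral.integral_add_adjacent_intervals (b := 3 * π / 2)
      (hc.intervalIntegrable _ _) (hc.intervalIntegrable _ _),
    ← intervalIntegral.integral_add_adjacent_intervals (b := π / 2)
      (hc.intervalIntegrable _ _) (hc.intervalIntegrable _ _), h1, h2, h3]
  ring

/-- There is no doubly periodic `C³` map which induces `(r² + t) dα² + (R + r cos α)² dβ²`. -/
theorem no_iso (R r : ℝ) (hr : 0 < r) (hR : r < R) (t : ℝ) (ht : 0 < t) (F : ℝ × ℝ → E3)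
    (hF : ContDiff ℝ 3 F) (hA : ∀ x y, F (x + 2 * π, y) = F (x, y))
    (hB : ∀ x y, F (x, y + 2 * π) = F (x, y))
    (k1 : ∀ p, ⟪D A1 F p, D A1 F p⟫ = r ^ 2 + t) (k2 : ∀ p, ⟪D A1 F p, D B1 F p⟫ = 0)
    (k3 : ∀ p, ⟪D B1 F p, D B1 F p⟫ = (R + r * Real.cos p.1) ^ 2) : False := by
  let a : ℝ := √(r ^ 2 + t)
  let ρ : ℝ → ℝ := fun x => R + r * Real.cos x
  have ha : 0 < a := Real.sqrt_pos.2 (by positivity)
  have hpos : ∀ x, 0 < ρ x := fun x => by
    show 0 < R + r * Real.cos x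
    nlinarith [Real.neg_one_le_cos x]
  have hρ : ContDiff ℝ 3 ρ := contDiff_const.add (contDiff_const.mul Real.contDiff_cos)
  have hiso : Iso a ρ F := by
    refine ⟨hF, ?_, k2, k3⟩
    intro p
    rw [k1, Real.sq_sqrt (by positivity)]
  have hmain := main_ineq ha hρ hpos hiso hA hB
  have hd2 : ∀ x, - deriv (deriv ρ) x = r * Real.cos x := by
    intro x
    have h1 : deriv ρ = fun x => - (r * Real.sin x) := by
      funext x
      have := ((Real.hasDerivAt_cos x).const_mul r).const_add R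
      have h2 := this.deriv
      show deriv (fun x => R + r * Real.cos x) x = _
      rw [h2]
      ring
    rw [h1]
    have := ((Real.hasDerivAt_sin x).const_mul r).neg
    show - deriv (-fun y => r * Real.sin y) x = _
    rw [this.deriv]
    ring
  simp only [hd2] at hmain
  rw [integral_max_cos r hr] at hmain
  have h3 : r < a := by
    rw [Real.lt_sqrt hr.le]
    linarith
  linarith

end Pool.Agent.Zk89.Torus
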