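import Pool.Agent.Zk89.TraceDelta

/-!
# Block form of the lower bound
-/

set_option autoImplicit false
set_option linter.unusedSectionVars false

open Matrix

namespace Pool.Agent.Zk89.Steklov

variable {ι : Type*} [Fintype ι] [DecidableEq ι]

theorem normSq_row (Δ : Matrix ι ι ℂ) (hΔ : Δᴴ = Δ) (v : ι) :
    ((Δ * Δ) v v).re = ∑ w, Complex.normSq (Δ v w) := by
  have : (Δ * Δ) v v = ((∑ w, Complex.normSq (Δ v w) : ℝ) : ℂ) := by
    rw [mul_apply, Complex.ofReal_sum]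
    apply Finset.sum_congr rfl
    intro w _
    have : Δ w v = star (Δ v w) := by
      conv_lhs => rw [← hΔ]
      rw [conjTranspose_apply]
    rw [this, ← Complex.mul_conj]
    rfl
  rw [this, Complex.ofReal_re]

/-- power mean inequality in squared form -/
theorem power_mean (s : Finset ι) (W : ι → ℝ) (δ : ι → ℝ) (w : ℝ) (hw : 0 < w)
    (hW : ∀ i ∈ s, 0 ≤ W i) (hs : ∑ i ∈ s, W i = w) (m : ℕ) :
    (∑ i ∈ s, W i * δ i ^ 2) ^ (m + 2) ≤ w ^ m * (∑ i ∈ s, W i * |δ i| ^ (m + 2)) ^ 2 := by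
  have hp : (1 : ℝ) ≤ ((m : ℝ) + 2) / 2 := by
    have : (0 : ℝ) ≤ m := Nat.cast_nonneg m
    linarith
  have h := Real.rpow_arith_mean_le_arith_mean_rpow s (fun i => W i / w) (fun i => δ i ^ 2)
    (fun i hi => div_nonneg (hW i hi) hw.le) (by rw [← Finset.sum_div, hs, div_self hw.ne'])
    (fun i _ => sq_nonneg _) hp
  have e1 : ∀ i, (δ i ^ 2 : ℝ) ^ (((m : ℝ) + 2) / 2) = |δ i| ^ (m + 2) := by
    intro i
    rw [← sq_abs, ← Real.rpow_natCast, ← Real.rpow_mul (abs_nonneg _), ← Real.rpow_natCast]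
    congr 1
    push_cast
    ring
  simp only [e1] at h
  have e2 : ∑ i ∈ s, W i / w * δ i ^ 2 = (∑ i ∈ s, W i * δ i ^ 2) / w := by
    rw [Finset.sum_div]
    exact Finset.sum_congr rfl fun i _ => by ring
  have e3 : ∑ i ∈ s, W i / w * |δ i| ^ (m + 2) = (∑ i ∈ s, W i * |δ i| ^ (m + 2)) / w := by
    rw [Finset.sum_div]
    exact Finset.sum_congr rfl fun i _ => by ring
  rw [e2, e3] at h
  set L := ∑ i ∈ s, W i * δ i ^ 2
  set τ := ∑ i ∈ s, W i * |δ i| ^ (m + 2)
  have hL : 0 ≤ L := Finset.sum_nonneg fun i hi => mul_nonneg (hW i hi) (sq_nonneg _)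
  have hLw : 0 ≤ L / w := div_nonneg hL hw.le
  have h2 : (L / w) ^ (m + 2) ≤ (τ / w) ^ 2 := by
    have h3 := pow_le_pow_left₀ (Real.rpow_nonneg hLw _) h 2
    refine le_trans (le_of_eq ?_) h3
    rw [← Real.rpow_natCast _ 2, ← Real.rpow_mul hLw, ← Real.rpow_natCast]
    congr 1
    push_cast
    ring
  rw [div_pow, div_pow] at h2
  rw [div_le_div_iff₀ (by positivity) (by positivity)] at h2
  have h4 : w ^ (m + 2) = w ^ m * w ^ 2 := pow_add _ _ _
  rw [h4] at h2
  have h5 : (0 : ℝ) < w ^ 2 := by positivity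
  nlinarith [h2, h5]

theorem blocks {A S : Matrix ι ι ℂ} (hA : Aᴴ = A) (hS : Sᴴ = S) (hSS : S * S = 1) (m : ℕ)
    {κ : Type*} (I : Finset κ) (B : κ → Finset ι) (hB : ∀ N ∈ I, (B N).Nonempty)
    (hm : ∀ v, (I.filter (fun N => v ∈ B N)).card ≤ 3) (t : κ → ℝ)
    (ht : ∀ N ∈ I, t N ^ 2 * ((B N).card : ℝ) ^ m ≤
      (∑ v ∈ B N, ∑ w, Complex.normSq (Dl A S v w)) ^ (m + 2)) :
    ∑ N ∈ I, t N ≤ 3 * 2 ^ (m + 2) *
      ((trace (A ^ (2 * (m + 2)))).re - (trace ((S * A) ^ (2 * (m + 2)))).re) := by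
  obtain ⟨U, δ, h, h', hΔ⟩ := exists_diag (Dl A S) (Dl_conj hA hS)
  have htot := total hA hS hSS m U δ h h' hΔ
  set W : κ → ι → ℝ := fun N i => ∑ v ∈ B N, Complex.normSq (U v i) with hWdef
  have hW0 : ∀ N i, 0 ≤ W N i := fun N i => Finset.sum_nonneg fun v _ => Complex.normSq_nonneg _
  have hWsum : ∀ N, ∑ i, W N i = ((B N).card : ℝ) := by
    intro N
    simp only [hWdef]
    rw [Finset.sum_comm, Finset.sum_congr rfl fun v _ => row_sum_one U h' v]
    simp
  have hrow : ∀ v, ∑ w, Complex.normSq (Dl A S v w) = ∑ l, Complex.normSq (U v l) * δ l ^ 2 := by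
    intro v
    have e1 : Dl A S * Dl A S = U * diagonal (fun l => ((δ l ^ 2 : ℝ) : ℂ)) * Uᴴ := by
      rw [← pow_two, hΔ, diag_pow U δ h h' 2]
    rw [← normSq_row _ (Dl_conj hA hS), e1, diag_entry, Complex.ofReal_re]
  have hL : ∀ N, ∑ v ∈ B N, ∑ w, Complex.normSq (Dl A S v w) = ∑ i, W N i * δ i ^ 2 := by
    intro N
    simp only [hrow, hWdef, Finset.sum_mul]
    rw [Finset.sum_comm]
  have htτ : ∀ N ∈ I, t N ≤ ∑ i, W N i * |δ i| ^ (m + 2) := by
    intro N hN
    have hcard : (0 : ℝ) < ((B N).card : ℝ) := by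
      exact_mod_cast Finset.card_pos.mpr (hB N hN)
    have h1 := ht N hN
    rw [hL] at h1
    have h2 := power_mean Finset.univ (W N) δ _ hcard (fun i _ => hW0 N i) (hWsum N) m
    have h3 : t N ^ 2 ≤ (∑ i, W N i * |δ i| ^ (m + 2)) ^ 2 := by
      have h4 := h1.trans h2
      rw [mul_comm] at h4
      exact le_of_mul_le_mul_left h4 (by positivity)
    exact le_of_sq_le_sq h3 (Finset.sum_nonneg fun i _ => mul_nonneg (hW0 N i)
      (pow_nonneg (abs_nonneg _) _))
  have h3W : ∀ i, ∑ N ∈ I, W N i ≤ 3 := by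
    intro i
    have e : ∑ N ∈ I, W N i = ∑ v, ((I.filter (fun N => v ∈ B N)).card : ℝ) *
        Complex.normSq (U v i) := by
      simp only [hWdef]
      have : ∀ N ∈ I, ∑ v ∈ B N, Complex.normSq (U v i)
          = ∑ v, if v ∈ B N then Complex.normSq (U v i) else 0 := by
        intro N _
        rw [Finset.sum_ite_mem, Finset.univ_inter]
      rw [Finset.sum_congr rfl this, Finset.sum_comm]
      apply Finset.sum_congr rfl
      intro v _
      rw [← Finset.sum_filter, Finset.sum_const, nsmul_eq_mul]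
    rw [e]
    calc ∑ v, ((I.filter (fun N => v ∈ B N)).card : ℝ) * Complex.normSq (U v i)
        ≤ ∑ v, 3 * Complex.normSq (U v i) := by
          apply Finset.sum_le_sum
          intro v _
          apply mul_le_mul_of_nonneg_right _ (Complex.normSq_nonneg _)
          exact_mod_cast hm v
      _ = 3 := by rw [← Finset.mul_sum, col_sum_one U h, mul_one]
  calc ∑ N ∈ I, t N ≤ ∑ N ∈ I, ∑ i, W N i * |δ i| ^ (m + 2) := Finset.sum_le_sum htτ
    _ = ∑ i, (∑ N ∈ I, W N i) * |δ i| ^ (m + 2) := by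
        rw [Finset.sum_comm]
        exact Finset.sum_congr rfl fun i _ => by rw [Finset.sum_mul]
    _ ≤ ∑ i, 3 * |δ i| ^ (m + 2) := by
        apply Finset.sum_le_sum
        intro i _
        exact mul_le_mul_of_nonneg_right (h3W i) (pow_nonneg (abs_nonneg _) _)
    _ = 3 * ∑ i, |δ i| ^ (m + 2) := by rw [Finset.mul_sum]
    _ ≤ _ := by
        have e : (1 / 2 : ℝ) ^ (m + 2) * 2 ^ (m + 2) = 1 := by
          rw [← mul_pow]; norm_num
        have h5 : ∑ i, |δ i| ^ (m + 2) = 2 ^ (m + 2) * ((1 / 2 : ℝ) ^ (m + 2) *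
            ∑ i, |δ i| ^ (m + 2)) := by
          rw [← mul_assoc, mul_comm (2 ^ (m + 2) : ℝ), e, one_mul]
        rw [h5, mul_assoc 3]
        exact mul_le_mul_of_nonneg_left (mul_le_mul_of_nonneg_left htot (by positivity))
          (by norm_num)

end Pool.Agent.Zk89.Steklov
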