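import Pool.Agent.Zk89.TraceWords

/-!
# Lower bound for `Tr A^(2k) - Re Tr (SA)^(2k)` by the Schatten norm of `A² - S A² S`
-/

set_option autoImplicit false
set_option linter.unusedSectionVars false

open Matrix

namespace Pool.Agent.Zk89.Steklov

variable {ι : Type*} [Fintype ι] [DecidableEq ι]

theorem exists_diag (H : Matrix ι ι ℂ) (hH : Hᴴ = H) :
    ∃ (U : Matrix ι ι ℂ) (d : ι → ℝ), Uᴴ * U = 1 ∧ U * Uᴴ = 1 ∧
      H = U * diagonal (fun i => (d i : ℂ)) * Uᴴ := by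
  have h : H.IsHermitian := hH
  refine ⟨h.eigenvectorUnitary, h.eigenvalues, ?_, ?_, ?_⟩
  · exact Unitary.coe_star_mul_self _
  · exact Unitary.coe_mul_star_self _
  · have := h.spectral_theorem
    rw [Unitary.conjStarAlgAut_apply] at this
    exact this

theorem diag_entry (V : Matrix ι ι ℂ) (e : ι → ℝ) (i : ι) :
    (V * diagonal (fun l => (e l : ℂ)) * Vᴴ) i i
      = ((∑ l, Complex.normSq (V i l) * e l : ℝ) : ℂ) := by
  rw [mul_apply, Complex.ofReal_sum]
  apply Finset.sum_congr rfl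
  intro l _
  rw [mul_diagonal, conjTranspose_apply, Complex.ofReal_mul, ← Complex.mul_conj]
  simp only [RCLike.star_def]
  ring

theorem diag_pow (V : Matrix ι ι ℂ) (e : ι → ℝ) (h : Vᴴ * V = 1) (h' : V * Vᴴ = 1) (n : ℕ) :
    (V * diagonal (fun l => (e l : ℂ)) * Vᴴ) ^ n
      = V * diagonal (fun l => ((e l ^ n : ℝ) : ℂ)) * Vᴴ := by
  induction n with
  | zero => simp [h']
  | succ n ih =>
    rw [pow_succ, ih]
    calc V * diagonal (fun l => ((e l ^ n : ℝ) : ℂ)) * Vᴴ * (V * diagonal (fun l => (e l : ℂ)) * Vᴴ)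
        = V * (diagonal (fun l => ((e l ^ n : ℝ) : ℂ)) * (Vᴴ * V) *
            diagonal (fun l => (e l : ℂ))) * Vᴴ := by simp only [Matrix.mul_assoc]
      _ = _ := by
        rw [h, Matrix.mul_one, diagonal_mul_diagonal]
        congr 3
        ext l
        push_cast
        ring

theorem row_sum_one (V : Matrix ι ι ℂ) (h' : V * Vᴴ = 1) (i : ι) :
    ∑ l, Complex.normSq (V i l) = 1 := by
  have := congrFun (congrFun h' i) i
  rw [mul_apply] at this
  simp only [conjTranspose_apply, RCLike.star_def, Complex.mul_conj, one_apply_eq] at this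
  exact_mod_cast this

theorem col_sum_one (V : Matrix ι ι ℂ) (h : Vᴴ * V = 1) (i : ι) :
    ∑ l, Complex.normSq (V l i) = 1 := by
  have := congrFun (congrFun h i) i
  rw [mul_apply] at this
  simp only [conjTranspose_apply, RCLike.star_def] at this
  have e : ∀ x : ι, (starRingEnd ℂ) (V x i) * V x i = ((Complex.normSq (V x i) : ℝ) : ℂ) := by
    intro x
    rw [mul_comm, Complex.mul_conj]
  simp only [e, one_apply_eq] at this
  exact_mod_cast this

/-- Jensen: `((C²)_ii)^n ≤ ((C²)^n)_ii` for Hermitian `C`. -/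
theorem jensen (C : Matrix ι ι ℂ) (hC : Cᴴ = C) (i : ι) (n : ℕ) :
    0 ≤ ((C * C) i i).re ∧ ((C * C) i i).re ^ n ≤ (((C * C) ^ n) i i).re := by
  obtain ⟨V, d, h, h', hd⟩ := exists_diag C hC
  have e1 : C * C = V * diagonal (fun l => ((d l ^ 2 : ℝ) : ℂ)) * Vᴴ := by
    rw [← pow_two, hd, diag_pow V d h h' 2]
  rw [e1, diag_pow V _ h h', diag_entry, diag_entry, Complex.ofReal_re, Complex.ofReal_re]
  refine ⟨Finset.sum_nonneg fun l _ => mul_nonneg (Complex.normSq_nonneg _) (sq_nonneg _), ?_⟩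
  exact Real.pow_arith_mean_le_arith_mean_pow _ _ _ (fun l _ => Complex.normSq_nonneg _)
    (row_sum_one V h' i) (fun l _ => sq_nonneg _) n

theorem conj_pow (U X : Matrix ι ι ℂ) (h : Uᴴ * U = 1) (h' : U * Uᴴ = 1) (n : ℕ) :
    Uᴴ * X ^ n * U = (Uᴴ * X * U) ^ n := by
  induction n with
  | zero => simp [h]
  | succ n ih =>
    rw [pow_succ (Uᴴ * X * U), ← ih, pow_succ]
    calc Uᴴ * (X ^ n * X) * U = Uᴴ * X ^ n * 1 * X * U := by
          rw [Matrix.mul_one]; simp only [Matrix.mul_assoc]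
      _ = _ := by
          rw [← h']; simp only [Matrix.mul_assoc]

/-- `Tr(Δ² X) = Σ δ_i² (U* X U)_ii`. -/
theorem trace_sq (U : Matrix ι ι ℂ) (δ : ι → ℝ) (h : Uᴴ * U = 1) (h' : U * Uᴴ = 1)
    (Δ X : Matrix ι ι ℂ) (hΔ : Δ = U * diagonal (fun i => (δ i : ℂ)) * Uᴴ) :
    (trace (Δ * Δ * X)).re = ∑ i, δ i ^ 2 * ((Uᴴ * X * U) i i).re := by
  have e1 : Δ * Δ = U * diagonal (fun l => ((δ l ^ 2 : ℝ) : ℂ)) * Uᴴ := by
    rw [← pow_two, hΔ, diag_pow U δ h h' 2]
  rw [e1]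
  have e2 : U * diagonal (fun l => ((δ l ^ 2 : ℝ) : ℂ)) * Uᴴ * X
      = U * (diagonal (fun l => ((δ l ^ 2 : ℝ) : ℂ)) * Uᴴ * X) := by
    simp only [Matrix.mul_assoc]
  rw [e2, trace_mul_comm]
  have e3 : diagonal (fun l => ((δ l ^ 2 : ℝ) : ℂ)) * Uᴴ * X * U
      = diagonal (fun l => ((δ l ^ 2 : ℝ) : ℂ)) * (Uᴴ * X * U) := by
    simp only [Matrix.mul_assoc]
  rw [e3, trace, Complex.re_sum]
  apply Finset.sum_congr rfl
  intro i _
  rw [diag_apply, diagonal_mul, Complex.re_ofReal_mul]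

section

variable {A S : Matrix ι ι ℂ}

theorem sandwich_pow (X : Matrix ι ι ℂ) (hSS : S * S = 1) (n : ℕ) :
    (S * X * S) ^ n = S * X ^ n * S := by
  induction n with
  | zero => simp [hSS]
  | succ n ih =>
    rw [pow_succ, ih, pow_succ]
    calc S * X ^ n * S * (S * X * S) = S * X ^ n * (S * S) * X * S := by
          simp only [Matrix.mul_assoc]
      _ = _ := by rw [hSS, Matrix.mul_one]; simp only [Matrix.mul_assoc]

theorem sq_pow_eq (X : Matrix ι ι ℂ) (n : ℕ) : (X * X) ^ n = X ^ n * X ^ n := by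
  rw [← pow_two, ← pow_mul, mul_comm, pow_mul, pow_two]

theorem tr_nonneg (D A A' : Matrix ι ι ℂ) (hD : Dᴴ = D) (hA : Aᴴ = A) (hA' : A'ᴴ = A')
    (m j : ℕ) : 0 ≤ (trace (D * (A * A) ^ m * D * (A' * A') ^ j)).re := by
  have h := trace_mul_conj_nonneg (A' ^ j * D * A ^ m)
  have e : A' ^ j * D * A ^ m * (A' ^ j * D * A ^ m)ᴴ
      = A' ^ j * (D * (A ^ m * A ^ m) * D * A' ^ j) := by
    rw [conjTranspose_mul, conjTranspose_mul, conjTranspose_pow, conjTranspose_pow, hD, hA, hA']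
    simp only [Matrix.mul_assoc]
  rw [e, trace_mul_comm] at h
  rw [sq_pow_eq, sq_pow_eq]
  rw [show D * (A ^ m * A ^ m) * D * (A' ^ j * A' ^ j)
    = D * (A ^ m * A ^ m) * D * A' ^ j * A' ^ j by simp only [Matrix.mul_assoc]]
  exact h

theorem pow_sub_step (X Y : Matrix ι ι ℂ) (m : ℕ) :
    X ^ (m + 1) - Y ^ (m + 1) = X ^ m * (X - Y) + (X ^ m - Y ^ m) * Y := by
  rw [pow_succ, pow_succ, Matrix.mul_sub, Matrix.sub_mul]
  abel

/-- `Δ = A² - S A² S` -/
def Dl (A S : Matrix ι ι ℂ) : Matrix ι ι ℂ := A * A - S * (A * A) * S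

theorem Dl_conj (hA : Aᴴ = A) (hS : Sᴴ = S) : (Dl A S)ᴴ = Dl A S := by
  unfold Dl
  simp only [conjTranspose_sub, conjTranspose_mul, hA, hS, Matrix.mul_assoc]

theorem S_Dl_S (hSS : S * S = 1) : S * Dl A S * S = - Dl A S := by
  unfold Dl
  rw [Matrix.mul_sub, Matrix.sub_mul]
  have : S * (S * (A * A) * S) * S = A * A := by
    calc S * (S * (A * A) * S) * S = (S * S) * (A * A) * (S * S) := by
          simp only [Matrix.mul_assoc]
      _ = _ := by rw [hSS, Matrix.mul_one, Matrix.one_mul]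
  rw [this]
  abel

theorem sandwich_sq (hSS : S * S = 1) : S * (A * A) * S = (S * A * S) * (S * A * S) := by
  calc S * (A * A) * S = S * A * 1 * A * S := by
        rw [Matrix.mul_one]; simp only [Matrix.mul_assoc]
    _ = _ := by rw [← hSS]; simp only [Matrix.mul_assoc]

theorem SAS_conj (hA : Aᴴ = A) (hS : Sᴴ = S) : (S * A * S)ᴴ = S * A * S := by
  simp only [conjTranspose_mul, hA, hS, Matrix.mul_assoc]

theorem tele_nonneg (hA : Aᴴ = A) (hS : Sᴴ = S) (hSS : S * S = 1) (m : ℕ) : ∀ j : ℕ,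
    0 ≤ (trace (Dl A S * ((A * A) ^ m - (S * (A * A) * S) ^ m) * (S * (A * A) * S) ^ j)).re := by
  induction m with
  | zero => intro j; simp
  | succ m ih =>
    intro j
    rw [pow_sub_step]
    have e : Dl A S * ((A * A) ^ m * (A * A - S * (A * A) * S) +
        ((A * A) ^ m - (S * (A * A) * S) ^ m) * (S * (A * A) * S)) * (S * (A * A) * S) ^ j
        = Dl A S * (A * A) ^ m * Dl A S * (S * (A * A) * S) ^ j +
          Dl A S * ((A * A) ^ m - (S * (A * A) * S) ^ m) * (S * (A * A) * S) ^ (j + 1) := by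
      rw [pow_succ' _ j, Matrix.mul_add, Matrix.add_mul]
      unfold Dl
      simp only [Matrix.mul_assoc]
    rw [e, trace_add, Complex.add_re]
    refine add_nonneg ?_ (ih (j + 1))
    have := tr_nonneg (Dl A S) A (S * A * S) (Dl_conj hA hS) hA (SAS_conj hA hS) m j
    rw [← sandwich_sq hSS] at this
    exact this

theorem trace_sandwich (hSS : S * S = 1) (n : ℕ) :
    trace ((S * (A * A) * S) ^ n * Dl A S) = - trace ((A * A) ^ n * Dl A S) := by
  rw [sandwich_pow _ hSS]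
  have e : S * (A * A) ^ n * S * Dl A S = S * ((A * A) ^ n * S * Dl A S) := by
    simp only [Matrix.mul_assoc]
  rw [e, trace_mul_comm]
  have e2 : (A * A) ^ n * S * Dl A S * S = (A * A) ^ n * (S * Dl A S * S) := by
    simp only [Matrix.mul_assoc]
  rw [e2, S_Dl_S hSS, Matrix.mul_neg, trace_neg]

/-- `2 (T - G) ≥ Re Tr(Δ Q^m Δ)`. -/
theorem two_TG (hA : Aᴴ = A) (hS : Sᴴ = S) (hSS : S * S = 1) (m : ℕ) :
    (trace (Dl A S * Dl A S * (A * A) ^ m)).re ≤ 2 * ((trace (A ^ (2 * (m + 2)))).re -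
      (trace (A ^ (2 * (m + 1)) * (S * (A * A) * S))).re) := by
  have e1 : (trace (A ^ (2 * (m + 2)))).re - (trace (A ^ (2 * (m + 1)) * (S * (A * A) * S))).re
      = (trace ((A * A) ^ (m + 1) * Dl A S)).re := by
    rw [pow_mul, pow_mul, ← Complex.sub_re, ← trace_sub, pow_succ (A ^ 2) (m + 1),
      ← Matrix.mul_sub, pow_two A]
    rfl
  rw [e1]
  have h := trace_sandwich (A := A) hSS (m + 1)
  have h2 : 2 * (trace ((A * A) ^ (m + 1) * Dl A S)).re
      = (trace (Dl A S * ((A * A) ^ (m + 1) - (S * (A * A) * S) ^ (m + 1)))).re := by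
    rw [Matrix.mul_sub, trace_sub, trace_mul_comm (Dl A S), trace_mul_comm (Dl A S), h]
    simp
    ring
  rw [h2, pow_sub_step, Matrix.mul_add, trace_add, Complex.add_re]
  have h3 := tele_nonneg hA hS hSS m 1
  rw [pow_one, Matrix.mul_assoc] at h3
  have h4 : trace (Dl A S * ((A * A) ^ m * (A * A - S * (A * A) * S)))
      = trace (Dl A S * Dl A S * (A * A) ^ m) := by
    show trace (Dl A S * ((A * A) ^ m * Dl A S)) = _
    rw [← Matrix.mul_assoc, trace_mul_comm, Matrix.mul_assoc]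
  rw [h4]
  linarith

theorem trace_sq_symm (hSS : S * S = 1) (m : ℕ) :
    trace (Dl A S * Dl A S * (S * (A * A) * S) ^ m) = trace (Dl A S * Dl A S * (A * A) ^ m) := by
  rw [sandwich_pow _ hSS]
  have e : Dl A S * Dl A S * (S * (A * A) ^ m * S) = Dl A S * Dl A S * S * (A * A) ^ m * S := by
    simp only [Matrix.mul_assoc]
  rw [e, trace_mul_comm]
  have e2 : S * (Dl A S * Dl A S * S * (A * A) ^ m)
      = (S * Dl A S * S) * (S * Dl A S * S) * (A * A) ^ m := by
    calc S * (Dl A S * Dl A S * S * (A * A) ^ m)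
        = S * Dl A S * 1 * Dl A S * S * (A * A) ^ m := by
          rw [Matrix.mul_one]; simp only [Matrix.mul_assoc]
      _ = _ := by rw [← hSS]; simp only [Matrix.mul_assoc]
  rw [e2, S_Dl_S hSS, neg_mul_neg]

/-- Lower bound by the Schatten norm of `Δ`. -/
theorem schatten (hA : Aᴴ = A) (hS : Sᴴ = S) (hSS : S * S = 1) (m : ℕ)
    (U : Matrix ι ι ℂ) (δ : ι → ℝ) (h : Uᴴ * U = 1) (h' : U * Uᴴ = 1)
    (hΔ : Dl A S = U * diagonal (fun i => (δ i : ℂ)) * Uᴴ) :
    ∑ i, |δ i| ^ (m + 2) ≤ 2 * (trace (Dl A S * Dl A S * (A * A) ^ m)).re := by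
  have h1 := trace_sq U δ h h' (Dl A S) ((A * A) ^ m) hΔ
  have h2 := trace_sq U δ h h' (Dl A S) ((S * (A * A) * S) ^ m) hΔ
  rw [trace_sq_symm hSS] at h2
  have h3 : 2 * (trace (Dl A S * Dl A S * (A * A) ^ m)).re
      = ∑ i, δ i ^ 2 * (((Uᴴ * (A * A) ^ m * U) i i).re +
        ((Uᴴ * (S * (A * A) * S) ^ m * U) i i).re) := by
    simp only [mul_add, Finset.sum_add_distrib]
    rw [← h1, ← h2]
    ring
  rw [h3]
  apply Finset.sum_le_sum
  intro i _
  rw [conj_pow U _ h h', conj_pow U _ h h', sandwich_sq hSS]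
  have c1 : Uᴴ * (A * A) * U = (Uᴴ * A * U) * (Uᴴ * A * U) := by
    calc Uᴴ * (A * A) * U = Uᴴ * A * 1 * A * U := by
          rw [Matrix.mul_one]; simp only [Matrix.mul_assoc]
      _ = _ := by rw [← h']; simp only [Matrix.mul_assoc]
  have c2 : Uᴴ * ((S * A * S) * (S * A * S)) * U
      = (Uᴴ * (S * A * S) * U) * (Uᴴ * (S * A * S) * U) := by
    calc Uᴴ * ((S * A * S) * (S * A * S)) * U = Uᴴ * (S * A * S) * 1 * (S * A * S) * U := by
          rw [Matrix.mul_one]; simp only [Matrix.mul_assoc]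
      _ = _ := by rw [← h']; simp only [Matrix.mul_assoc]
  have k1 : (Uᴴ * A * U)ᴴ = Uᴴ * A * U := by
    simp only [conjTranspose_mul, conjTranspose_conjTranspose, hA, Matrix.mul_assoc]
  have k2 : (Uᴴ * (S * A * S) * U)ᴴ = Uᴴ * (S * A * S) * U := by
    simp only [conjTranspose_mul, conjTranspose_conjTranspose, hA, hS, Matrix.mul_assoc]
  have j1 := jensen _ k1 i m
  have j2 := jensen _ k2 i m
  rw [← c1] at j1
  rw [← c2] at j2
  have hδ : δ i = ((Uᴴ * (A * A) * U) i i).re -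
      ((Uᴴ * ((S * A * S) * (S * A * S)) * U) i i).re := by
    rw [← Complex.sub_re, ← Matrix.sub_apply, ← Matrix.sub_mul, ← Matrix.mul_sub, ← sandwich_sq hSS]
    show _ = ((Uᴴ * Dl A S * U) i i).re
    rw [hΔ]
    have : Uᴴ * (U * diagonal (fun i => (δ i : ℂ)) * Uᴴ) * U
        = diagonal (fun i => (δ i : ℂ)) := by
      calc Uᴴ * (U * diagonal (fun i => (δ i : ℂ)) * Uᴴ) * U
          = (Uᴴ * U) * diagonal (fun i => (δ i : ℂ)) * (Uᴴ * U) := by
            simp only [Matrix.mul_assoc]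
        _ = _ := by rw [h, Matrix.mul_one, Matrix.one_mul]
    rw [this, diagonal_apply_eq, Complex.ofReal_re]
  set x := ((Uᴴ * (A * A) * U) i i).re
  set y := ((Uᴴ * ((S * A * S) * (S * A * S)) * U) i i).re
  have hx := j1.1
  have hy := j2.1
  have hpow : |δ i| ^ (m + 2) = δ i ^ 2 * |δ i| ^ m := by
    rw [pow_add, mul_comm, sq_abs]
  rw [hpow]
  apply mul_le_mul_of_nonneg_left _ (sq_nonneg _)
  have hkey : |δ i| ^ m ≤ x ^ m + y ^ m := by
    rcases le_total x y with hxy | hxy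
    · have : |δ i| ≤ y := by
        rw [hδ, abs_le]; constructor <;> linarith
      have := pow_le_pow_left₀ (abs_nonneg _) this m
      have h0 : 0 ≤ x ^ m := pow_nonneg hx m
      linarith
    · have : |δ i| ≤ x := by
        rw [hδ, abs_le]; constructor <;> linarith
      have := pow_le_pow_left₀ (abs_nonneg _) this m
      have h0 : 0 ≤ y ^ m := pow_nonneg hy m
      linarith
  linarith [j1.2, j2.2]

/-- The total estimate. -/
theorem total (hA : Aᴴ = A) (hS : Sᴴ = S) (hSS : S * S = 1) (m : ℕ)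
    (U : Matrix ι ι ℂ) (δ : ι → ℝ) (h : Uᴴ * U = 1) (h' : U * Uᴴ = 1)
    (hΔ : Dl A S = U * diagonal (fun i => (δ i : ℂ)) * Uᴴ) :
    (1 / 2) ^ (m + 2) * ∑ i, |δ i| ^ (m + 2) ≤
      (trace (A ^ (2 * (m + 2)))).re - (trace ((S * A) ^ (2 * (m + 2)))).re := by
  have h1 := word_ineq hA hS hSS m
  have h2 := two_TG hA hS hSS m
  have h3 := schatten hA hS hSS m U δ h h' hΔ
  have hp : (0 : ℝ) ≤ (1 / 2) ^ m := by positivity
  set T := (trace (A ^ (2 * (m + 2)))).re
  set G := (trace (A ^ (2 * (m + 1)) * (S * (A * A) * S))).re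
  have h4 : ∑ i, |δ i| ^ (m + 2) ≤ 4 * (T - G) := by linarith
  have h5 := mul_le_mul_of_nonneg_left h4 hp
  rw [pow_add]
  linarith

end

end Pool.Agent.Zk89.Steklov
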