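import Mathlib

/-!
# A quantitative form of `Re Tr (SA)^(2k) ≤ Tr A^(2k)` for a Hermitian matrix `A` and a Hermitian
involution `S`
-/

set_option autoImplicit false

open Matrix

namespace Pool.Agent.Zk89.Steklov

variable {ι : Type*} [Fintype ι] [DecidableEq ι]

/-- The letters. -/
def E (S : Matrix ι ι ℂ) (b : Bool) : Matrix ι ι ℂ := if b then 1 else S

/-- `A ε₁ A ε₂ ⋯ εₘ A`. -/
def P (A S : Matrix ι ι ℂ) : List Bool → Matrix ι ι ℂ
  | [] => A
  | b :: l => A * E S b * P A S l

/-- `‖P l‖²` (Frobenius norm) -/
noncomputable def N2 (A S : Matrix ι ι ℂ) (l : List Bool) : ℝ :=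
  (trace (P A S l * (P A S l)ᴴ)).re

section

variable {A S : Matrix ι ι ℂ}

theorem trace_mul_conj_nonneg (X : Matrix ι ι ℂ) : 0 ≤ (trace (X * Xᴴ)).re := by
  rw [trace, Complex.re_sum]
  apply Finset.sum_nonneg
  intro i _
  simp only [diag_apply, mul_apply, conjTranspose_apply, Complex.re_sum]
  apply Finset.sum_nonneg
  intro j _
  simp only [RCLike.star_def, Complex.mul_conj, Complex.ofReal_re]
  exact Complex.normSq_nonneg _

theorem cs (X Y : Matrix ι ι ℂ) :
    (trace (X * Y)).re ≤ ((trace (X * Xᴴ)).re + (trace (Y * Yᴴ)).re) / 2 := by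
  have h := trace_mul_conj_nonneg (X - Yᴴ)
  have e : (X - Yᴴ) * (X - Yᴴ)ᴴ = X * Xᴴ - X * Y - Yᴴ * Xᴴ + Yᴴ * Y := by
    rw [conjTranspose_sub, conjTranspose_conjTranspose]
    noncomm_ring
  have e2 : trace (Yᴴ * Xᴴ) = star (trace (X * Y)) := by
    rw [← conjTranspose_mul, trace_conjTranspose]
  rw [e, trace_add, trace_sub, trace_sub, e2, trace_mul_comm Yᴴ Y] at h
  simp at h
  linarith

theorem E_mul_E (hSS : S * S = 1) (b : Bool) : E S b * E S b = 1 := by
  cases b <;> simp [E, hSS]

theorem E_conj (hS : Sᴴ = S) (b : Bool) : (E S b)ᴴ = E S b := by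
  cases b <;> simp [E, hS]

theorem P_append (l₁ l₂ : List Bool) (b : Bool) :
    P A S (l₁ ++ b :: l₂) = P A S l₁ * E S b * P A S l₂ := by
  induction l₁ with
  | nil => rfl
  | cons c l ih =>
    show A * E S c * P A S (l ++ b :: l₂) = A * E S c * P A S l * E S b * P A S l₂
    rw [ih]
    simp only [Matrix.mul_assoc]

theorem P_conj (hA : Aᴴ = A) (hS : Sᴴ = S) (l : List Bool) : (P A S l)ᴴ = P A S l.reverse := by
  induction l with
  | nil => exact hA
  | cons b l ih =>
    rw [List.reverse_cons, P_append]
    show (A * E S b * P A S l)ᴴ = _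
    rw [conjTranspose_mul, conjTranspose_mul, ih, E_conj hS, hA]
    simp only [Matrix.mul_assoc]
    rfl

theorem cs_word (hS : Sᴴ = S) (hSS : S * S = 1) (b c : Bool) (l₁ l₂ : List Bool) :
    (trace (E S b * P A S l₁ * E S c * P A S l₂)).re ≤ (N2 A S l₁ + N2 A S l₂) / 2 := by
  refine (cs _ _).trans (le_of_eq ?_)
  congr 2
  unfold N2
  rw [conjTranspose_mul, conjTranspose_mul, E_conj hS, E_conj hS]
  have : E S b * P A S l₁ * E S c * (E S c * ((P A S l₁)ᴴ * E S b))
      = E S b * (P A S l₁ * (P A S l₁)ᴴ * E S b) := by
    calc E S b * P A S l₁ * E S c * (E S c * ((P A S l₁)ᴴ * E S b))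
        = E S b * P A S l₁ * (E S c * E S c) * (P A S l₁)ᴴ * E S b := by
          simp only [Matrix.mul_assoc]
      _ = _ := by
          rw [E_mul_E hSS, Matrix.mul_one]
          simp only [Matrix.mul_assoc]
  rw [this, trace_mul_comm, Matrix.mul_assoc, E_mul_E hSS, Matrix.mul_one]

/-- The Cauchy–Schwarz step. -/
theorem N2_step (hA : Aᴴ = A) (hS : Sᴴ = S) (hSS : S * S = 1) (l : List Bool) (hl : l ≠ []) :
    N2 A S l ≤ (N2 A S (true :: l.dropLast) + N2 A S (true :: l.tail.reverse)) / 2 := by
  obtain ⟨x, l'', rfl⟩ := List.exists_cons_of_ne_nil hl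
  have h1 : P A S (x :: l'') = P A S (x :: l'').dropLast * E S ((x :: l'').getLast hl) * A := by
    conv_lhs => rw [← List.dropLast_append_getLast hl]
    rw [P_append]
    rfl
  have h2 : A * P A S (x :: l'').reverse = P A S (true :: l''.reverse) * E S x * A := by
    have : A * P A S (x :: l'').reverse = P A S (true :: (x :: l'').reverse) := by
      show _ = A * E S true * _
      simp [E]
    rw [this, List.reverse_cons, ← List.cons_append, P_append]
    rfl
  have h3 : P A S (x :: l'') * (P A S (x :: l''))ᴴ
      = P A S (x :: l'').dropLast * E S ((x :: l'').getLast hl) *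
        P A S (true :: l''.reverse) * E S x * A := by
    rw [P_conj hA hS]
    conv_lhs => rw [h1]
    rw [Matrix.mul_assoc _ A, h2]
    simp only [Matrix.mul_assoc]
  have h4 : A * P A S (x :: l'').dropLast = P A S (true :: (x :: l'').dropLast) := by
    show _ = A * E S true * _
    simp [E]
  have h5 : N2 A S (x :: l'') = (trace (E S x * P A S (true :: (x :: l'').dropLast) *
      E S ((x :: l'').getLast hl) * P A S (true :: l''.reverse))).re := by
    unfold N2
    rw [h3, ← h4, ← Matrix.mul_assoc, trace_mul_comm]
    rw [show A * (P A S (x :: l'').dropLast * E S ((x :: l'').getLast hl) *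
        P A S (true :: l''.reverse) * E S x)
        = (A * P A S (x :: l'').dropLast * E S ((x :: l'').getLast hl) *
        P A S (true :: l''.reverse)) * E S x by simp only [Matrix.mul_assoc]]
    rw [trace_mul_comm]
    simp only [Matrix.mul_assoc]
  rw [h5]
  exact cs_word hS hSS _ _ _ _

/-- maximum principle: all words of a given length are bounded by the word without `S` -/
theorem N2_le (hA : Aᴴ = A) (hS : Sᴴ = S) (hSS : S * S = 1) (m : ℕ) (l : List Bool)
    (hl : l.length = m) : N2 A S l ≤ N2 A S (List.replicate m true) := by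
  set T := N2 A S (List.replicate m true) with hT
  haveI : Nonempty (List.Vector Bool m) := ⟨⟨l, hl⟩⟩
  obtain ⟨v, hv⟩ := Finite.exists_max (fun v : List.Vector Bool m => N2 A S v.1)
  set M := N2 A S v.1 with hM
  have hmax : ∀ l : List Bool, l.length = m → N2 A S l ≤ M := fun l hl => hv ⟨l, hl⟩
  have key : ∀ j : ℕ, j ≤ m → ∀ l : List Bool, l.length = m →
      (∃ q, l = List.replicate (m - j) true ++ q) → N2 A S l ≤ M - (1 / 2) ^ j * (M - T) := by
    intro j
    induction j with
    | zero =>
      intro _ l hl ⟨q, hq⟩
      have hq0 : q = [] := by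
        have := congrArg List.length hq
        rw [List.length_append, List.length_replicate, hl] at this
        exact List.eq_nil_of_length_eq_zero (by omega)
      rw [hq, hq0, List.append_nil, Nat.sub_zero, ← hT]
      simp
    | succ j ih =>
      intro hj l hl ⟨q, hq⟩
      have hlne : l ≠ [] := by
        rintro rfl
        simp at hl
        omega
      have hqlen : q.length = j + 1 := by
        have := congrArg List.length hq
        rw [List.length_append, List.length_replicate, hl] at this
        omega
      have hqne : q ≠ [] := by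
        rintro rfl
        simp at hqlen
      have h1 := N2_step hA hS hSS l hlne
      have h2 : N2 A S (true :: l.dropLast) ≤ M - (1 / 2) ^ j * (M - T) := by
        apply ih (by omega)
        · simp [hl]; omega
        · refine ⟨q.dropLast, ?_⟩
          rw [hq, List.dropLast_append_of_ne_nil hqne]
          rw [show m - j = (m - (j + 1)) + 1 by omega, List.replicate_succ, List.cons_append]
      have h3 : N2 A S (true :: l.tail.reverse) ≤ M := by
        apply hmax
        simp [hl]; omega
      rw [pow_succ]
      linarith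
  have h := key m le_rfl v.1 v.2 ⟨v.1, by simp⟩
  have hpos : (0 : ℝ) < (1 / 2) ^ m := by positivity
  have hMT : M ≤ T := by
    by_contra hlt
    push Not at hlt
    have : 0 < (1 / 2 : ℝ) ^ m * (M - T) := mul_pos hpos (by linarith)
    linarith
  exact (hmax l hl).trans hMT

/-- Quantitative bound for the word `S ⋯ S`. -/
theorem N2_quant (hA : Aᴴ = A) (hS : Sᴴ = S) (hSS : S * S = 1) (m : ℕ) :
    ∀ j : ℕ, j ≤ m → ∀ l q : List Bool,
      l = List.replicate (m - j) true ++ false :: q → q.length = j →
      N2 A S l ≤ N2 A S (List.replicate (m + 1) true) - (1 / 2) ^ j *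
        (N2 A S (List.replicate (m + 1) true) - N2 A S (List.replicate m true ++ [false])) := by
  intro j
  induction j with
  | zero =>
    intro _ l q hl hq
    have : q = [] := List.eq_nil_of_length_eq_zero hq
    rw [hl, this, Nat.sub_zero]
    simp
  | succ j ih =>
    intro hj l q hl hq
    have hlne : l ≠ [] := by
      rw [hl]
      simp
    have hlen : l.length = m + 1 := by
      rw [hl]
      simp [hq]
      omega
    have hqne : q ≠ [] := by
      rintro rfl
      simp at hq
    have h1 := N2_step hA hS hSS l hlne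
    have h2 := ih (by omega) (true :: l.dropLast) q.dropLast (by
      rw [hl, List.dropLast_append_of_ne_nil (by simp), List.dropLast_cons_of_ne_nil hqne]
      rw [show m - j = (m - (j + 1)) + 1 by omega, List.replicate_succ, List.cons_append]) (by
      simp [hq])
    have h3 : N2 A S (true :: l.tail.reverse) ≤ N2 A S (List.replicate (m + 1) true) := by
      apply N2_le hA hS hSS
      simp [hlen]
    rw [pow_succ]
    linarith

theorem P_replicate_true (m : ℕ) : P A S (List.replicate m true) = A ^ (m + 1) := by
  induction m with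
  | zero => simp [P]
  | succ m ih =>
    rw [List.replicate_succ]
    show A * E S true * _ = _
    rw [ih]
    simp [E, pow_succ' A (m + 1)]

theorem S_mul_P_replicate_false (m : ℕ) :
    S * P A S (List.replicate m false) = (S * A) ^ (m + 1) := by
  induction m with
  | zero => simp [P]
  | succ m ih =>
    rw [List.replicate_succ]
    show S * (A * E S false * _) = _
    rw [pow_succ', ← ih]
    simp [E, Matrix.mul_assoc]

/-- The word inequality: `k = m + 2`. -/
theorem word_ineq (hA : Aᴴ = A) (hS : Sᴴ = S) (hSS : S * S = 1) (m : ℕ) :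
    (trace ((S * A) ^ (2 * (m + 2)))).re ≤ (trace (A ^ (2 * (m + 2)))).re - (1 / 2) ^ m *
      ((trace (A ^ (2 * (m + 2)))).re - (trace (A ^ (2 * (m + 1)) * (S * (A * A) * S))).re) := by
  have h1 : N2 A S (List.replicate (m + 1) true) = (trace (A ^ (2 * (m + 2)))).re := by
    unfold N2
    rw [P_replicate_true, conjTranspose_pow, hA, ← pow_add]
    congr 3
    ring
  have h2 : N2 A S (List.replicate m true ++ [false])
      = (trace (A ^ (2 * (m + 1)) * (S * (A * A) * S))).re := by
    unfold N2
    rw [P_append, P_replicate_true]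
    show (trace (A ^ (m + 1) * S * A * (A ^ (m + 1) * S * A)ᴴ)).re = _
    rw [conjTranspose_mul, conjTranspose_mul, conjTranspose_pow, hA, hS]
    rw [show A ^ (m + 1) * S * A * (A * (S * A ^ (m + 1)))
      = (A ^ (m + 1) * S * A * (A * S)) * A ^ (m + 1) by simp only [Matrix.mul_assoc],
      trace_mul_comm]
    have e0 : A ^ (2 * (m + 1)) = A ^ (m + 1) * A ^ (m + 1) := by
      rw [← pow_add]; congr 1; ring
    rw [e0]
    simp only [Matrix.mul_assoc]
  have h3 : (trace ((S * A) ^ (2 * (m + 2)))).re ≤ N2 A S (List.replicate (m + 1) false) := by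
    have := cs_word (A := A) hS hSS false false (List.replicate (m + 1) false)
      (List.replicate (m + 1) false)
    have e : E S false * P A S (List.replicate (m + 1) false) * E S false *
        P A S (List.replicate (m + 1) false) = (S * A) ^ (2 * (m + 2)) := by
      have e1 : E S false * P A S (List.replicate (m + 1) false) = (S * A) ^ (m + 2) :=
        S_mul_P_replicate_false (m + 1)
      have e0 : (S * A) ^ (2 * (m + 2)) = (S * A) ^ (m + 2) * (S * A) ^ (m + 2) := by
        rw [← pow_add]; congr 1; ring
      rw [Matrix.mul_assoc, e1, e0]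
    rw [e] at this
    linarith
  have h4 := N2_quant hA hS hSS m m le_rfl (List.replicate (m + 1) false)
    (List.replicate m false) (by simp [List.replicate_succ]) (by simp)
  rw [h1, h2] at h4
  exact h3.trans h4

end

end Pool.Agent.Zk89.Steklov
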